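import Pool.Agent.H83.NT.Upper

/-!
`Π⁰₃`-completeness of closure under complementation.
-/

namespace Pool.Agent.H83.NT

open Function Pool.Agent.Lead.NTM Encodable Denumerable
open Nat.Partrec (Code)

/-- The computable families of time bounds. -/
theorem exists_family {g : ℕ → ℕ} (hg : Computable g) {S : Set ℕ} (hS : IsPi3 S) :
    ∃ t : ℕ → ℕ → ℕ, Computable₂ t ∧ (∀ x, StrictMono (t x)) ∧ (∀ x n, g n ≤ t x n) ∧
      ∀ (A : Type) [Finite A] [Nonempty A] (x : ℕ),
        (x ∈ S → NTIMEPol A (t x) = coNTIMEPol A (t x) ∧ NTIMEPol A (t x) = DTIMEPol A (t x)) ∧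
        (x ∉ S → ∃ L ∈ DTIMEPol A (t x), Lᶜ ∉ NTIMEPol A (t x)) := by
  obtain ⟨R, hR, hRS⟩ := hS
  let W : P3 := ⟨R, hR⟩
  have hW : W.set = S := by
    ext x
    exact (hRS x).symm
  refine ⟨tt W hg, computable_tt W hg, tt_strictMono W hg, g_le_tt W hg, fun A _ _ x => ⟨?_, ?_⟩⟩
  · intro hx
    rw [← hW] at hx
    refine ⟨closed_iff.2 fun L hL => ?_, ?_⟩
    · exact DTIMEPol_subset _ _ (closed_case W hg hx hL).2
    · exact Set.Subset.antisymm (fun L hL => (closed_case W hg hx hL).1) (DTIMEPol_subset _ _)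
  · intro hx
    rw [← hW] at hx
    exact nonclosed_case W hg hx A

/-- The codes of a computable family. -/
theorem exists_codes {t : ℕ → ℕ → ℕ} (ht : Computable₂ t) :
    ∃ f : ℕ → ℕ, Computable f ∧ ∀ x n, t x n ∈ (ofNat Code (f x)).eval n := by
  have h1 : Computable fun n : ℕ => t n.unpair.1 n.unpair.2 :=
    ht.comp (Computable.fst.comp Computable.unpair) (Computable.snd.comp Computable.unpair)
  obtain ⟨c, hc⟩ := Code.exists_code.1 (Partrec.nat_iff.1 h1.partrec)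
  refine ⟨fun x => encode (Code.curry c x), ?_, fun x n => ?_⟩
  · exact Computable.encode.comp (Code.primrec₂_curry.to_comp.comp (Computable.const c)
      Computable.id)
  · rw [ofNat_encode, Code.eval_curry, hc]
    show t x n ∈ Part.some (t (Nat.pair x n).unpair.1 (Nat.pair x n).unpair.2)
    rw [Nat.unpair_pair]
    exact Part.mem_some _

theorem main {Q : (ℕ → ℕ) → Prop} (hQ : IsPi3 (IndexSet Q)) {g : ℕ → ℕ} (hg : Computable g)
    (hQg : ∀ t : ℕ → ℕ, Computable t → StrictMono t → (∀ n, g n ≤ t n) → Q t) :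
    (∀ (A : Type) [Finite A],
      IsPi3 (IndexSet fun t => Q t ∧ NTIMEPol A t = coNTIMEPol A t)) ∧
    ∀ S : Set ℕ, IsPi3 S → ∃ f : ℕ → ℕ, Computable f ∧
      ∀ (A : Type) [Finite A] [Nonempty A] (x : ℕ),
        (x ∈ S ↔ f x ∈ IndexSet fun t => Q t ∧ NTIMEPol A t = coNTIMEPol A t) ∧
        ∃ t : ℕ → ℕ, (∀ n, t n ∈ (ofNat Code (f x)).eval n) ∧ StrictMono t ∧ (∀ n, g n ≤ t n) ∧
          (x ∈ S → NTIMEPol A t = DTIMEPol A t) ∧
          (x ∉ S → ∃ L ∈ DTIMEPol A t, Lᶜ ∉ NTIMEPol A t) := by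
  constructor
  · intro A _
    have h := hQ.inter (isPi3_closed A)
    have heq : (IndexSet fun t => Q t ∧ NTIMEPol A t = coNTIMEPol A t) =
        IndexSet Q ∩ (IndexSet fun t => NTIMEPol A t = coNTIMEPol A t) := by
      ext x
      constructor
      · rintro ⟨t, h1, h2, h3⟩
        exact ⟨⟨t, h1, h2⟩, ⟨t, h1, h3⟩⟩
      · rintro ⟨⟨t, h1, h2⟩, ⟨t', h1', h3⟩⟩
        have : t' = t := funext fun n => Part.mem_unique (h1' n) (h1 n)
        subst this
        exact ⟨t', h1, h2, h3⟩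
    rw [heq]
    exact h
  · intro S hS
    obtain ⟨t, h1, h2, h3, h4⟩ := exists_family hg hS
    obtain ⟨f, hf, hft⟩ := exists_codes h1
    refine ⟨f, hf, fun A _ _ x => ⟨⟨fun hx => ?_, ?_⟩, t x, hft x, h2 x, h3 x, ?_, (h4 A x).2⟩⟩
    · exact ⟨t x, hft x, hQg _ (h1.comp (Computable.const x) Computable.id) (h2 x) (h3 x),
        ((h4 A x).1 hx).1⟩
    · rintro ⟨t', h5, -, h6⟩
      have : t' = t x := funext fun n => Part.mem_unique (h5 n) (hft x n)
      subst this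
      by_contra hx
      obtain ⟨L, hL, hL'⟩ := (h4 A x).2 hx
      exact hL' (closed_iff.1 h6 L (DTIMEPol_subset _ _ hL))
    · exact fun hx => ((h4 A x).1 hx).2

end Pool.Agent.H83.NT
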