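import Pool.Agent.H83.NT.Pi3B

/-!
The properties of the time bounds `t x`.
-/

namespace Pool.Agent.H83.NT

open Function Pool.Agent.Lead.NTM Encodable Denumerable
open Nat.Partrec (Code)

attribute [local irreducible] T words accB hh F gs ev bad win rq V0 V1 mkp
  FF kw elig frst DD stop selB sel

theorem DTIMEPol_subset (A : Type) (t : ℕ → ℕ) : DTIMEPol A t ⊆ NTIMEPol A t := by
  rintro L ⟨M, p, -, h1, h2⟩
  exact ⟨M, p, h1, h2⟩

theorem finite_words {A : Type} [Finite A] (n : ℕ) : Set.Finite {w : List A | w.length < n} :=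
  List.finite_length_lt A n

/-- A bound for the acceptance times of the words of length `< n`. -/
theorem exists_time_bound {A : Type} [Finite A] (M : Machine A) (n : ℕ) :
    ∃ K, ∀ w : List A, w.length < n → Accepts M w → ∃ s ≤ K, AcceptsIn M w s := by
  classical
  have hfin := finite_words (A := A) n
  have h1 : ∀ w : List A, ∃ K, Accepts M w → ∃ s ≤ K, AcceptsIn M w s := by
    intro w
    by_cases h : Accepts M w
    · obtain ⟨s, hs⟩ := h
      exact ⟨s, fun _ => ⟨s, le_rfl, hs⟩⟩
    · exact ⟨0, fun h' => absurd h' h⟩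
  choose K hK using h1
  refine ⟨hfin.toFinset.sup K, fun w hw hM => ?_⟩
  obtain ⟨s, h2, h3⟩ := hK w hM
  exact ⟨s, h2.trans (Finset.le_sup (f := K) (by simpa using hw)), h3⟩

theorem mem_DTIMEPol {A : Type} [Finite A] {L : Set (List A)} {t : ℕ → ℕ} {M : Machine A}
    (hM : Deterministic M) (hL : ∀ w, w ∈ L ↔ Accepts M w) {n0 : ℕ}
    (ht : ∀ w ∈ L, n0 ≤ w.length → ∀ s, AcceptsIn M w s → s ≤ t w.length) : L ∈ DTIMEPol A t := by
  obtain ⟨K, hK⟩ := exists_time_bound M n0
  refine ⟨M, Polynomial.X + Polynomial.C K, hM, hL, fun w hw => ?_⟩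
  simp only [Polynomial.eval_add, Polynomial.eval_X, Polynomial.eval_C]
  rcases Nat.lt_or_ge w.length n0 with h | h
  · obtain ⟨s, h1, h2⟩ := hK w h ((hL w).1 hw)
    exact ⟨s, by omega, h2⟩
  · obtain ⟨s, hs⟩ := (hL w).1 hw
    exact ⟨s, by have := ht w hw h s hs; omega, hs⟩

/-- The index of a requirement. -/
def mke (m : ℕ) (c : Code) (d : ℕ) : ℕ := Nat.pair m (Nat.pair (encode c) d)

theorem eM_mke (m : ℕ) (c : Code) (d : ℕ) : eM (mke m c d) = m := by simp [eM, mke]

theorem eC_mke (m : ℕ) (c : Code) (d : ℕ) : eC (mke m c d) = c := by simp [eC, mke]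

theorem eD_mke (m : ℕ) (c : Code) (d : ℕ) : eD (mke m c d) = d := by simp [eD, mke]

attribute [local irreducible] mke eM eC eD Pl

theorem zw_eq (u : List ℕ) : zw u = List.replicate u.length 0 := by
  unfold zw
  rw [List.map_const']

/-- Codings of the letters. -/
structure Coding (A : Type) (m : ℕ) where
  e : A → ℕ
  inj : Injective e
  lt : ∀ a, e a < m
  surj : ∀ i < m, ∃ a, e a = i

theorem exists_coding (A : Type) [Finite A] : ∃ m, Nonempty (Coding A m) := by
  obtain ⟨m, ⟨f⟩⟩ := Finite.exists_equiv_fin A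
  exact ⟨m, ⟨⟨fun a => f a, fun a b h => f.injective (Fin.ext h), fun a => (f a).2,
    fun i hi => ⟨f.symm ⟨i, hi⟩, by simp⟩⟩⟩⟩

theorem Coding.exists_word {A : Type} {m : ℕ} (E : Coding A m) {n : ℕ} {u : List ℕ}
    (hu : u ∈ words m n) : ∃ w : List A, w.length = n ∧ w.map E.e = u := by
  rw [mem_words] at hu
  obtain ⟨h1, h2⟩ := hu
  induction u generalizing n with
  | nil => exact ⟨[], by simpa using h1, rfl⟩
  | cons a u ih =>
    obtain ⟨w, h3, h4⟩ := ih (n := u.length) rfl (fun b hb => h2 b (List.mem_cons_of_mem _ hb))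
    obtain ⟨b, hb⟩ := E.surj a (h2 a List.mem_cons_self)
    exact ⟨b :: w, by simp only [List.length_cons] at h1 ⊢; omega, by simp [hb, h4]⟩

theorem accB_iff_accepts {A : Type} {M : Machine A} {e : A → ℕ} {c : Code}
    (hc : ∀ w s, AcceptsIn M w s ↔ prEval c (Nat.pair (encode (w.map e)) s) = 1)
    {w : List A} {N : ℕ} : accB c (w.map e) N = true ↔ ∃ s ≤ N, AcceptsIn M w s := by
  rw [accB_iff]
  exact exists_congr fun s => and_congr_right fun _ => (hc w s).symm

variable (W : P3) {g : ℕ → ℕ} (hg : Computable g)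

/-- The positive case. -/
theorem closed_case {x : ℕ} (hx : x ∈ W.set) {A : Type} [Finite A] {L : Set (List A)}
    (hL : L ∈ NTIMEPol A (tt W hg x)) :
    L ∈ DTIMEPol A (tt W hg x) ∧ Lᶜ ∈ DTIMEPol A (tt W hg x) := by
  obtain ⟨M, p, hM, hp⟩ := hL
  obtain ⟨m, ⟨E⟩⟩ := exists_coding A
  obtain ⟨c, hc⟩ := exists_code M E.e E.inj
  obtain ⟨d, hd⟩ := exists_Pl p
  set i := mke m c d with hi
  have hiM : eM i = m := by rw [hi, eM_mke]
  have hiC : eC i = c := by rw [hi, eC_mke]
  have hiD : eD i = d := by rw [hi, eD_mke]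
  -- never eligible
  have hne : ∀ n, elig W hg i n = false := by
    intro n
    rw [Bool.eq_false_iff]
    intro hel
    obtain ⟨n', hn'⟩ := exists_frst W hg hel
    have h1 := tt_le_of_stop W hg (x := x) ((stop_iff W hg).2 (Or.inl hn'))
    obtain ⟨-, u, hu, hk⟩ := (elig_iff W hg).1 ((frst_iff W hg).1 hn').1
    rw [hiM] at hu
    obtain ⟨w, hw, rfl⟩ := E.exists_word hu
    rw [kw_iff, hiC, hiD] at hk
    obtain ⟨h2, h3⟩ := hk
    obtain ⟨s, -, hs⟩ := (accB_iff_accepts hc).1 h2
    obtain ⟨s', h4, h5⟩ := hp w ((hM w).2 ⟨s, hs⟩)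
    have h6 : accB c (w.map E.e) (Pl d (FF W hg i n')) = true := by
      refine (accB_iff_accepts hc).2 ⟨s', ?_, h5⟩
      rw [hw] at h4
      exact h4.trans ((hd _).trans (Pl_mono h1))
    rw [h3] at h6
    exact absurd h6 (by simp)
  obtain ⟨K, hK⟩ := exists_time_bound M i
  -- description of `L`
  have key : ∀ w, w ∈ L ↔ accB c (w.map E.e) (Pl d (FF W hg i w.length) + K) = true := by
    intro w
    constructor
    · intro hw
      rcases Nat.lt_or_ge w.length i with h | h
      · obtain ⟨s, h1, h2⟩ := hK w h ((hM w).1 hw)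
        exact (accB_iff_accepts hc).2 ⟨s, by omega, h2⟩
      · refine accB_mono (Nat.le_add_right _ _) ?_
        by_contra hacc
        have h1 := hne w.length
        rw [Bool.eq_false_iff] at h1
        apply h1
        rw [elig_iff]
        refine ⟨h, w.map E.e, ?_, ?_⟩
        · rw [hiM, mem_words]
          exact ⟨by simp, by simpa using fun a _ => E.lt a⟩
        · rw [kw_iff, hiC, hiD]
          refine ⟨?_, by simpa using hacc⟩
          obtain ⟨s, h2, h3⟩ := hp w hw
          exact (accB_iff_accepts hc).2 ⟨s, h2.trans ((hd _).trans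
            (Pl_mono (tt_le W hg x w.length))), h3⟩
    · intro h
      obtain ⟨s, -, hs⟩ := (accB_iff_accepts hc).1 h
      exact (hM w).2 ⟨s, hs⟩
  -- the machines
  have hP : ∀ a, E.e a < am (mkp i m 0 K) := by
    intro a
    rw [am_mkp]
    exact E.lt a
  have hV : ∀ w : List A, (VF W).V (mkp i m 0 K) (w.map E.e)
      (F (VF W) hg (ix (mkp i m 0 K)) w.length) =
        accB c (w.map E.e) (Pl d (FF W hg i w.length) + K) := by
    intro w
    rw [VF_zero, ix_mkp, hiC, hiD]
    unfold FF
    rfl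
  obtain ⟨n0, hn0⟩ := tt_large W hg x (mkp i m 0 K + 1)
  have hev : ∀ r, ∃ n1, ∀ n ≥ n1, ∀ k < r, ev W (x, k) n = false := by
    intro r
    induction r with
    | zero => exact ⟨0, fun n _ k hk => absurd hk (Nat.not_lt_zero k)⟩
    | succ r ih =>
      obtain ⟨n1, h1⟩ := ih
      obtain ⟨n2, h2⟩ := finite_events W (q := (x, r)) (hx r)
      refine ⟨max n1 n2, fun n hn k hk => ?_⟩
      rcases Nat.lt_succ_iff_lt_or_eq.1 hk with h3 | rfl
      · exact h1 n (le_trans (le_max_left _ _) hn) k h3
      · exact h2 n (le_trans (le_max_right _ _) hn)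
  obtain ⟨n1, hn1⟩ := hev (mkp i m 0 K + 1)
  have hlarge : ∀ n ≥ max n0 n1, FF W hg (mkp i m 0 K + 1) n ≤ tt W hg x n := by
    intro n hn
    refine hn0 n (le_trans (le_max_left _ _) hn) ?_
    rintro k hk ⟨h1, -⟩
    rw [win_iff] at h1
    rw [hn1 n (le_trans (le_max_right _ _) hn) k hk] at h1
    exact absurd h1.2.1 (by simp)
  have hlarge' : ∀ n ≥ max n0 n1, F (VF W) hg (mkp i m 0 K + 1) n ≤ tt W hg x n := by
    intro n hn
    have := hlarge n hn
    unfold FF at this
    exact this
  constructor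
  · obtain ⟨M1, h1, h2, h3⟩ := exists_machine (VF W) hg hP true
    refine mem_DTIMEPol h1 (fun w => ?_) (n0 := max n0 n1) fun w _ hw s hs => ?_
    · rw [key, h2, hV]
    · exact (h3 w s hs _ (Nat.lt_succ_self _)).trans (hlarge' _ hw)
  · obtain ⟨M1, h1, h2, h3⟩ := exists_machine (VF W) hg hP false
    refine mem_DTIMEPol h1 (fun w => ?_) (n0 := max n0 n1) fun w _ hw s hs => ?_
    · rw [Set.mem_compl_iff, key, h2, hV, Bool.not_eq_true]
    · exact (h3 w s hs _ (Nat.lt_succ_self _)).trans (hlarge' _ hw)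

/-- The negative case. -/
theorem nonclosed_case {x : ℕ} (hx : x ∉ W.set) (A : Type) [Finite A] [Nonempty A] :
    ∃ L ∈ DTIMEPol A (tt W hg x), Lᶜ ∉ NTIMEPol A (tt W hg x) := by
  classical
  have hx' : ∃ k, ¬ ∃ b, ∀ c, W.R x k b c = true := by
    by_contra h
    push Not at h
    exact hx fun a => (h a).imp fun b hb c => by simpa using hb c
  set k := Nat.find hx' with hk
  have hk1 : ¬ ∃ b, ∀ c, W.R x k b c = true := Nat.find_spec hx'
  have hk2 : ∀ k' < k, ∃ b, ∀ c, W.R x k' b c = true := fun k' hk' =>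
    not_not.1 (Nat.find_min hx' hk')
  have hev : ∀ r ≤ k, ∃ n1, ∀ n ≥ n1, ∀ k' < r, ev W (x, k') n = false := by
    intro r
    induction r with
    | zero => exact fun _ => ⟨0, fun n _ k hk => absurd hk (Nat.not_lt_zero k)⟩
    | succ r ih =>
      intro hr
      obtain ⟨n1, h1⟩ := ih (by omega)
      obtain ⟨n2, h2⟩ := finite_events W (q := (x, r)) (hk2 r (by omega))
      refine ⟨max n1 n2, fun n hn k hk => ?_⟩
      rcases Nat.lt_succ_iff_lt_or_eq.1 hk with h3 | rfl
      · exact h1 n (le_trans (le_max_left _ _) hn) k h3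
      · exact h2 n (le_trans (le_max_right _ _) hn)
  obtain ⟨n1, hn1⟩ := hev k le_rfl
  obtain ⟨m, ⟨E⟩⟩ := exists_coding A
  obtain ⟨a, ha⟩ : ∃ a, E.e a = 0 := by
    obtain ⟨b⟩ := ‹Nonempty A›
    exact E.surj 0 (by have := E.lt b; omega)
  set P := mkp k m 1 x with hPdef
  have hP : ∀ a, E.e a < am P := by
    intro a
    rw [hPdef, am_mkp]
    exact E.lt a
  have hV : ∀ w : List A, (VF W).V P (w.map E.e) (F (VF W) hg (ix P) w.length) = true →
      win W (x, k) w.length = true ∧ DD W hg (x, k) w.length = true := by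
    intro w hw
    rw [hPdef, VF_one, ix_mkp, Bool.and_eq_true, Bool.and_eq_true, decide_eq_true_eq,
      List.length_map] at hw
    obtain ⟨h1, h2, h3⟩ := hw
    refine ⟨h2, ?_⟩
    unfold DD
    have h4 : zr w.length = w.map E.e := by
      rw [h1, zr_eq, zw_eq, List.length_map]
    rw [h4]
    unfold FF
    exact h3
  have hV' : ∀ n, win W (x, k) n = true → DD W hg (x, k) n = true →
      (VF W).V P ((List.replicate n a).map E.e)
        (F (VF W) hg (ix P) (List.replicate n a).length) = true := by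
    intro n h1 h2
    rw [hPdef, VF_one, ix_mkp, Bool.and_eq_true, Bool.and_eq_true, decide_eq_true_eq,
      List.length_map, List.length_replicate]
    have h3 : (List.replicate n a).map E.e = zr n := by
      rw [zr_eq, List.map_replicate, ha]
    rw [h3]
    refine ⟨?_, h1, ?_⟩
    · unfold zw
      rw [zr_eq]
      simp
    · unfold DD FF at h2
      exact h2
  refine ⟨{w | (VF W).V P (w.map E.e) (F (VF W) hg (ix P) w.length) = true}, ?_, ?_⟩
  · obtain ⟨M1, h1, h2, h3⟩ := exists_machine (VF W) hg hP true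
    obtain ⟨n0, hn0⟩ := tt_large W hg x (P + 1)
    refine mem_DTIMEPol h1 (fun w => ?_) (n0 := n0) fun w hw hwn s hs => ?_
    · rw [h2]
      rfl
    · refine (h3 w s hs _ (Nat.lt_succ_self _)).trans ?_
      obtain ⟨h4, h5⟩ := hV w hw
      have h6 := hn0 w.length hwn (by
        rintro k' - ⟨h7, h8⟩
        have h9 := win_unique W h7 h4
        rw [h9, h5] at h8
        exact absurd h8 (by simp))
      unfold FF at h6
      exact h6
  · rintro ⟨M2, p, hM, hp⟩
    obtain ⟨c, hc⟩ := exists_code M2 E.e E.inj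
    obtain ⟨d, hd⟩ := exists_Pl p
    set j := mke 0 c d with hj
    obtain ⟨n, h1, h2⟩ := infinite_events W (q := (x, k)) hk1 (Nat.pair j (n1 + k))
    have h3 : n1 + k ≤ n := by
      refine (Nat.right_le_pair j (n1 + k)).trans ?_
      rw [← h1]
      exact gs_le W _ n
    have hrq : rq W (x, k) n = j := by
      unfold rq
      rw [h1, Nat.unpair_pair]
    have hwin : win W (x, k) n = true := by
      rw [win_iff]
      exact ⟨by simp only; omega, h2, fun k' hk' => hn1 n (by omega) k' hk'⟩
    have hzr : zr n = (List.replicate n a).map E.e := by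
      rw [zr_eq, List.map_replicate, ha]
    have hDD : DD W hg (x, k) n = accB c ((List.replicate n a).map E.e) (Pl d (FF W hg k n)) := by
      unfold DD Dv
      have hlen : (zr n).length = n := by rw [zr_eq, List.length_replicate]
      have hzz : zw (zr n) = zr n := by
        rw [zr_eq]
        unfold zw
        simp
      rw [hlen, hzz, hrq, hj, eC_mke, eD_mke, hzr]
    cases hDb : DD W hg (x, k) n with
    | true =>
      have h4 := hV' n hwin hDb
      have h5 : accB c ((List.replicate n a).map E.e) (Pl d (FF W hg k n)) = true := by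
        rw [← hDD, hDb]
      obtain ⟨s, -, hs⟩ := (accB_iff_accepts hc).1 h5
      have h6 := (hM (List.replicate n a)).2 ⟨s, hs⟩
      exact h6 h4
    | false =>
      have h4 : (List.replicate n a) ∈
          ({w | (VF W).V P (w.map E.e) (F (VF W) hg (ix P) w.length) = true} : Set (List A))ᶜ := by
        intro h5
        have h6 := (hV _ h5).2
        rw [List.length_replicate, hDb] at h6
        exact absurd h6 (by simp)
      obtain ⟨s, h5, h6⟩ := hp _ h4
      rw [List.length_replicate] at h5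
      have h7 := tt_le_of_stop W hg (x := x) ((stop_iff W hg).2 (Or.inr ⟨hwin, hDb⟩))
      have h8 : accB c ((List.replicate n a).map E.e) (Pl d (FF W hg k n)) = true :=
        (accB_iff_accepts hc).2 ⟨s, h5.trans ((hd _).trans (Pl_mono h7)), h6⟩
      rw [← hDD, hDb] at h8
      exact absurd h8 (by simp)

end Pool.Agent.H83.NT
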