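import Pool.Agent.Lead.NTM

/-!
Counter machines with a one-way read-only input, and their simulation by (deterministic)
multitape Turing machines, one step per instruction.
-/

namespace Pool.Agent.H83.NT

open Function Pool.Agent.Lead.NTM

/-- Instructions of a register machine with input alphabet `A`, states `σ`, counters `Fin R`. -/
inductive RInstr (A σ : Type) (R : ℕ) : Type
  | halt : RInstr A σ R
  | goto (q : σ) : RInstr A σ R
  | inc (r : Fin R) (q : σ) : RInstr A σ R
  | jz (r : Fin R) (q₀ q₁ : σ) : RInstr A σ R
  | read (f : Option A → σ) : RInstr A σ R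

/-- Configurations: state, counters, position on the input. -/
structure RConf (σ : Type) (R : ℕ) : Type where
  st : σ
  ctr : Fin R → ℕ
  hd : ℕ

variable {A σ : Type} {R : ℕ}

/-- One step of a register machine on the input `w`. -/
def rstep (ins : σ → RInstr A σ R) (w : List A) (c : RConf σ R) : RConf σ R :=
  match ins c.st with
  | .halt => c
  | .goto q => ⟨q, c.ctr, c.hd⟩
  | .inc r q => ⟨q, update c.ctr r (c.ctr r + 1), c.hd⟩
  | .jz r q₀ q₁ => if c.ctr r = 0 then ⟨q₀, c.ctr, c.hd⟩
      else ⟨q₁, update c.ctr r (c.ctr r - 1), c.hd⟩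
  | .read f => match w[c.hd]? with
      | none => ⟨f none, c.ctr, c.hd⟩
      | some a => ⟨f (some a), c.ctr, c.hd + 1⟩

/-- `Run ins w c k c'`: from `c` the machine makes `k` steps, not halting before, and reaches
`c'`. -/
def Run (ins : σ → RInstr A σ R) (w : List A) (c : RConf σ R) (k : ℕ) (c' : RConf σ R) : Prop :=
  (rstep ins w)^[k] c = c' ∧ ∀ j < k, ins ((rstep ins w)^[j] c).st ≠ .halt

theorem Run.refl (ins : σ → RInstr A σ R) (w : List A) (c : RConf σ R) : Run ins w c 0 c :=
  ⟨rfl, fun j hj => absurd hj (Nat.not_lt_zero j)⟩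

theorem Run.trans {ins : σ → RInstr A σ R} {w : List A} {c c' c'' : RConf σ R} {k l : ℕ}
    (h : Run ins w c k c') (h' : Run ins w c' l c'') : Run ins w c (k + l) c'' := by
  refine ⟨?_, fun j hj => ?_⟩
  · rw [Nat.add_comm, iterate_add_apply, h.1, h'.1]
  · by_cases hjk : j < k
    · exact h.2 j hjk
    · obtain ⟨i, rfl⟩ := Nat.exists_eq_add_of_le (not_lt.1 hjk)
      rw [Nat.add_comm, iterate_add_apply, h.1]
      exact h'.2 i (by omega)

theorem Run.one {ins : σ → RInstr A σ R} {w : List A} {c c' : RConf σ R}
    (h : rstep ins w c = c') (hn : ins c.st ≠ .halt) : Run ins w c 1 c' := by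
  refine ⟨by simpa using h, fun j hj => ?_⟩
  obtain rfl : j = 0 := by omega
  exact hn

theorem Run.cast' {ins : σ → RInstr A σ R} {w : List A} {c c' c'' : RConf σ R} {k l : ℕ}
    (h : Run ins w c k c') (e : k = l) (e' : c' = c'') : Run ins w c l c'' := e' ▸ e ▸ h

theorem Run.cast {ins : σ → RInstr A σ R} {w : List A} {c c' : RConf σ R} {k l : ℕ}
    (h : Run ins w c k c') (e : k = l) : Run ins w c l c' := e ▸ h

/-- The transition function of the Turing machine of a register machine. Tape `0` is the input
tape; the counter `r` is the position of the head of tape `r + 1`, whose cell `0` carries a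
marker. -/
def rδ (ins : σ → RInstr A σ R) (q₀ : σ) (q : Option σ) (x : Fin (R + 1) → Option (A ⊕ Unit)) :
    Set (Option σ × (Fin (R + 1) → Option (A ⊕ Unit)) × (Fin (R + 1) → Move)) :=
  match q with
  | none => {(some q₀, fun i => if i = 0 then x 0 else some (Sum.inr ()), fun _ => .stay)}
  | some s => match ins s with
    | .halt => ∅
    | .goto q => {(some q, x, fun _ => .stay)}
    | .inc r q => {(some q, x, fun i => if i = r.succ then .right else .stay)}
    | .jz r q₀ q₁ => {p | (x r.succ = some (Sum.inr ()) ∧ p = (some q₀, x, fun _ => .stay)) ∨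
        (x r.succ ≠ some (Sum.inr ()) ∧
          p = (some q₁, x, fun i => if i = r.succ then .left else .stay))}
    | .read f => match x 0 with
      | none => {(some (f none), x, fun _ => .stay)}
      | some (Sum.inl a) => {(some (f (some a)), x, fun i => if i = 0 then .right else .stay)}
      | some (Sum.inr _) => ∅

/-- The Turing machine of a register machine. -/
def toMachine [Finite σ] (ins : σ → RInstr A σ R) (q₀ : σ) : Machine A where
  k := R
  Q := Option σ
  finQ := inferInstance
  G := Unit
  finG := inferInstance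
  start := none
  accepting := {q | ∃ s, q = some s ∧ ins s = .halt}
  δ := rδ ins q₀

/-- The tapes during the simulation. -/
def tapes (R : ℕ) (w : List A) : Fin (R + 1) → ℤ → Option (A ⊕ Unit) :=
  fun i => if i = 0 then wordTape w else fun z => if z = 0 then some (Sum.inr ()) else none

/-- The head positions during the simulation. -/
def heads (c : RConf σ R) : Fin (R + 1) → ℤ :=
  fun i => Fin.cases (c.hd : ℤ) (fun r => (c.ctr r : ℤ)) i

theorem tapes_head_zero (w : List A) (c : RConf σ R) :
    tapes R w 0 (heads c 0) = (w[c.hd]?).map Sum.inl := by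
  simp [tapes, heads, wordTape]

theorem tapes_head_succ (w : List A) (c : RConf σ R) (r : Fin R) :
    tapes R w r.succ (heads c r.succ) = if c.ctr r = 0 then some (Sum.inr ()) else none := by
  simp [tapes, heads, Fin.succ_ne_zero]

variable [Finite σ]

/-- The encoding of configurations. -/
def encC (ins : σ → RInstr A σ R) (q₀ : σ) (w : List A) (c : RConf σ R) :
    Config (toMachine ins q₀) where
  state := some c.st
  tape := tapes R w
  pos := heads c

theorem step_start_iff {ins : σ → RInstr A σ R} {q₀ : σ} {w : List A}
    {c' : Config (toMachine ins q₀)} :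
    Step (toMachine ins q₀) (startConfig (toMachine ins q₀) w) c' ↔
      ∃ r ∈ rδ ins q₀ none (fun i : Fin (R + 1) =>
          (if i = 0 then wordTape w else fun _ => none : ℤ → Option (A ⊕ Unit)) 0),
        c'.state = r.1 ∧
        c'.tape = (fun i : Fin (R + 1) => update
          ((if i = 0 then wordTape w else fun _ => none : ℤ → Option (A ⊕ Unit))) (0 : ℤ)
          (r.2.1 i)) ∧
        c'.pos = (fun i : Fin (R + 1) => (0 : ℤ) + (r.2.2 i).toInt) := Iff.rfl

theorem step_start {ins : σ → RInstr A σ R} {q₀ : σ} {w : List A}
    {c' : Config (toMachine ins q₀)} :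
    Step (toMachine ins q₀) (startConfig (toMachine ins q₀) w) c' ↔
      c' = encC ins q₀ w ⟨q₀, fun _ => 0, 0⟩ := by
  have htape : (fun i : Fin (R + 1) => update
      ((if i = 0 then wordTape w else fun _ => none : ℤ → Option (A ⊕ Unit))) (0 : ℤ)
      (if i = 0 then (wordTape w 0 : Option (A ⊕ Unit)) else some (Sum.inr ()))) = tapes R w := by
    funext i z
    unfold tapes
    by_cases hi : i = 0
    · subst hi
      simp
    · simp only [hi, if_false]
      by_cases hz : z = 0
      · subst hz; simp
      · simp [hz]
  have hhead : (fun _ : Fin (R + 1) => (0 : ℤ) + Move.stay.toInt) =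
      heads (⟨q₀, fun _ => 0, 0⟩ : RConf σ R) := by
    funext i
    unfold heads
    refine Fin.cases ?_ (fun r => ?_) i <;> simp [Move.toInt]
  rw [step_start_iff]
  constructor
  · rintro ⟨r, hr, h1, h2, h3⟩
    have hr' : r = (some q₀, fun i => if i = 0 then (wordTape w 0 : Option (A ⊕ Unit))
      else some (Sum.inr ()), fun _ => .stay) := hr
    subst hr'
    obtain ⟨st, tp, ps⟩ := c'
    simp only at h1 h2 h3
    unfold encC
    congr 1
    · rw [h2]; exact htape
    · rw [h3]; exact hhead
  · rintro rfl
    refine ⟨(some q₀, fun i => if i = 0 then (wordTape w 0 : Option (A ⊕ Unit))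
      else some (Sum.inr ()), fun _ => .stay), ?_, rfl, ?_, ?_⟩
    · exact Set.mem_singleton _
    · exact htape.symm
    · exact hhead.symm

theorem step_enc_iff {ins : σ → RInstr A σ R} {q₀ : σ} {w : List A} {c : RConf σ R}
    {c' : Config (toMachine ins q₀)} :
    Step (toMachine ins q₀) (encC ins q₀ w c) c' ↔
      ∃ r ∈ rδ ins q₀ (some c.st) (fun i => tapes R w i (heads c i)),
        c'.state = r.1 ∧
        c'.tape = (fun i : Fin (R + 1) => update (tapes R w i) (heads c i) (r.2.1 i)) ∧
        c'.pos = (fun i : Fin (R + 1) => heads c i + (r.2.2 i).toInt) := Iff.rfl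

/-- A deterministic step that leaves the tapes unchanged. -/
theorem step_of_unchanged {ins : σ → RInstr A σ R} {q₀ : σ} {w : List A} {c : RConf σ R}
    {q' : σ} {mv : Fin (R + 1) → Move} {c₁ : RConf σ R}
    (hδ : rδ ins q₀ (some c.st) (fun i => tapes R w i (heads c i)) =
      {(some q', fun i => tapes R w i (heads c i), mv)})
    (hq : c₁.st = q') (hh : ∀ i, heads c₁ i = heads c i + (mv i).toInt)
    (c' : Config (toMachine ins q₀)) :
    Step (toMachine ins q₀) (encC ins q₀ w c) c' ↔ c' = encC ins q₀ w c₁ := by
  subst hq
  have htape : (fun i : Fin (R + 1) => update (tapes R w i) (heads c i)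
      (tapes R w i (heads c i))) = tapes R w := by
    funext i
    exact update_eq_self _ _
  have hhead : (fun i : Fin (R + 1) => heads c i + (mv i).toInt) = heads c₁ := by
    funext i
    exact (hh i).symm
  rw [step_enc_iff, hδ]
  constructor
  · rintro ⟨r, hr, h1, h2, h3⟩
    rw [Set.mem_singleton_iff] at hr
    subst hr
    obtain ⟨st, tp, ps⟩ := c'
    simp only at h1 h2 h3
    unfold encC
    congr 1
    · rw [h2]; exact htape
    · rw [h3]; exact hhead
  · rintro rfl
    exact ⟨(some c₁.st, fun i => tapes R w i (heads c i), mv), Set.mem_singleton _, rfl,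
      htape.symm, hhead.symm⟩

theorem step_enc {ins : σ → RInstr A σ R} {q₀ : σ} {w : List A} {c : RConf σ R}
    (hn : ins c.st ≠ .halt) (c' : Config (toMachine ins q₀)) :
    Step (toMachine ins q₀) (encC ins q₀ w c) c' ↔ c' = encC ins q₀ w (rstep ins w c) := by
  unfold rstep
  cases h : ins c.st with
  | halt => exact absurd h hn
  | goto q =>
    refine step_of_unchanged (q' := q) (mv := fun _ => .stay) ?_ rfl ?_ c'
    · simp only [rδ, h]
    · intro i
      simp only [Move.toInt, add_zero]
      rfl
  | inc r q =>
    refine step_of_unchanged (q' := q) (mv := fun i => if i = r.succ then .right else .stay)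
      ?_ rfl ?_ c'
    · simp only [rδ, h]
    · intro i
      refine Fin.cases ?_ (fun r' => ?_) i
      · simp [heads, Move.toInt, (Fin.succ_ne_zero r).symm]
      · by_cases hr : r' = r
        · subst hr
          simp [heads, Move.toInt]
        · simp [heads, Move.toInt, hr]
  | jz r q₁ q₂ =>
    by_cases hz : c.ctr r = 0
    · refine step_of_unchanged (q' := q₁) (mv := fun _ => .stay) ?_ (by simp [hz]) ?_ c'
      · have hx := tapes_head_succ w c r
        rw [if_pos hz] at hx
        simp only [rδ, h]
        ext p
        simp [hx]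
      · intro i
        simp [Move.toInt, hz, heads]
    · refine step_of_unchanged (q' := q₂)
        (mv := fun i => if i = r.succ then .left else .stay) ?_ (by simp [hz]) ?_ c'
      · have hx := tapes_head_succ w c r
        rw [if_neg hz] at hx
        simp only [rδ, h]
        ext p
        simp [hx]
      · intro i
        refine Fin.cases ?_ (fun r' => ?_) i
        · simp [heads, Move.toInt, (Fin.succ_ne_zero r).symm, hz]
        · by_cases hr : r' = r
          · subst hr
            have h1 : ((c.ctr r' - 1 : ℕ) : ℤ) = (c.ctr r' : ℤ) - 1 := by omega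
            simp [heads, Move.toInt, hz, h1]
            ring
          · simp [heads, Move.toInt, hz, hr]
  | read f =>
    rcases hw : w[c.hd]? with _ | a
    · refine step_of_unchanged (q' := f none) (mv := fun _ => .stay) ?_ rfl ?_ c'
      · have hx := tapes_head_zero w c
        rw [hw] at hx
        simp only [rδ, h]
        rw [hx]
        rfl
      · intro i
        simp only [Move.toInt, add_zero]
        rfl
    · refine step_of_unchanged (q' := f (some a))
        (mv := fun i => if i = 0 then .right else .stay) ?_ rfl ?_ c'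
      · have hx := tapes_head_zero w c
        rw [hw] at hx
        simp only [rδ, h]
        rw [hx]
        rfl
      · intro i
        refine Fin.cases ?_ (fun r' => ?_) i
        · simp [heads, Move.toInt]
        · simp [heads, Move.toInt, Fin.succ_ne_zero]

theorem not_step_enc {ins : σ → RInstr A σ R} {q₀ : σ} {w : List A} {c : RConf σ R}
    (h : ins c.st = .halt) (c' : Config (toMachine ins q₀)) :
    ¬ Step (toMachine ins q₀) (encC ins q₀ w c) c' := by
  rw [step_enc_iff]
  rintro ⟨r, hr, -⟩
  simp only [rδ, h] at hr
  exact hr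

/-- Acceptance by the Turing machine. -/
theorem acceptsIn_toMachine {ins : σ → RInstr A σ R} {q₀ : σ} {w : List A} {s : ℕ} :
    AcceptsIn (toMachine ins q₀) w s ↔ ∃ i c', s = i + 1 ∧
      Run ins w ⟨q₀, fun _ => 0, 0⟩ i c' ∧ ins c'.st = .halt := by
  constructor
  · rintro ⟨c, h0, hs, ha⟩
    cases s with
    | zero =>
      rw [h0] at ha
      obtain ⟨s, hs, -⟩ := ha
      exact absurd hs (by simp [startConfig, toMachine])
    | succ i =>
      have key : ∀ j ≤ i, c (j + 1) = encC ins q₀ w ((rstep ins w)^[j] ⟨q₀, fun _ => 0, 0⟩) ∧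
          ∀ l < j, ins ((rstep ins w)^[l] ⟨q₀, fun _ => 0, 0⟩).st ≠ .halt := by
        intro j
        induction j with
        | zero =>
          intro _
          have := hs 0 (by omega)
          rw [h0, step_start] at this
          exact ⟨this, fun l hl => absurd hl (Nat.not_lt_zero l)⟩
        | succ j ih =>
          intro hj
          obtain ⟨ih1, ih2⟩ := ih (by omega)
          have h2 := hs (j + 1) (by omega)
          rw [ih1] at h2
          have h3 : ins ((rstep ins w)^[j] ⟨q₀, fun _ => 0, 0⟩).st ≠ .halt :=
            fun h3 => not_step_enc h3 _ h2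
          rw [step_enc h3] at h2
          refine ⟨by rw [h2, iterate_succ_apply'], fun l hl => ?_⟩
          rcases Nat.lt_succ_iff_lt_or_eq.1 hl with hl | rfl
          · exact ih2 l hl
          · exact h3
      obtain ⟨k1, k2⟩ := key i le_rfl
      refine ⟨i, _, rfl, ⟨rfl, k2⟩, ?_⟩
      rw [k1] at ha
      obtain ⟨s, hs, hs2⟩ := ha
      have : ((rstep ins w)^[i] ⟨q₀, fun _ => 0, 0⟩).st = s := Option.some.inj hs
      rw [this]
      exact hs2
  · rintro ⟨i, c', rfl, ⟨h1, h2⟩, h3⟩
    refine ⟨fun j => match j with
      | 0 => startConfig _ w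
      | j + 1 => encC ins q₀ w ((rstep ins w)^[j] ⟨q₀, fun _ => 0, 0⟩), rfl, ?_, ?_⟩
    · intro j hj
      cases j with
      | zero => exact step_start.2 rfl
      | succ j =>
        show Step _ (encC ins q₀ w ((rstep ins w)^[j] ⟨q₀, fun _ => 0, 0⟩))
          (encC ins q₀ w ((rstep ins w)^[j + 1] ⟨q₀, fun _ => 0, 0⟩))
        rw [step_enc (h2 j (by omega)), iterate_succ_apply']
    · show (encC ins q₀ w ((rstep ins w)^[i] ⟨q₀, fun _ => 0, 0⟩)).state ∈ _
      rw [h1]
      exact ⟨c'.st, rfl, h3⟩

/-- The Turing machine is deterministic. -/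
theorem rδ_subsingleton (ins : σ → RInstr A σ R) (q₀ : σ) (q : Option σ)
    (x : Fin (R + 1) → Option (A ⊕ Unit)) : (rδ ins q₀ q x).Subsingleton := by
  rcases q with _ | s
  · exact Set.subsingleton_singleton
  · simp only [rδ]
    cases ins s with
    | halt => exact Set.subsingleton_empty
    | goto q => exact Set.subsingleton_singleton
    | inc r q => exact Set.subsingleton_singleton
    | jz r q₁ q₂ =>
      rintro p (⟨h1, rfl⟩ | ⟨h1, rfl⟩) p' (⟨h2, rfl⟩ | ⟨h2, rfl⟩)
      · rfl
      · exact absurd h1 h2
      · exact absurd h2 h1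
      · rfl
    | read f =>
      rcases x 0 with _ | (a | u)
      · exact Set.subsingleton_singleton
      · exact Set.subsingleton_singleton
      · exact Set.subsingleton_empty

end Pool.Agent.H83.NT
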