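import Pool.Agent.H83.NT.CM2
import Pool.Agent.H83.NT.RM

/-!
The Turing machine that converts its input word into a number (in a counter), writes a constant
in another counter, and runs a given counter machine. Its acceptance time is computed exactly.
-/

namespace Pool.Agent.H83.NT

open Function Pool.Agent.Lead.NTM

/-- Effect of a letter on the accumulator and number of steps used for it. -/
def ph (B : ℕ) (s : ℕ × ℕ) (a : ℕ) : ℕ × ℕ :=
  (s.1 * B + (a + 1), s.2 + ((3 * B + 2) * s.1 + a + 5))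

/-- The number coding a word and the number of steps used to compute it. -/
def phase (B : ℕ) (u : List ℕ) : ℕ × ℕ := u.foldl (ph B) (0, 0)

/-- States. -/
inductive ASt (A : Type) (y B N : ℕ) : Type
  | ini (j : Fin (y + 1)) : ASt A y B N
  | rd : ASt A y B N
  | tst (a : A) : ASt A y B N
  | mul (a : A) (i : Fin (B + 1)) : ASt A y B N
  | bk (a : A) : ASt A y B N
  | bk2 (a : A) : ASt A y B N
  | add (a : A) (i : Fin (B + 1)) : ASt A y B N
  | run (q : Fin (N + 1)) : ASt A y B N

instance {A : Type} [Finite A] {y B N : ℕ} : Finite (ASt A y B N) := by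
  let f : ASt A y B N → Fin (y + 1) ⊕ Unit ⊕ A ⊕ (A × Fin (B + 1)) ⊕ A ⊕ A ⊕
      (A × Fin (B + 1)) ⊕ Fin (N + 1) := fun s => match s with
    | .ini j => Sum.inl j
    | .rd => Sum.inr (Sum.inl ())
    | .tst a => Sum.inr (Sum.inr (Sum.inl a))
    | .mul a i => Sum.inr (Sum.inr (Sum.inr (Sum.inl (a, i))))
    | .bk a => Sum.inr (Sum.inr (Sum.inr (Sum.inr (Sum.inl a))))
    | .bk2 a => Sum.inr (Sum.inr (Sum.inr (Sum.inr (Sum.inr (Sum.inl a)))))
    | .add a i => Sum.inr (Sum.inr (Sum.inr (Sum.inr (Sum.inr (Sum.inr (Sum.inl (a, i)))))))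
    | .run q => Sum.inr (Sum.inr (Sum.inr (Sum.inr (Sum.inr (Sum.inr (Sum.inr q))))))
  refine Finite.of_injective f ?_
  intro s t h
  cases s <;> cases t <;> simp_all [f]

variable {A : Type}

/-- The register machine. -/
def ains (C : CM) (e : A → ℕ) (y B : ℕ) : ASt A y B C.N → RInstr A (ASt A y B C.N) (C.R + 3)
  | .ini j => if (j : ℕ) = 0 then .goto .rd else .inc (Fin.castSucc 1) (.ini (Fin.ofNat _ (j - 1)))
  | .rd => .read fun o => match o with
      | none => .run C.q₀
      | some a => .tst a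
  | .tst a => .jz (Fin.castSucc 0) (.bk a) (.mul a (Fin.ofNat _ B))
  | .mul a i => if (i : ℕ) = 0 then .goto (.tst a)
      else .inc (Fin.last _) (.mul a (Fin.ofNat _ (i - 1)))
  | .bk a => .jz (Fin.last _) (.add a (Fin.ofNat _ (e a + 1))) (.bk2 a)
  | .bk2 a => .inc (Fin.castSucc 0) (.bk a)
  | .add a i => if (i : ℕ) = 0 then .goto .rd
      else .inc (Fin.castSucc 0) (.add a (Fin.ofNat _ (i - 1)))
  | .run q => if C.kind q = 0 then .halt
      else if C.kind q = 1 then .goto (.run (C.nx₀ q))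
      else if C.kind q = 2 then .inc (Fin.castSucc (C.reg q)) (.run (C.nx₀ q))
      else .jz (Fin.castSucc (C.reg q)) (.run (C.nx₀ q)) (.run (C.nx₁ q))

/-- Counters of the register machine from those of the counter machine and the auxiliary one. -/
def emb {R : ℕ} (v : Fin (R + 2) → ℕ) (z : ℕ) : Fin (R + 3) → ℕ := Fin.snoc (α := fun _ => ℕ) v z

theorem emb_castSucc {R : ℕ} (v : Fin (R + 2) → ℕ) (z : ℕ) (i : Fin (R + 2)) :
    emb v z (Fin.castSucc i) = v i := Fin.snoc_castSucc (α := fun _ => ℕ) z v i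

theorem emb_last {R : ℕ} (v : Fin (R + 2) → ℕ) (z : ℕ) : emb v z (Fin.last (R + 2)) = z :=
  Fin.snoc_last (α := fun _ => ℕ) z v

theorem update_emb_castSucc {R : ℕ} (v : Fin (R + 2) → ℕ) (z : ℕ) (i : Fin (R + 2)) (x : ℕ) :
    update (emb v z) (Fin.castSucc i) x = emb (update v i x) z :=
  (Fin.snoc_update (α := fun _ => ℕ) z v i x).symm

theorem update_emb_last {R : ℕ} (v : Fin (R + 2) → ℕ) (z x : ℕ) :
    update (emb v z) (Fin.last (R + 2)) x = emb v x :=
  Fin.update_snoc_last (α := fun _ => ℕ) z v x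

/-- Start counters. -/
def sv (R x y : ℕ) : Fin (R + 2) → ℕ := fun i => if i = 0 then x else if i = 1 then y else 0

theorem sv_zero (R x y : ℕ) : sv R x y 0 = x := by simp [sv]

theorem sv_one (R x y : ℕ) : sv R x y 1 = y := by simp [sv]

theorem update_sv_zero (R x y z : ℕ) : update (sv R x y) 0 z = sv R z y := by
  funext i
  by_cases h : i = 0
  · subst h; simp [sv]
  · rw [update_of_ne h]; simp [sv, h]

theorem update_sv_one (R x y z : ℕ) : update (sv R x y) 1 z = sv R x z := by
  funext i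
  by_cases h : i = 1
  · subst h; simp [sv]
  · rw [update_of_ne h]; simp [sv, h]

/-- `n` increments. -/
theorem run_incs {σ : Type} {R : ℕ} {ins : σ → RInstr A σ R} {w : List A} {r : Fin R} {q' : σ}
    (g : ℕ → σ) (h0 : ins (g 0) = .goto q') :
    ∀ (n : ℕ), (∀ i < n, ins (g (i + 1)) = .inc r (g i)) → ∀ (ctr : Fin R → ℕ) (hd : ℕ),
      Run ins w ⟨g n, ctr, hd⟩ (n + 1) ⟨q', update ctr r (ctr r + n), hd⟩ := by
  intro n
  induction n with
  | zero =>
    intro _ ctr hd
    refine Run.one ?_ (by simp [h0])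
    simp [rstep, h0]
  | succ n ih =>
    intro hg ctr hd
    have h1 : Run ins w ⟨g (n + 1), ctr, hd⟩ 1 ⟨g n, update ctr r (ctr r + 1), hd⟩ := by
      refine Run.one ?_ (by simp [hg n (by omega)])
      simp [rstep, hg n (by omega)]
    have h2 := ih (fun i hi => hg i (by omega)) (update ctr r (ctr r + 1)) hd
    rw [update_idem, update_self] at h2
    exact (h1.trans h2).cast' (by omega) (by rw [show ctr r + 1 + n = ctr r + (n + 1) by omega])

theorem Run.cancel {σ : Type} {R : ℕ} {ins : σ → RInstr A σ R} {w : List A}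
    {c c' d : RConf σ R} {k i : ℕ} (h : Run ins w c k c') (h' : Run ins w c i d)
    (hd : ins d.st = .halt) : ∃ i', i = k + i' ∧ Run ins w c' i' d := by
  have hki : k ≤ i := by
    by_contra hki
    have := h.2 i (by omega)
    rw [h'.1] at this
    exact this hd
  obtain ⟨i', rfl⟩ := Nat.exists_eq_add_of_le hki
  refine ⟨i', rfl, ?_, fun j hj => ?_⟩
  · rw [← h'.1, ← h.1, ← iterate_add_apply, Nat.add_comm]
  · rw [← h.1, ← iterate_add_apply, Nat.add_comm]
    exact h'.2 (k + j) (by omega)

section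

variable {C : CM} {e : A → ℕ} {y B : ℕ} {w : List A}

theorem run_tst (a : A) (hd v : ℕ) : ∀ x z : ℕ,
    Run (ains C e y B) w ⟨.tst a, emb (sv C.R x v) z, hd⟩ (x * (B + 2) + 1)
      ⟨.bk a, emb (sv C.R 0 v) (z + B * x), hd⟩ := by
  intro x
  induction x with
  | zero =>
    intro z
    have h : Run (ains C e y B) w ⟨.tst a, emb (sv C.R 0 v) z, hd⟩ 1
        ⟨.bk a, emb (sv C.R 0 v) z, hd⟩ := by
      refine Run.one ?_ (by simp [ains])
      simp only [rstep, ains, emb_castSucc, sv_zero, if_true]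
    exact h.cast' (by simp) (by simp)
  | succ x ih =>
    intro z
    have h1 : Run (ains C e y B) w ⟨.tst a, emb (sv C.R (x + 1) v) z, hd⟩ 1
        ⟨.mul a (Fin.ofNat _ B), emb (sv C.R x v) z, hd⟩ := by
      refine Run.one ?_ (by simp [ains])
      simp only [rstep, ains, emb_castSucc, sv_zero]
      rw [if_neg (by omega), update_emb_castSucc, update_sv_zero]
      simp
    have h2 := run_incs (ins := ains C e y B) (w := w) (r := Fin.last _) (q' := .tst a)
      (fun i => .mul a (Fin.ofNat _ i)) (by simp [ains]) B ?_ (emb (sv C.R x v) z) hd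
    · rw [update_emb_last, emb_last] at h2
      exact ((h1.trans h2).trans (ih (z + B))).cast' (by ring)
        (by rw [show z + B + B * x = z + B * (x + 1) by ring])
    · intro i hi
      have h3 : ((Fin.ofNat (B + 1) (i + 1) : Fin (B + 1)) : ℕ) = i + 1 :=
        Nat.mod_eq_of_lt (by omega)
      simp only [ains, h3]
      rw [if_neg (by omega), Nat.add_sub_cancel]

theorem run_bk (a : A) (hd v : ℕ) : ∀ z x : ℕ,
    Run (ains C e y B) w ⟨.bk a, emb (sv C.R x v) z, hd⟩ (2 * z + 1)
      ⟨.add a (Fin.ofNat _ (e a + 1)), emb (sv C.R (x + z) v) 0, hd⟩ := by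
  intro z
  induction z with
  | zero =>
    intro x
    refine Run.one ?_ (by simp [ains])
    simp [rstep, ains, emb_last]
  | succ z ih =>
    intro x
    have h1 : Run (ains C e y B) w ⟨.bk a, emb (sv C.R x v) (z + 1), hd⟩ 1
        ⟨.bk2 a, emb (sv C.R x v) z, hd⟩ := by
      refine Run.one ?_ (by simp [ains])
      simp only [rstep, ains, emb_last]
      rw [if_neg (by omega), update_emb_last]
      simp
    have h2 : Run (ains C e y B) w ⟨.bk2 a, emb (sv C.R x v) z, hd⟩ 1
        ⟨.bk a, emb (sv C.R (x + 1) v) z, hd⟩ := by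
      refine Run.one ?_ (by simp [ains])
      simp only [rstep, ains, emb_castSucc, sv_zero]
      rw [update_emb_castSucc, update_sv_zero]
    exact ((h1.trans h2).trans (ih (x + 1))).cast' (by ring)
      (by rw [show x + 1 + z = x + (z + 1) by ring])

theorem run_letter (he : ∀ a, e a + 1 ≤ B) {a : A} {hd : ℕ} (hw : w[hd]? = some a) (x v : ℕ) :
    Run (ains C e y B) w ⟨.rd, emb (sv C.R x v) 0, hd⟩ ((3 * B + 2) * x + e a + 5)
      ⟨.rd, emb (sv C.R (x * B + (e a + 1)) v) 0, hd + 1⟩ := by
  have h1 : Run (ains C e y B) w ⟨.rd, emb (sv C.R x v) 0, hd⟩ 1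
      ⟨.tst a, emb (sv C.R x v) 0, hd + 1⟩ := by
    refine Run.one ?_ (by simp [ains])
    simp [rstep, ains, hw]
  have h2 := run_tst (C := C) (e := e) (y := y) (B := B) (w := w) a (hd + 1) v x 0
  have h3 := run_bk (C := C) (e := e) (y := y) (B := B) (w := w) a (hd + 1) v (0 + B * x) 0
  have h4 := run_incs (ins := ains C e y B) (w := w) (r := Fin.castSucc 0) (q' := .rd)
    (fun i => .add a (Fin.ofNat _ i)) (by simp [ains]) (e a + 1) ?_
    (emb (sv C.R (0 + (0 + B * x)) v) 0) (hd + 1)
  · rw [update_emb_castSucc, emb_castSucc, sv_zero, update_sv_zero] at h4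
    exact (((h1.trans h2).trans h3).trans h4).cast' (by ring)
      (by rw [show 0 + (0 + B * x) + (e a + 1) = x * B + (e a + 1) by ring])
  · intro i hi
    have := he a
    have h3 : ((Fin.ofNat (B + 1) (i + 1) : Fin (B + 1)) : ℕ) = i + 1 :=
      Nat.mod_eq_of_lt (by omega)
    simp only [ains, h3]
    rw [if_neg (by omega), Nat.add_sub_cancel]

theorem run_word (he : ∀ a, e a + 1 ≤ B) (v : ℕ) : ∀ (u : List A) (pre : List A) (x k : ℕ),
    w = pre ++ u →
    ∃ l, Run (ains C e y B) w ⟨.rd, emb (sv C.R x v) 0, pre.length⟩ l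
      ⟨.rd, emb (sv C.R ((u.map e).foldl (ph B) (x, k)).1 v) 0, w.length⟩ ∧
      ((u.map e).foldl (ph B) (x, k)).2 = k + l := by
  intro u
  induction u with
  | nil =>
    intro pre x k hw
    refine ⟨0, ?_, by simp⟩
    rw [hw]
    simp only [List.append_nil, List.map_nil, List.foldl_nil]
    exact Run.refl _ _ _
  | cons a u ih =>
    intro pre x k hw
    have hg : w[pre.length]? = some a := by rw [hw]; simp
    have h1 := run_letter (C := C) (y := y) he hg x v
    obtain ⟨l, h2, h3⟩ := ih (pre ++ [a]) (x * B + (e a + 1)) (k + ((3 * B + 2) * x + e a + 5))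
      (by rw [hw]; simp)
    rw [List.length_append, List.length_singleton] at h2
    refine ⟨_, h1.trans h2, ?_⟩
    simp only [List.map_cons, List.foldl_cons, ph] at h3 ⊢
    rw [h3]
    ring

theorem run_cm_step {q : Fin (C.N + 1)} {v : Fin (C.R + 2) → ℕ} {z hd : ℕ}
    (hq : C.kind q ≠ 0) :
    rstep (ains C e y B) w ⟨.run q, emb v z, hd⟩ =
      ⟨.run (C.step (q, v)).1, emb (C.step (q, v)).2 z, hd⟩ := by
  have hinc : (fun i => if i = C.reg q then v i + 1 else v i) =
      update v (C.reg q) (v (C.reg q) + 1) := by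
    funext i
    by_cases h : i = C.reg q
    · subst h; simp
    · simp [h]
  have hdec : (fun i => if i = C.reg q then v i - 1 else v i) =
      update v (C.reg q) (v (C.reg q) - 1) := by
    funext i
    by_cases h : i = C.reg q
    · subst h; simp
    · simp [h]
  unfold CM.step
  simp only [rstep, ains, if_neg hq]
  by_cases h1 : C.kind q = 1
  · simp only [if_pos h1]
  · simp only [if_neg h1]
    by_cases h2 : C.kind q = 2
    · simp only [if_pos h2, emb_castSucc, update_emb_castSucc, hinc]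
    · simp only [if_neg h2, emb_castSucc, update_emb_castSucc, hdec]
      by_cases h3 : v (C.reg q) = 0
      · simp only [if_pos h3]
      · simp only [if_neg h3]

theorem iterate_cm {c : C.Conf} {z hd : ℕ} : ∀ i : ℕ,
    (∀ j < i, C.kind (C.step^[j] c).1 ≠ 0) →
    (rstep (ains C e y B) w)^[i] ⟨.run c.1, emb c.2 z, hd⟩ =
      ⟨.run (C.step^[i] c).1, emb (C.step^[i] c).2 z, hd⟩ := by
  intro i
  induction i with
  | zero => intro _; rfl
  | succ i ih =>
    intro h
    rw [iterate_succ_apply', ih (fun j hj => h j (by omega)), iterate_succ_apply',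
      run_cm_step (h i (by omega))]

theorem ains_run_halt {q : Fin (C.N + 1)} : ains C e y B (.run q) = .halt ↔ C.kind q = 0 := by
  simp only [ains]
  by_cases h0 : C.kind q = 0
  · simp [h0]
  · rw [if_neg h0]
    split_ifs <;> simp [h0]

theorem run_cm {x v hd i : ℕ} :
    (∃ d, Run (ains C e y B) w ⟨.run C.q₀, emb (sv C.R x v) 0, hd⟩ i d ∧
      ains C e y B d.st = .halt) ↔ i ∈ C.time (x, v) := by
  rw [CM.mem_time]
  have hst : C.start x v = (C.q₀, sv C.R x v) := rfl
  constructor
  · rintro ⟨d, ⟨h1, h2⟩, h3⟩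
    have key : ∀ j ≤ i, (∀ l < j, C.kind (C.step^[l] (C.start x v)).1 ≠ 0) := by
      intro j
      induction j with
      | zero => intro _ l hl; exact absurd hl (Nat.not_lt_zero l)
      | succ j ih =>
        intro hj l hl
        have ih' := ih (by omega)
        rcases Nat.lt_succ_iff_lt_or_eq.1 hl with hl | rfl
        · exact ih' l hl
        · have h4 := h2 l (by omega)
          have h5 := iterate_cm (C := C) (e := e) (y := y) (B := B) (w := w) (z := 0) (hd := hd)
            (c := C.start x v) l ih'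
          rw [hst] at h5
          rw [h5] at h4
          rw [hst]
          exact fun h6 => h4 (ains_run_halt.2 h6)
    have hk := key i le_rfl
    have h5 := iterate_cm (C := C) (e := e) (y := y) (B := B) (w := w) (z := 0) (hd := hd)
      (c := C.start x v) i hk
    rw [hst] at h5
    rw [h5] at h1
    refine ⟨?_, hk⟩
    unfold CM.Halted
    rw [hst]
    rw [← h1] at h3
    exact ains_run_halt.1 h3
  · rintro ⟨h1, h2⟩
    have h5 := fun j (hj : j ≤ i) => iterate_cm (C := C) (e := e) (y := y) (B := B) (w := w)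
      (z := 0) (hd := hd) (c := C.start x v) j (fun l hl => h2 l (by omega))
    rw [hst] at h5
    refine ⟨_, ⟨h5 i le_rfl, fun j hj => ?_⟩, ?_⟩
    · rw [h5 j hj.le]
      exact fun h6 => h2 j hj (ains_run_halt.1 h6)
    · exact ains_run_halt.2 h1

/-- The run up to the start of the counter machine. -/
theorem run_pre (he : ∀ a, e a + 1 ≤ B) :
    Run (ains C e y B) w ⟨.ini (Fin.ofNat _ y), fun _ => 0, 0⟩
      (y + 1 + (phase B (w.map e)).2 + 1)
      ⟨.run C.q₀, emb (sv C.R (phase B (w.map e)).1 y) 0, w.length⟩ := by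
  have hz : (fun _ => 0 : Fin (C.R + 3) → ℕ) = emb (sv C.R 0 0) 0 := by
    funext i
    refine Fin.lastCases ?_ (fun i => ?_) i
    · rw [emb_last]
    · rw [emb_castSucc]; simp [sv]
  have h1 := run_incs (ins := ains C e y B) (w := w) (r := Fin.castSucc 1) (q' := .rd)
    (fun i => .ini (Fin.ofNat _ i)) (by simp [ains]) y ?_ (emb (sv C.R 0 0) 0) 0
  · rw [update_emb_castSucc, emb_castSucc, sv_one, update_sv_one, Nat.zero_add] at h1
    obtain ⟨l, h2, h3⟩ := run_word (C := C) (y := y) (w := w) he y w [] 0 0 rfl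
    have h4 : Run (ains C e y B) w
        ⟨.rd, emb (sv C.R (phase B (w.map e)).1 y) 0, w.length⟩ 1
        ⟨.run C.q₀, emb (sv C.R (phase B (w.map e)).1 y) 0, w.length⟩ := by
      refine Run.one ?_ (by simp [ains])
      simp [rstep, ains]
    rw [hz]
    refine ((h1.trans h2).trans h4).cast ?_
    unfold phase
    rw [h3]
    ring
  · intro i hi
    have h3 : ((Fin.ofNat (y + 1) (i + 1) : Fin (y + 1)) : ℕ) = i + 1 :=
      Nat.mod_eq_of_lt (by omega)
    simp only [ains, h3]
    rw [if_neg (by omega), Nat.add_sub_cancel]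

end

/-- The Turing machine. -/
def acceptor [Finite A] (C : CM) (e : A → ℕ) (y B : ℕ) : Machine A :=
  toMachine (ains C e y B) (.ini (Fin.ofNat _ y))

theorem acceptsIn_acceptor [Finite A] {C : CM} {e : A → ℕ} {y B : ℕ} (he : ∀ a, e a + 1 ≤ B)
    {w : List A} {s : ℕ} : AcceptsIn (acceptor C e y B) w s ↔
      ∃ i ∈ C.time ((phase B (w.map e)).1, y), s = i + (phase B (w.map e)).2 + y + 3 := by
  unfold acceptor
  rw [acceptsIn_toMachine]
  constructor
  · rintro ⟨i, c', rfl, h1, h2⟩
    obtain ⟨i', rfl, h3⟩ := (run_pre he).cancel h1 h2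
    exact ⟨i', run_cm.1 ⟨c', h3, h2⟩, by ring⟩
  · rintro ⟨i, hi, rfl⟩
    obtain ⟨d, h1, h2⟩ := (run_cm (C := C) (e := e) (y := y) (B := B) (w := w)
      (hd := w.length)).2 hi
    exact ⟨_, d, by ring, (run_pre he).trans h1, h2⟩

end Pool.Agent.H83.NT
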