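import Pool.Agent.H83.CounterMachine

/-!
Counter machines with two inputs, in table form, computing every r.e. relation; their halting
time is a partial recursive function.
-/

namespace Pool.Agent.H83.NT

open Function Pool.Agent.H83

/-- The start register file for the inputs `x`, `y`. -/
def init2 (x y : ℕ) : Regs := update (update (fun _ => 0) 0 x) 1 y

theorem iterate_halt {P Q : Prog} {s s' : Regs} (h : Big P s s') :
    (∃ i, (sstep^[i] ([.seq P Q], s)).1 = []) ↔ ∃ i, (sstep^[i] ([Q], s')).1 = [] := by
  obtain ⟨i₀, hi₀⟩ := h.steps [Q]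
  have h1 : sstep^[i₀ + 1] ([.seq P Q], s) = ([Q], s') := by
    rw [iterate_succ_apply]
    exact hi₀
  constructor
  · rintro ⟨i, hi⟩
    refine ⟨i, ?_⟩
    have h2 := sstep_nil_of_le (j := i + (i₀ + 1)) (by omega) hi
    rw [iterate_add_apply, h1] at h2
    exact h2
  · rintro ⟨i, hi⟩
    refine ⟨i + (i₀ + 1), ?_⟩
    rw [iterate_add_apply, h1]
    exact hi

/-- Every recursively enumerable relation is the halting relation of a while program. -/
theorem exists_prog₂ {q : ℕ → ℕ → Prop} (hq : REPred fun n : ℕ => q n.unpair.1 n.unpair.2) :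
    ∃ P : Prog, ∀ x y, q x y ↔ ∃ i, (sstep^[i] ([P], init2 x y)).1 = [] := by
  obtain ⟨P, hP⟩ := exists_prog hq
  -- the pairing function
  have hpair : Nat.Primrec' (fun v : List.Vector ℕ 2 => Nat.pair v.head v.tail.head) :=
    Nat.Primrec'.of_prim (Primrec₂.natPair.comp Primrec.vector_head
      (Primrec.vector_head.comp Primrec.vector_tail))
  obtain ⟨PP, hPP⟩ := computes_primrec' hpair ![0, 1] 2 3
    (by intro i; fin_cases i <;> simp) (by omega) (by intro i; fin_cases i <;> simp)
  have hpre : ∀ x y, Big (.seq PP (.seq (clear 0) (.seq (clear 1) (move 2 0)))) (init2 x y)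
      (init (Nat.pair x y)) := by
    intro x y
    refine Big.seq (hPP _ ?_) (Big.seq (big_clear 0 _) (Big.seq (big_clear 1 _)
      ((big_move (by omega) _).cast ?_)))
    · intro r hr
      simp only [init2]
      rw [update_of_ne (by omega), update_of_ne (by omega)]
    · funext r
      by_cases h0 : r = 0
      · subst h0
        simp [init2, init]
      · by_cases h1 : r = 1
        · subst h1
          simp [init]
        · by_cases h2 : r = 2
          · subst h2
            simp [init]
          · simp [init2, init, h0, h1, h2]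
  refine ⟨.seq (.seq PP (.seq (clear 0) (.seq (clear 1) (move 2 0)))) P, fun x y => ?_⟩
  rw [iterate_halt (hpre x y), ← hP]
  simp

/-- Flattening of a while program. -/
theorem exists_flat (P : Prog) :
    ∃ (ins : ℕ → Instr) (N R q₀ : ℕ), q₀ < N ∧ (∀ q < N, (ins q).Below N) ∧
      (∀ q < N, (ins q).RegBelow R) ∧
      ∀ s : Regs, (∃ i, (sstep^[i] ([P], s)).1 = []) ↔
        ∃ i, ins ((mstep ins)^[i] (q₀, s)).1 = .halt := by
  set L : List (List Prog) := [] :: conts P [] with hL
  have hclosed : ∀ κ ∈ L, ∀ κ' ∈ succs κ, κ' ∈ L := by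
    intro κ hκ κ' hκ'
    rcases List.mem_cons.1 hκ with rfl | hκ
    · simp only [succs, List.mem_singleton] at hκ'
      subst hκ'
      exact List.mem_cons_self
    · rcases conts_closed P [] κ hκ κ' hκ' with h | rfl
      · exact List.mem_cons_of_mem _ h
      · exact List.mem_cons_self
  set tr : List Prog → Instr := fun κ => match κ with
    | [] => .halt
    | .skip :: K => .goto (L.idxOf K)
    | .inc r :: K => .inc r (L.idxOf K)
    | .seq p q :: K => .goto (L.idxOf (p :: q :: K))
    | .loop r p :: K => .jz r (L.idxOf K) (L.idxOf (p :: .loop r p :: K)) with htr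
  set ins : ℕ → Instr := fun j => if h : j < L.length then tr L[j] else .halt with hins
  have hinsidx : ∀ κ ∈ L, ins (L.idxOf κ) = tr κ := by
    intro κ hκ
    have hlt : L.idxOf κ < L.length := List.idxOf_lt_length_iff.2 hκ
    simp only [hins, dif_pos hlt]
    rw [List.getElem_idxOf]
  have htr_halt : ∀ κ, tr κ = .halt ↔ κ = [] := by
    intro κ
    rcases κ with _ | ⟨p, K⟩
    · simp [htr]
    · cases p <;> simp [htr]
  -- register bound
  obtain ⟨R, hR⟩ : ∃ R, ∀ q < L.length, (ins q).RegBelow R := by
    set rg : Instr → ℕ := fun i => match i with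
      | .halt => 0
      | .goto _ => 0
      | .inc r _ => r
      | .jz r _ _ => r with hrg
    refine ⟨(Finset.range L.length).sup (fun q => rg (ins q)) + 1, ?_⟩
    intro q hq
    have h1 : rg (ins q) ≤ (Finset.range L.length).sup (fun q => rg (ins q)) :=
      Finset.le_sup (f := fun q => rg (ins q)) (Finset.mem_range.2 hq)
    revert h1
    generalize (Finset.range L.length).sup (fun q => rg (ins q)) = M
    intro h1
    cases h : ins q with
    | halt => trivial
    | goto q' => trivial
    | inc r q' => rw [h] at h1; show r < M + 1; simp only [hrg] at h1; omega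
    | jz r q₀ q₁ => rw [h] at h1; show r < M + 1; simp only [hrg] at h1; omega
  have hPL : [P] ∈ L := List.mem_cons_of_mem _ (self_mem_conts P [])
  have hbelow : ∀ q < L.length, (ins q).Below L.length := by
    intro q hq
    have hκ : L[q] ∈ L := List.getElem_mem hq
    have : ins q = tr L[q] := by simp only [hins, dif_pos hq]
    rw [this]
    have hc := hclosed _ hκ
    revert hc
    generalize L[q] = κ
    intro hc
    rcases κ with _ | ⟨p, K⟩
    · trivial
    · cases p with
      | skip => exact List.idxOf_lt_length_iff.2 (hc K (by simp [succs]))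
      | inc r => exact List.idxOf_lt_length_iff.2 (hc K (by simp [succs]))
      | seq p q => exact List.idxOf_lt_length_iff.2 (hc _ (by simp [succs]))
      | loop r p => exact ⟨List.idxOf_lt_length_iff.2 (hc K (by simp [succs])),
          List.idxOf_lt_length_iff.2 (hc _ (by simp [succs]))⟩
  -- simulation
  have hstep : ∀ κ ∈ L, ∀ s : Regs, mstep ins (L.idxOf κ, s) =
      (L.idxOf (sstep (κ, s)).1, (sstep (κ, s)).2) := by
    intro κ hκ s
    simp only [mstep, hinsidx κ hκ]
    rcases κ with _ | ⟨p, K⟩
    · rfl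
    · cases p with
      | skip => rfl
      | inc r => rfl
      | seq p q => rfl
      | loop r p =>
        simp only [htr, sstep]
        split_ifs <;> rfl
  have hsim : ∀ (s : Regs) (i : ℕ), (sstep^[i] ([P], s)).1 ∈ L ∧
      (mstep ins)^[i] (L.idxOf [P], s) =
        (L.idxOf (sstep^[i] ([P], s)).1, (sstep^[i] ([P], s)).2) := by
    intro s i
    induction i with
    | zero => exact ⟨hPL, rfl⟩
    | succ i ih =>
      rw [iterate_succ_apply', iterate_succ_apply', ih.2]
      refine ⟨hclosed _ ih.1 _ (sstep_mem_succs _ _), ?_⟩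
      rw [hstep _ ih.1]
  refine ⟨ins, L.length, R, L.idxOf [P], List.idxOf_lt_length_iff.2 hPL, hbelow, hR, ?_⟩
  intro s
  refine exists_congr fun i => ?_
  rw [(hsim s i).2, hinsidx _ (hsim s i).1, htr_halt]

/-- A counter machine in table form, with states `Fin (N + 1)` and counters `Fin (R + 2)`. The kinds
of instructions are `0`: halt, `1`: go to `nx₀`, `2`: increment `reg` and go to `nx₀`,
`3`: if the counter `reg` is zero go to `nx₀`, otherwise decrement it and go to `nx₁`. -/
structure CM where
  N : ℕ
  R : ℕ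
  kind : Fin (N + 1) → Fin 4
  reg : Fin (N + 1) → Fin (R + 2)
  nx₀ : Fin (N + 1) → Fin (N + 1)
  nx₁ : Fin (N + 1) → Fin (N + 1)
  q₀ : Fin (N + 1)

namespace CM

/-- Configurations. -/
abbrev Conf (C : CM) : Type := Fin (C.N + 1) × (Fin (C.R + 2) → ℕ)

/-- One step. -/
def step (C : CM) (c : C.Conf) : C.Conf :=
  if C.kind c.1 = 0 then c
  else if C.kind c.1 = 1 then (C.nx₀ c.1, c.2)
  else if C.kind c.1 = 2 then
    (C.nx₀ c.1, fun i => if i = C.reg c.1 then c.2 i + 1 else c.2 i)
  else if c.2 (C.reg c.1) = 0 then (C.nx₀ c.1, c.2)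
  else (C.nx₁ c.1, fun i => if i = C.reg c.1 then c.2 i - 1 else c.2 i)

/-- The start configuration. -/
def start (C : CM) (x y : ℕ) : C.Conf :=
  (C.q₀, fun i => if i = 0 then x else if i = 1 then y else 0)

/-- The machine has halted after `i` steps. -/
def Halted (C : CM) (x y i : ℕ) : Prop := C.kind (C.step^[i] (C.start x y)).1 = 0

instance (C : CM) (x y i : ℕ) : Decidable (C.Halted x y i) := by
  unfold Halted; infer_instance

theorem primrec_step (C : CM) : Primrec C.step := by
  have hk : Primrec C.kind := Primrec.dom_finite _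
  have hr : Primrec C.reg := Primrec.dom_finite _
  have h0 : Primrec C.nx₀ := Primrec.dom_finite _
  have h1 : Primrec C.nx₁ := Primrec.dom_finite _
  have hinc : Primrec (fun c : C.Conf => fun i => if i = C.reg c.1 then c.2 i + 1 else c.2 i) := by
    rw [Primrec.fin_curry]
    exact Primrec.ite (Primrec.eq.comp Primrec.snd (hr.comp (Primrec.fst.comp Primrec.fst)))
      (Primrec.succ.comp (Primrec.fin_app.comp (Primrec.snd.comp Primrec.fst) Primrec.snd))
      (Primrec.fin_app.comp (Primrec.snd.comp Primrec.fst) Primrec.snd)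
  have hdec : Primrec (fun c : C.Conf => fun i => if i = C.reg c.1 then c.2 i - 1 else c.2 i) := by
    rw [Primrec.fin_curry]
    exact Primrec.ite (Primrec.eq.comp Primrec.snd (hr.comp (Primrec.fst.comp Primrec.fst)))
      (Primrec.pred.comp (Primrec.fin_app.comp (Primrec.snd.comp Primrec.fst) Primrec.snd))
      (Primrec.fin_app.comp (Primrec.snd.comp Primrec.fst) Primrec.snd)
  unfold step
  refine Primrec.ite (Primrec.eq.comp (hk.comp Primrec.fst) (Primrec.const _)) Primrec.id ?_
  refine Primrec.ite (Primrec.eq.comp (hk.comp Primrec.fst) (Primrec.const _))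
    ((h0.comp Primrec.fst).pair Primrec.snd) ?_
  refine Primrec.ite (Primrec.eq.comp (hk.comp Primrec.fst) (Primrec.const _))
    ((h0.comp Primrec.fst).pair hinc) ?_
  exact Primrec.ite (Primrec.eq.comp (Primrec.fin_app.comp Primrec.snd (hr.comp Primrec.fst))
    (Primrec.const _)) ((h0.comp Primrec.fst).pair Primrec.snd)
    ((h1.comp Primrec.fst).pair hdec)

theorem primrec_halted (C : CM) :
    Primrec fun p : (ℕ × ℕ) × ℕ => decide (C.Halted p.1.1 p.1.2 p.2) := by
  have hk : Primrec C.kind := Primrec.dom_finite _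
  have hs : Primrec fun p : ℕ × ℕ => C.start p.1 p.2 := by
    refine (Primrec.const _).pair ?_
    rw [Primrec.fin_curry]
    exact Primrec.ite (Primrec.eq.comp Primrec.snd (Primrec.const _))
      (Primrec.fst.comp Primrec.fst)
      (Primrec.ite (Primrec.eq.comp Primrec.snd (Primrec.const _))
        (Primrec.snd.comp Primrec.fst) (Primrec.const 0))
  have hit : Primrec fun p : (ℕ × ℕ) × ℕ => C.step^[p.2] (C.start p.1.1 p.1.2) :=
    Primrec.nat_iterate Primrec.snd (hs.comp Primrec.fst)
      ((C.primrec_step.comp Primrec.snd).to₂)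
  have h := Primrec.eq.comp (hk.comp (Primrec.fst.comp hit)) (Primrec.const (0 : Fin 4))
  exact h.decide

/-- The halting time. -/
def time (C : CM) (p : ℕ × ℕ) : Part ℕ :=
  Nat.rfind fun i => Part.some (decide (C.Halted p.1 p.2 i))

theorem partrec_time (C : CM) : Partrec C.time := by
  have h : Computable₂ fun (p : ℕ × ℕ) (i : ℕ) => decide (C.Halted p.1 p.2 i) :=
    C.primrec_halted.to_comp
  exact Partrec.rfind h.partrec₂

theorem mem_time {C : CM} {p : ℕ × ℕ} {i : ℕ} :
    i ∈ C.time p ↔ C.Halted p.1 p.2 i ∧ ∀ j < i, ¬ C.Halted p.1 p.2 j := by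
  unfold time
  rw [Nat.mem_rfind]
  simp

theorem time_dom {C : CM} {p : ℕ × ℕ} : (C.time p).Dom ↔ ∃ i, C.Halted p.1 p.2 i := by
  constructor
  · intro h
    exact ⟨_, (mem_time.1 ((Part.get_mem h))).1⟩
  · intro h
    classical
    exact Part.dom_iff_mem.2 ⟨Nat.find h, mem_time.2 ⟨Nat.find_spec h, fun j hj =>
      Nat.find_min h hj⟩⟩

end CM

/-- Kind of an instruction. -/
def kindOf : Instr → Fin 4
  | .halt => 0
  | .goto _ => 1
  | .inc _ _ => 2
  | .jz _ _ _ => 3

/-- Register of an instruction. -/
def regOf (R : ℕ) : Instr → Fin (R + 2)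
  | .halt => 0
  | .goto _ => 0
  | .inc r _ => Fin.ofNat (R + 2) r
  | .jz r _ _ => Fin.ofNat (R + 2) r

/-- First target of an instruction. -/
def nx₀Of (N : ℕ) : Instr → Fin (N + 1)
  | .halt => 0
  | .goto q' => Fin.ofNat (N + 1) q'
  | .inc _ q' => Fin.ofNat (N + 1) q'
  | .jz _ q' _ => Fin.ofNat (N + 1) q'

/-- Second target of an instruction. -/
def nx₁Of (N : ℕ) : Instr → Fin (N + 1)
  | .halt => 0
  | .goto _ => 0
  | .inc _ _ => 0
  | .jz _ _ q' => Fin.ofNat (N + 1) q'

/-- Every recursively enumerable relation is the halting relation of a counter machine. -/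
theorem exists_cm {q : ℕ → ℕ → Prop} (hq : REPred fun n : ℕ => q n.unpair.1 n.unpair.2) :
    ∃ C : CM, ∀ x y, q x y ↔ (C.time (x, y)).Dom := by
  obtain ⟨P, hP⟩ := exists_prog₂ hq
  obtain ⟨ins, N, R, q₀, hq₀, hN, hR, hs⟩ := exists_flat P
  obtain ⟨N, rfl⟩ : ∃ N', N = N' + 1 := ⟨N - 1, by omega⟩
  set C : CM :=
    { N := N
      R := R
      kind := fun q => kindOf (ins q)
      reg := fun q => regOf R (ins q)
      nx₀ := fun q => nx₀Of N (ins q)
      nx₁ := fun q => nx₁Of N (ins q)
      q₀ := Fin.ofNat (N + 1) q₀ } with hC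
  refine ⟨C, fun x y => ?_⟩
  have hkind : ∀ q : Fin (N + 1), C.kind q = 0 ↔ ins q = .halt := by
    intro q
    show kindOf (ins q) = 0 ↔ _
    cases ins q <;> simp [kindOf]
  have hsim : ∀ i, ((C.step^[i] (C.start x y)).1 : ℕ) = ((mstep ins)^[i] (q₀, init2 x y)).1 ∧
      ((mstep ins)^[i] (q₀, init2 x y)).1 < N + 1 ∧
      ∀ r : Fin (R + 2), (C.step^[i] (C.start x y)).2 r =
        ((mstep ins)^[i] (q₀, init2 x y)).2 r := by
    intro i
    induction i with
    | zero =>
      refine ⟨?_, hq₀, ?_⟩
      · show (Fin.ofNat (N + 1) q₀ : ℕ) = q₀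
        exact Nat.mod_eq_of_lt hq₀
      · intro r
        show (if r = 0 then x else if r = 1 then y else 0) = init2 x y r
        unfold init2
        by_cases h1 : r = 1
        · subst h1
          simp
        · have h1' : (r : ℕ) ≠ 1 := fun h => h1 (Fin.ext h)
          rw [update_of_ne h1', if_neg h1]
          by_cases h0 : r = 0
          · subst h0
            simp
          · have h0' : (r : ℕ) ≠ 0 := fun h => h0 (Fin.ext h)
            rw [update_of_ne h0', if_neg h0]
    | succ i ih =>
      obtain ⟨ih1, ih2, ih3⟩ := ih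
      rw [iterate_succ_apply', iterate_succ_apply']
      revert ih1 ih2 ih3
      generalize C.step^[i] (C.start x y) = c
      generalize (mstep ins)^[i] (q₀, init2 x y) = d
      obtain ⟨cq, cv⟩ := c
      obtain ⟨dq, dv⟩ := d
      intro ih1 ih2 ih3
      simp only at ih1 ih2 ih3
      subst ih1
      have hb := hN cq ih2
      have hr := hR cq ih2
      have k1 : C.kind cq = kindOf (ins cq) := rfl
      have k2 : C.reg cq = regOf R (ins cq) := rfl
      have k3 : C.nx₀ cq = nx₀Of N (ins cq) := rfl
      have k4 : C.nx₁ cq = nx₁Of N (ins cq) := rfl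
      unfold CM.step mstep
      simp only [k1, k2, k3, k4]
      cases h : ins cq with
      | halt => simp [ih3, ih2, kindOf]
      | goto q' =>
        rw [h] at hb
        have hb' : q' < N + 1 := hb
        simp only [kindOf, nx₀Of, Fin.reduceEq, if_false, if_true]
        exact ⟨Nat.mod_eq_of_lt hb', hb', ih3⟩
      | inc r q' =>
        rw [h] at hb hr
        have hb' : q' < N + 1 := hb
        have hr' : r < R := hr
        simp only [kindOf, nx₀Of, regOf, Fin.reduceEq, if_false, if_true]
        refine ⟨Nat.mod_eq_of_lt hb', hb', ?_⟩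
        intro r'
        have e : r' = Fin.ofNat (R + 2) r ↔ (r' : ℕ) = r := by
          rw [Fin.ext_iff]
          show (r' : ℕ) = r % (R + 2) ↔ _
          rw [Nat.mod_eq_of_lt (by omega)]
        by_cases h3 : (r' : ℕ) = r
        · rw [if_pos (e.2 h3), h3, update_self, ih3, h3]
        · rw [if_neg (fun h4 => h3 (e.1 h4)), update_of_ne h3, ih3]
      | jz r q' q'' =>
        rw [h] at hb hr
        have hb' : q' < N + 1 := hb.1
        have hb'' : q'' < N + 1 := hb.2
        have hr' : r < R := hr
        simp only [kindOf, nx₀Of, nx₁Of, regOf, Fin.reduceEq, if_false]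
        have e : ∀ r' : Fin (R + 2), r' = Fin.ofNat (R + 2) r ↔ (r' : ℕ) = r := by
          intro r'
          rw [Fin.ext_iff]
          show (r' : ℕ) = r % (R + 2) ↔ _
          rw [Nat.mod_eq_of_lt (by omega)]
        have e2 : cv (Fin.ofNat (R + 2) r) = dv r := by
          rw [ih3]
          congr 1
          exact (e _).1 rfl
        rw [e2]
        by_cases hz : dv r = 0
        · rw [if_pos hz, if_pos hz]
          exact ⟨Nat.mod_eq_of_lt hb', hb', ih3⟩
        · rw [if_neg hz, if_neg hz]
          refine ⟨Nat.mod_eq_of_lt hb'', hb'', ?_⟩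
          intro r'
          by_cases h3 : (r' : ℕ) = r
          · simp only
            rw [if_pos ((e r').2 h3), h3, update_self, ih3, h3]
          · simp only
            rw [if_neg (fun h4 => h3 ((e r').1 h4)), update_of_ne h3, ih3]
  rw [hP, hs, CM.time_dom]
  refine exists_congr fun i => ?_
  unfold CM.Halted
  rw [hkind, (hsim i).1]

end Pool.Agent.H83.NT
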