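import Pool.Agent.Lead.NTM

/-!
Definitions: `DTIME(Pol t)`, `Π⁰₃` sets, index sets.
-/

namespace Pool.Agent.H83.NT

open Pool.Agent.Lead.NTM

/-- Deterministic machines: at most one action for each state and each tuple of scanned
letters. -/
def Deterministic {A : Type} (M : Machine A) : Prop := ∀ q x, (M.δ q x).Subsingleton

/-- The class `DTIME(Pol t)` of languages over the alphabet `A`: some deterministic machine
accepts exactly `L`, and for some polynomial `p` every `w ∈ L` is accepted by it after at most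
`p(t(|w|))` steps. -/
def DTIMEPol (A : Type) (t : ℕ → ℕ) : Set (Set (List A)) :=
  {L | ∃ (M : Machine A) (p : Polynomial ℕ), Deterministic M ∧ (∀ w, w ∈ L ↔ Accepts M w) ∧
    ∀ w ∈ L, ∃ s ≤ p.eval (t w.length), AcceptsIn M w s}

/-- `S` is a `Π⁰₃` set: `x ∈ S ↔ ∀ a, ∃ b, ∀ c, R x a b c` with a computable `R`. -/
def IsPi3 (S : Set ℕ) : Prop :=
  ∃ R : ℕ → ℕ → ℕ → ℕ → Bool,
    (Computable fun q : (ℕ × ℕ) × (ℕ × ℕ) => R q.1.1 q.1.2 q.2.1 q.2.2) ∧
      ∀ x, x ∈ S ↔ ∀ a, ∃ b, ∀ c, R x a b c = true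

/-- The index set of the total functions with the property `P`: the set of all `x` such that the
partial recursive function with code `x` is total and has the property `P`. -/
def IndexSet (P : (ℕ → ℕ) → Prop) : Set ℕ :=
  {x | ∃ t : ℕ → ℕ, (∀ n, t n ∈ (Denumerable.ofNat Nat.Partrec.Code x).eval n) ∧ P t}

end Pool.Agent.H83.NT
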