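import Pool.Agent.H83.NT.TowerC

/-!
The combinatorics of the `Π⁰₃` construction: guesses, events, the family of decision procedures.
-/

namespace Pool.Agent.H83.NT

open Function Pool.Agent.Lead.NTM Encodable Denumerable
open Nat.Partrec (Code)

attribute [local irreducible] T words eM eC eD Pl accB hh F

theorem computable_and : Computable₂ fun a b : Bool => a && b := Primrec.and.to_comp

theorem computable_not : Computable fun a : Bool => !a := Primrec.not.to_comp

theorem computable_eqn : Computable₂ fun a b : ℕ => decide (a = b) :=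
  (Primrec.eq (α := ℕ)).decide.to_comp

theorem computable_len : Computable₂ fun a b : ℕ => decide (a ≤ b) :=
  Primrec.nat_le.decide.to_comp

/-- A computable matrix. -/
structure P3 where
  R : ℕ → ℕ → ℕ → ℕ → Bool
  comp : Computable fun q : (ℕ × ℕ) × (ℕ × ℕ) => R q.1.1 q.1.2 q.2.1 q.2.2

variable (W : P3)

/-- The set defined by the matrix. -/
def P3.set : Set ℕ := {x | ∀ a, ∃ b, ∀ c, W.R x a b c = true}

/-- Is the guess `b` refuted by stage `s`? -/
def bad (x a b s : ℕ) : Bool := decide (∃ c < s + 1, (!W.R x a b c) = true)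

theorem bad_iff {x a b s : ℕ} : bad W x a b s = true ↔ ∃ c ≤ s, W.R x a b c = false := by
  unfold bad
  simp only [decide_eq_true_eq, Nat.lt_succ_iff, Bool.not_eq_true']

theorem computable_bad : Computable fun q : (ℕ × ℕ) × (ℕ × ℕ) => bad W q.1.1 q.1.2 q.2.1 q.2.2 := by
  have h1' := W.comp.comp (((Computable.fst.comp Computable.fst :
    Computable fun r : ((ℕ × ℕ) × (ℕ × ℕ)) × ℕ => r.1.1).pair
      ((Computable.fst.comp (Computable.snd.comp Computable.fst)).pair Computable.snd)))
  have h1 : Computable₂ fun (q : (ℕ × ℕ) × (ℕ × ℕ)) (c : ℕ) => !W.R q.1.1 q.1.2 q.2.1 c :=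
    computable_not.comp h1'
  exact computable_bex h1 (Computable.succ.comp (Computable.snd.comp Computable.snd))

/-- The guess at stage `s`. -/
def gs (q : ℕ × ℕ) (s : ℕ) : ℕ :=
  Nat.rec (motive := fun _ => ℕ) 0 (fun s b => bif bad W q.1 q.2 b s then b + 1 else b) s

/-- There is an event at stage `s`. -/
def ev (q : ℕ × ℕ) (s : ℕ) : Bool := bad W q.1 q.2 (gs W q s) s

theorem gs_zero (q : ℕ × ℕ) : gs W q 0 = 0 := rfl

theorem gs_succ (q : ℕ × ℕ) (s : ℕ) :
    gs W q (s + 1) = if ev W q s = true then gs W q s + 1 else gs W q s := by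
  show (bif bad W q.1 q.2 (gs W q s) s then gs W q s + 1 else gs W q s) = _
  unfold ev
  cases bad W q.1 q.2 (gs W q s) s <;> rfl

theorem computable_gs : Computable₂ (gs W) := by
  have hb' := (computable_bad W).comp ((Computable.fst.comp Computable.fst :
    Computable fun r : ((ℕ × ℕ) × ℕ) × (ℕ × ℕ) => r.1.1).pair
      ((Computable.snd.comp Computable.snd).pair (Computable.fst.comp Computable.snd)))
  have hb : Computable fun r : ((ℕ × ℕ) × ℕ) × (ℕ × ℕ) => bad W r.1.1.1 r.1.1.2 r.2.2 r.2.1 := hb'
  have h2 : Computable₂ fun (r : (ℕ × ℕ) × ℕ) (p : ℕ × ℕ) =>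
      bif bad W r.1.1 r.1.2 p.2 p.1 then p.2 + 1 else p.2 :=
    Computable.cond hb (Computable.succ.comp (Computable.snd.comp Computable.snd))
      (Computable.snd.comp Computable.snd)
  exact Computable.nat_rec (f := fun r : (ℕ × ℕ) × ℕ => r.2) Computable.snd
    (Computable.const 0) h2

theorem computable_ev : Computable₂ (ev W) := by
  have h := (computable_bad W).comp ((Computable.fst :
    Computable fun r : (ℕ × ℕ) × ℕ => r.1).pair ((computable_gs W).pair Computable.snd))
  exact h

attribute [local irreducible] gs ev bad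

theorem gs_mono (q : ℕ × ℕ) : Monotone (gs W q) :=
  monotone_nat_of_le_succ fun s => by
    rw [gs_succ]
    split <;> omega

theorem gs_le (q : ℕ × ℕ) (s : ℕ) : gs W q s ≤ s := by
  induction s with
  | zero => rw [gs_zero]
  | succ s ih =>
    rw [gs_succ]
    split <;> omega

theorem ev_iff {q : ℕ × ℕ} {s : ℕ} :
    ev W q s = true ↔ ∃ c ≤ s, W.R q.1 q.2 (gs W q s) c = false := by
  unfold ev
  exact bad_iff W

theorem finite_events {q : ℕ × ℕ} (h : ∃ b, ∀ c, W.R q.1 q.2 b c = true) :
    ∃ n0, ∀ n ≥ n0, ev W q n = false := by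
  obtain ⟨b, hb⟩ := h
  have h1 : ∀ n, gs W q n ≤ b := by
    intro n
    induction n with
    | zero => rw [gs_zero]; omega
    | succ n ih =>
      rw [gs_succ]
      split_ifs with h
      · rcases Nat.lt_or_ge (gs W q n) b with h2 | h2
        · omega
        · have h3 : gs W q n = b := le_antisymm ih h2
          rw [ev_iff, h3] at h
          obtain ⟨c, -, hc⟩ := h
          rw [hb c] at hc
          exact absurd hc (by simp)
      · exact ih
  by_contra hne
  push Not at hne
  have h2 : ∀ m, ∃ n, m ≤ gs W q n := by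
    intro m
    induction m with
    | zero => exact ⟨0, by omega⟩
    | succ m ih =>
      obtain ⟨n, hn⟩ := ih
      obtain ⟨n', h3, h4⟩ := hne n
      refine ⟨n' + 1, ?_⟩
      have h5 := gs_mono W q h3
      rw [gs_succ, if_pos (by simpa using h4)]
      omega
  obtain ⟨n, hn⟩ := h2 (b + 1)
  have := h1 n
  omega

theorem infinite_events {q : ℕ × ℕ} (h : ¬ ∃ b, ∀ c, W.R q.1 q.2 b c = true) (N : ℕ) :
    ∃ n, gs W q n = N ∧ ev W q n = true := by
  push Not at h
  have key : ∀ n, ∃ s, n ≤ s ∧ gs W q s = gs W q n ∧ ev W q s = true := by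
    intro n
    obtain ⟨c, hc⟩ := h (gs W q n)
    have h1 : ∀ d, (∃ s, n ≤ s ∧ gs W q s = gs W q n ∧ ev W q s = true) ∨
        gs W q (n + d) = gs W q n := by
      intro d
      induction d with
      | zero => exact Or.inr rfl
      | succ d ih =>
        rcases ih with ih | ih
        · exact Or.inl ih
        · by_cases hev : ev W q (n + d) = true
          · exact Or.inl ⟨n + d, by omega, ih, hev⟩
          · right
            rw [← Nat.add_assoc, gs_succ, if_neg hev, ih]
    rcases h1 c with h2 | h2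
    · exact h2
    · refine ⟨n + c, by omega, h2, ?_⟩
      rw [ev_iff, h2]
      exact ⟨c, by omega, by simpa using hc⟩
  induction N with
  | zero =>
    obtain ⟨s, -, h2, h3⟩ := key 0
    exact ⟨s, by rw [h2, gs_zero], h3⟩
  | succ N ih =>
    obtain ⟨n, h1, h2⟩ := ih
    obtain ⟨s, h3, h4, h5⟩ := key (n + 1)
    refine ⟨s, ?_, h5⟩
    rw [h4, gs_succ, if_pos h2, h1]

/-- The strategy `k` acts at `n`. -/
def win (q : ℕ × ℕ) (n : ℕ) : Bool :=
  decide (q.2 ≤ n) && (ev W q n && !(decide (∃ k' < q.2, ev W (q.1, k') n = true)))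

theorem win_iff {q : ℕ × ℕ} {n : ℕ} : win W q n = true ↔
    q.2 ≤ n ∧ ev W q n = true ∧ ∀ k' < q.2, ev W (q.1, k') n = false := by
  unfold win
  simp only [Bool.and_eq_true, decide_eq_true_eq, Bool.not_eq_true', decide_eq_false_iff_not,
    not_exists, not_and, Bool.not_eq_true]

theorem win_unique {x k k' n : ℕ} (h : win W (x, k) n = true) (h' : win W (x, k') n = true) :
    k = k' := by
  rw [win_iff] at h h'
  simp only at h h'
  rcases Nat.lt_trichotomy k k' with h1 | h1 | h1
  · have := h'.2.2 k h1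
    rw [h.2.1] at this
    exact absurd this (by simp)
  · exact h1
  · have := h.2.2 k' h1
    rw [h'.2.1] at this
    exact absurd this (by simp)

theorem computable_win : Computable₂ (win W) := by
  have hk : Computable fun r : (ℕ × ℕ) × ℕ => r.1.2 := Computable.snd.comp Computable.fst
  have h1 : Computable fun r : (ℕ × ℕ) × ℕ => decide (r.1.2 ≤ r.2) :=
    computable_len.comp hk Computable.snd
  have h2 : Computable₂ fun (r : (ℕ × ℕ) × ℕ) (k' : ℕ) => ev W (r.1.1, k') r.2 :=
    (computable_ev W).comp ((Computable.fst.comp (Computable.fst.comp Computable.fst)).pair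
      Computable.snd) (Computable.snd.comp Computable.fst)
  have h3 : Computable fun r : (ℕ × ℕ) × ℕ =>
      decide (∃ k' < r.1.2, ev W (r.1.1, k') r.2 = true) := computable_bex h2 hk
  have h4 : Computable fun r : (ℕ × ℕ) × ℕ => ev W r.1 r.2 := computable_ev W
  exact computable_and.comp h1 (computable_and.comp h4 (computable_not.comp h3))

attribute [local irreducible] win

/-- The requirement attacked by the strategy `k` at `n`. -/
def rq (q : ℕ × ℕ) (n : ℕ) : ℕ := (gs W q n).unpair.1

theorem computable_rq : Computable₂ (rq W) :=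
  Computable.fst.comp (Computable.unpair.comp (computable_gs W))

attribute [local irreducible] rq

/-- The zero word. -/
def zw (u : List ℕ) : List ℕ := u.map fun _ => 0

theorem primrec_zw : Primrec zw := Primrec.list_map Primrec.id (Primrec.const 0).to₂

/-- The value of the strategy `k` at `u`: `q = (x, k)`, `v = F k |u|`. -/
def Dv (q : ℕ × ℕ) (u : List ℕ) (v : ℕ) : Bool :=
  accB (eC (rq W q u.length)) (zw u) (Pl (eD (rq W q u.length)) v)

theorem computable_Dv : Computable fun z : (ℕ × ℕ) × (List ℕ × ℕ) => Dv W z.1 z.2.1 z.2.2 := by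
  have hu : Computable fun z : (ℕ × ℕ) × (List ℕ × ℕ) => z.2.1 :=
    Computable.fst.comp Computable.snd
  have hl : Computable fun z : (ℕ × ℕ) × (List ℕ × ℕ) => z.2.1.length :=
    Primrec.list_length.to_comp.comp hu
  have hr : Computable fun z : (ℕ × ℕ) × (List ℕ × ℕ) => rq W z.1 z.2.1.length :=
    (computable_rq W).comp Computable.fst hl
  have hC : Computable fun z : (ℕ × ℕ) × (List ℕ × ℕ) => eC (rq W z.1 z.2.1.length) :=
    primrec_eC.to_comp.comp hr
  have hD : Computable fun z : (ℕ × ℕ) × (List ℕ × ℕ) => eD (rq W z.1 z.2.1.length) :=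
    primrec_eD.to_comp.comp hr
  have hP : Computable fun z : (ℕ × ℕ) × (List ℕ × ℕ) =>
      Pl (eD (rq W z.1 z.2.1.length)) z.2.2 :=
    primrec_Pl.to_comp.comp hD (Computable.snd.comp Computable.snd)
  have h := computable_accB.comp ((hC.pair (primrec_zw.to_comp.comp hu)).pair hP)
  exact h

attribute [local irreducible] Dv

/-- Kind of a parameter. -/
def kd (p : ℕ) : ℕ := p.unpair.2.unpair.2.unpair.1

/-- Last component of a parameter. -/
def rs (p : ℕ) : ℕ := p.unpair.2.unpair.2.unpair.2

theorem primrec_kd : Primrec kd :=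
  Primrec.fst.comp (Primrec.unpair.comp (Primrec.snd.comp (Primrec.unpair.comp
    (Primrec.snd.comp Primrec.unpair))))

theorem primrec_rs : Primrec rs :=
  Primrec.snd.comp (Primrec.unpair.comp (Primrec.snd.comp (Primrec.unpair.comp
    (Primrec.snd.comp Primrec.unpair))))

/-- The values of kind `0`. -/
def V0 (p : ℕ) (u : List ℕ) (v : ℕ) : Bool := accB (eC (ix p)) u (Pl (eD (ix p)) v + rs p)

/-- The values of the other kinds. -/
def V1 (p : ℕ) (u : List ℕ) (v : ℕ) : Bool :=
  decide (u = zw u) && (win W (rs p, ix p) u.length && Dv W (rs p, ix p) u v)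

theorem computable_V0 : Computable fun z : ℕ × (List ℕ × ℕ) => V0 z.1 z.2.1 z.2.2 := by
  have hi : Computable fun z : ℕ × (List ℕ × ℕ) => ix z.1 :=
    primrec_ix.to_comp.comp Computable.fst
  have hr : Computable fun z : ℕ × (List ℕ × ℕ) => rs z.1 :=
    primrec_rs.to_comp.comp Computable.fst
  have hu : Computable fun z : ℕ × (List ℕ × ℕ) => z.2.1 := Computable.fst.comp Computable.snd
  have hC : Computable fun z : ℕ × (List ℕ × ℕ) => eC (ix z.1) := primrec_eC.to_comp.comp hi
  have hD : Computable fun z : ℕ × (List ℕ × ℕ) => eD (ix z.1) := primrec_eD.to_comp.comp hi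
  have hP : Computable fun z : ℕ × (List ℕ × ℕ) => Pl (eD (ix z.1)) z.2.2 + rs z.1 :=
    Primrec.nat_add.to_comp.comp
      (primrec_Pl.to_comp.comp hD (Computable.snd.comp Computable.snd)) hr
  have h := computable_accB.comp ((hC.pair hu).pair hP)
  exact h

theorem computable_V1 : Computable fun z : ℕ × (List ℕ × ℕ) => V1 W z.1 z.2.1 z.2.2 := by
  have hi : Computable fun z : ℕ × (List ℕ × ℕ) => ix z.1 :=
    primrec_ix.to_comp.comp Computable.fst
  have hr : Computable fun z : ℕ × (List ℕ × ℕ) => rs z.1 :=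
    primrec_rs.to_comp.comp Computable.fst
  have hu : Computable fun z : ℕ × (List ℕ × ℕ) => z.2.1 := Computable.fst.comp Computable.snd
  have he : Computable₂ fun a b : List ℕ => decide (a = b) :=
    (Primrec.eq (α := List ℕ)).decide.to_comp
  have h1 : Computable fun z : ℕ × (List ℕ × ℕ) => decide (z.2.1 = zw z.2.1) :=
    he.comp hu (primrec_zw.to_comp.comp hu)
  have h2 : Computable fun z : ℕ × (List ℕ × ℕ) => win W (rs z.1, ix z.1) z.2.1.length :=
    (computable_win W).comp (hr.pair hi) (Primrec.list_length.to_comp.comp hu)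
  have h3' := (computable_Dv W).comp ((hr.pair hi).pair (Computable.snd : Computable fun z :
    ℕ × (List ℕ × ℕ) => z.2))
  have h3 : Computable fun z : ℕ × (List ℕ × ℕ) => Dv W (rs z.1, ix z.1) z.2.1 z.2.2 := h3'
  exact computable_and.comp h1 (computable_and.comp h2 h3)

attribute [local irreducible] V0 V1

/-- The values. -/
def Vv (p : ℕ) (u : List ℕ) (v : ℕ) : Bool := bif decide (kd p = 0) then V0 p u v else V1 W p u v

theorem computable_Vv : Computable fun z : ℕ × (List ℕ × ℕ) => Vv W z.1 z.2.1 z.2.2 :=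
  Computable.cond (computable_eqn.comp (primrec_kd.to_comp.comp Computable.fst)
    (Computable.const 0)) computable_V0 (computable_V1 W)

/-- The family of decision procedures. -/
def VF : VFam where
  V := Vv W
  comp := computable_Vv W

/-- Parameters. -/
def mkp (i m k r : ℕ) : ℕ := Nat.pair i (Nat.pair m (Nat.pair k r))

theorem ix_mkp (i m k r : ℕ) : ix (mkp i m k r) = i := by simp [ix, mkp]

theorem am_mkp (i m k r : ℕ) : am (mkp i m k r) = m := by simp [am, mkp]

theorem kd_mkp (i m k r : ℕ) : kd (mkp i m k r) = k := by simp [kd, mkp]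

theorem rs_mkp (i m k r : ℕ) : rs (mkp i m k r) = r := by simp [rs, mkp]

attribute [local irreducible] mkp

theorem VF_V : (VF W).V = Vv W := rfl

theorem VF_zero (i m r : ℕ) (u : List ℕ) (v : ℕ) :
    (VF W).V (mkp i m 0 r) u v = accB (eC i) u (Pl (eD i) v + r) := by
  rw [VF_V]
  unfold Vv
  rw [kd_mkp]
  simp only [decide_true, cond_true]
  unfold V0
  rw [ix_mkp, rs_mkp]

theorem VF_one (i m r : ℕ) (u : List ℕ) (v : ℕ) :
    (VF W).V (mkp i m 1 r) u v =
      (decide (u = zw u) && (win W (r, i) u.length && Dv W (r, i) u v)) := by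
  rw [VF_V]
  unfold Vv
  rw [kd_mkp]
  simp only [one_ne_zero, decide_false, cond_false]
  unfold V1
  rw [ix_mkp, rs_mkp]

end Pool.Agent.H83.NT
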