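import Pool.Agent.H83.NT.Pi3A

/-!
The time bounds `t x`.
-/

namespace Pool.Agent.H83.NT

open Function Pool.Agent.Lead.NTM Encodable Denumerable
open Nat.Partrec (Code)

attribute [local irreducible] T words eM eC eD Pl accB hh F gs ev bad win rq Dv V0 V1 mkp zw

/-- Least witnesses of total searches are computable. -/
theorem computable_find {α : Type} [Primcodable α] {p : α → ℕ → Bool} (hp : Computable₂ p)
    (h : ∀ a, ∃ n, p a n = true) : Computable fun a => Nat.find (h a) := by
  have h1 : Partrec fun a => Nat.rfind fun n => Part.some (p a n) :=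
    Partrec.rfind hp.partrec₂
  refine h1.of_eq_tot fun a => ?_
  refine Nat.mem_rfind.2 ⟨?_, fun {m} hm => ?_⟩
  · have := Nat.find_spec (h a)
    rw [Part.mem_some_iff]
    exact this.symm
  · have := Nat.find_min (h a) hm
    rw [Part.mem_some_iff]
    exact (Bool.not_eq_true _ ▸ this : p a m = false).symm

variable (W : P3) {g : ℕ → ℕ} (hg : Computable g)

/-- The bounds. -/
noncomputable def FF (r n : ℕ) : ℕ := F (VF W) hg r n

theorem computable_FF : Computable₂ (FF W hg) := computable_F (VF W) hg

theorem FF_mono {r r' : ℕ} (h : r ≤ r') (n : ℕ) : FF W hg r n ≤ FF W hg r' n :=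
  F_mono (VF W) hg h n

theorem FF_zero_succ (n : ℕ) : FF W hg (n + 1) n < FF W hg 0 (n + 1) := by
  have := F_zero_succ (VF W) hg n
  unfold FF
  omega

theorem g_le_FF (n : ℕ) : g n ≤ FF W hg 0 n := g_le_F_zero (VF W) hg n

attribute [local irreducible] FF

/-- The word `u` shows that the requirement `e` can be killed at `n`. -/
noncomputable def kw (e n : ℕ) (u : List ℕ) : Bool :=
  accB (eC e) u (Pl (eD e) (FF W hg (n + 1) n)) && !(accB (eC e) u (Pl (eD e) (FF W hg e n)))

theorem computable_kw : Computable fun z : (ℕ × ℕ) × List ℕ => kw W hg z.1.1 z.1.2 z.2 := by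
  have he : Computable fun z : (ℕ × ℕ) × List ℕ => z.1.1 := Computable.fst.comp Computable.fst
  have hn : Computable fun z : (ℕ × ℕ) × List ℕ => z.1.2 := Computable.snd.comp Computable.fst
  have hC : Computable fun z : (ℕ × ℕ) × List ℕ => eC z.1.1 := primrec_eC.to_comp.comp he
  have hD : Computable fun z : (ℕ × ℕ) × List ℕ => eD z.1.1 := primrec_eD.to_comp.comp he
  have h1 : Computable fun z : (ℕ × ℕ) × List ℕ => Pl (eD z.1.1) (FF W hg (z.1.2 + 1) z.1.2) :=
    primrec_Pl.to_comp.comp hD ((computable_FF W hg).comp (Computable.succ.comp hn) hn)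
  have h2 : Computable fun z : (ℕ × ℕ) × List ℕ => Pl (eD z.1.1) (FF W hg z.1.1 z.1.2) :=
    primrec_Pl.to_comp.comp hD ((computable_FF W hg).comp he hn)
  have h3 := computable_accB.comp ((hC.pair Computable.snd).pair h1)
  have h4 := computable_accB.comp ((hC.pair Computable.snd).pair h2)
  exact computable_and.comp h3 (computable_not.comp h4)

theorem kw_iff {e n : ℕ} {u : List ℕ} : kw W hg e n u = true ↔
    accB (eC e) u (Pl (eD e) (FF W hg (n + 1) n)) = true ∧
      accB (eC e) u (Pl (eD e) (FF W hg e n)) = false := by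
  unfold kw
  simp only [Bool.and_eq_true, Bool.not_eq_true']

attribute [local irreducible] kw

/-- The requirement `e` can be killed at `n`. -/
noncomputable def elig (e n : ℕ) : Bool := decide (e ≤ n) &&
  decide (∃ i < (words (eM e) n).length, kw W hg e n ((words (eM e) n).getD i []) = true)

theorem elig_iff {e n : ℕ} : elig W hg e n = true ↔
    e ≤ n ∧ ∃ u ∈ words (eM e) n, kw W hg e n u = true := by
  unfold elig
  simp only [Bool.and_eq_true, decide_eq_true_eq]
  refine and_congr_right fun _ => ?_
  constructor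
  · rintro ⟨i, hi, h⟩
    rw [List.getD_eq_getElem _ _ hi] at h
    exact ⟨_, List.getElem_mem hi, h⟩
  · rintro ⟨u, hu, h⟩
    obtain ⟨i, hi, rfl⟩ := List.mem_iff_getElem.1 hu
    exact ⟨i, hi, by rwa [List.getD_eq_getElem _ _ hi]⟩

theorem computable_elig : Computable₂ (elig W hg) := by
  have h1 : Computable fun z : ℕ × ℕ => decide (z.1 ≤ z.2) :=
    computable_len.comp Computable.fst Computable.snd
  have hw : Computable fun z : ℕ × ℕ => words (eM z.1) z.2 :=
    primrec_words.to_comp.comp (primrec_eM.to_comp.comp Computable.fst) Computable.snd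
  have hl : Computable fun z : ℕ × ℕ => (words (eM z.1) z.2).length :=
    Primrec.list_length.to_comp.comp hw
  have hu : Computable fun z : (ℕ × ℕ) × ℕ => (words (eM z.1.1) z.1.2).getD z.2 [] :=
    (Primrec.list_getD ([] : List ℕ)).to_comp.comp (hw.comp Computable.fst) Computable.snd
  have h2' := (computable_kw W hg).comp ((Computable.fst : Computable fun z : (ℕ × ℕ) × ℕ =>
    z.1).pair hu)
  have h2 : Computable₂ fun (z : ℕ × ℕ) (i : ℕ) =>
      kw W hg z.1 z.2 ((words (eM z.1) z.2).getD i []) := h2'
  exact computable_and.comp h1 (computable_bex h2 hl)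

attribute [local irreducible] elig

/-- The requirement `e` can be killed at `n`, for the first time. -/
noncomputable def frst (e n : ℕ) : Bool :=
  elig W hg e n && !(decide (∃ n' < n, elig W hg e n' = true))

theorem frst_iff {e n : ℕ} : frst W hg e n = true ↔
    elig W hg e n = true ∧ ∀ n' < n, elig W hg e n' = false := by
  unfold frst
  simp only [Bool.and_eq_true, Bool.not_eq_true', decide_eq_false_iff_not, not_exists, not_and,
    Bool.not_eq_true]

theorem computable_frst : Computable₂ (frst W hg) := by
  have h2 : Computable₂ fun (z : ℕ × ℕ) (n' : ℕ) => elig W hg z.1 n' :=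
    (computable_elig W hg).comp (Computable.fst.comp Computable.fst) Computable.snd
  have h1 : Computable fun z : ℕ × ℕ => elig W hg z.1 z.2 := computable_elig W hg
  exact computable_and.comp h1 (computable_not.comp (computable_bex h2 Computable.snd))

attribute [local irreducible] frst

theorem frst_unique {e n n' : ℕ} (h : frst W hg e n = true) (h' : frst W hg e n' = true) :
    n = n' := by
  rw [frst_iff] at h h'
  rcases Nat.lt_trichotomy n n' with h1 | h1 | h1
  · have := h'.2 n h1
    rw [h.1] at this
    exact absurd this (by simp)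
  · exact h1
  · have := h.2 n' h1
    rw [h'.1] at this
    exact absurd this (by simp)

theorem exists_frst {e n : ℕ} (h : elig W hg e n = true) : ∃ n', frst W hg e n' = true := by
  have hex : ∃ n, elig W hg e n = true := ⟨n, h⟩
  refine ⟨Nat.find hex, (frst_iff W hg).2 ⟨Nat.find_spec hex, fun n' hn' => ?_⟩⟩
  exact Bool.eq_false_iff.2 (Nat.find_min hex hn')

/-- The word `0 ^ n`. -/
def zr (n : ℕ) : List ℕ := (List.range n).map fun _ => 0

theorem zr_eq (n : ℕ) : zr n = List.replicate n 0 := by
  unfold zr
  rw [List.map_const', List.length_range]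

theorem primrec_zr : Primrec zr := Primrec.list_map Primrec.list_range (Primrec.const 0).to₂

/-- The decision of the strategy `k` at `n`. -/
noncomputable def DD (q : ℕ × ℕ) (n : ℕ) : Bool := Dv W q (zr n) (FF W hg q.2 n)

theorem computable_DD : Computable₂ (DD W hg) := by
  have h1 : Computable fun z : (ℕ × ℕ) × ℕ => zr z.2 := primrec_zr.to_comp.comp Computable.snd
  have h2 : Computable fun z : (ℕ × ℕ) × ℕ => FF W hg z.1.2 z.2 :=
    (computable_FF W hg).comp (Computable.snd.comp Computable.fst) Computable.snd
  have h := (computable_Dv W).comp ((Computable.fst : Computable fun z : (ℕ × ℕ) × ℕ =>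
    z.1).pair (h1.pair h2))
  exact h

attribute [local irreducible] DD

/-- `t x n` has to be at most `F r n`. -/
noncomputable def stop (x r n : ℕ) : Bool :=
  frst W hg r n || (win W (x, r) n && !(DD W hg (x, r) n))

theorem stop_iff {x r n : ℕ} : stop W hg x r n = true ↔
    frst W hg r n = true ∨ (win W (x, r) n = true ∧ DD W hg (x, r) n = false) := by
  unfold stop
  simp only [Bool.or_eq_true, Bool.and_eq_true, Bool.not_eq_true']

theorem computable_or : Computable₂ fun a b : Bool => a || b := Primrec.or.to_comp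

theorem computable_stop : Computable fun z : (ℕ × ℕ) × ℕ => stop W hg z.1.1 z.2 z.1.2 := by
  have hn : Computable fun z : (ℕ × ℕ) × ℕ => z.1.2 := Computable.snd.comp Computable.fst
  have hx : Computable fun z : (ℕ × ℕ) × ℕ => z.1.1 := Computable.fst.comp Computable.fst
  have h1 : Computable fun z : (ℕ × ℕ) × ℕ => frst W hg z.2 z.1.2 :=
    (computable_frst W hg).comp Computable.snd hn
  have h2 : Computable fun z : (ℕ × ℕ) × ℕ => win W (z.1.1, z.2) z.1.2 :=
    (computable_win W).comp (hx.pair Computable.snd) hn
  have h3 : Computable fun z : (ℕ × ℕ) × ℕ => DD W hg (z.1.1, z.2) z.1.2 :=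
    (computable_DD W hg).comp (hx.pair Computable.snd) hn
  exact computable_or.comp h1 (computable_and.comp h2 (computable_not.comp h3))

attribute [local irreducible] stop

/-- The selected index satisfies this. -/
noncomputable def selB (z : ℕ × ℕ) (r : ℕ) : Bool :=
  decide (r = z.2 + 1) || stop W hg z.1 r z.2

theorem selB_iff {x n r : ℕ} : selB W hg (x, n) r = true ↔
    r = n + 1 ∨ stop W hg x r n = true := by
  unfold selB
  simp only [Bool.or_eq_true, decide_eq_true_eq]

theorem computable_selB : Computable₂ (selB W hg) := by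
  have h1 : Computable fun z : (ℕ × ℕ) × ℕ => decide (z.2 = z.1.2 + 1) :=
    computable_eqn.comp Computable.snd (Computable.succ.comp (Computable.snd.comp Computable.fst))
  exact computable_or.comp h1 (computable_stop W hg)

attribute [local irreducible] selB

theorem exists_selB (z : ℕ × ℕ) : ∃ r, selB W hg z r = true :=
  ⟨z.2 + 1, (selB_iff W hg).2 (Or.inl rfl)⟩

/-- The selected index. -/
noncomputable def sel (z : ℕ × ℕ) : ℕ := Nat.find (exists_selB W hg z)

theorem computable_sel : Computable (sel W hg) :=
  computable_find (computable_selB W hg) (exists_selB W hg)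

theorem sel_le (x n : ℕ) : sel W hg (x, n) ≤ n + 1 :=
  Nat.find_min' _ ((selB_iff W hg).2 (Or.inl rfl))

theorem sel_le_of_stop {x r n : ℕ} (h : stop W hg x r n = true) : sel W hg (x, n) ≤ r :=
  Nat.find_min' _ ((selB_iff W hg).2 (Or.inr h))

theorem sel_spec (x n : ℕ) : sel W hg (x, n) = n + 1 ∨ stop W hg x (sel W hg (x, n)) n = true :=
  (selB_iff W hg).1 (Nat.find_spec (exists_selB W hg (x, n)))

attribute [local irreducible] sel

/-- The time bounds. -/
noncomputable def tt (x n : ℕ) : ℕ := FF W hg (sel W hg (x, n)) n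

theorem computable_tt : Computable₂ (tt W hg) :=
  (computable_FF W hg).comp (computable_sel W hg) Computable.snd

theorem FF_zero_le_tt (x n : ℕ) : FF W hg 0 n ≤ tt W hg x n := FF_mono W hg (Nat.zero_le _) n

theorem tt_le (x n : ℕ) : tt W hg x n ≤ FF W hg (n + 1) n := FF_mono W hg (sel_le W hg x n) n

theorem tt_le_of_stop {x r n : ℕ} (h : stop W hg x r n = true) : tt W hg x n ≤ FF W hg r n :=
  FF_mono W hg (sel_le_of_stop W hg h) n

theorem tt_strictMono (x : ℕ) : StrictMono (tt W hg x) := by
  refine strictMono_nat_of_lt_succ fun n => ?_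
  exact (tt_le W hg x n).trans_lt ((FF_zero_succ W hg n).trans_le (FF_zero_le_tt W hg x (n + 1)))

theorem g_le_tt (x n : ℕ) : g n ≤ tt W hg x n := (g_le_FF W hg n).trans (FF_zero_le_tt W hg x n)

/-- `t x n ≥ F r n` for all large `n` at which no strategy `k < r` makes `t x n` small. -/
theorem tt_large (x r : ℕ) : ∃ n0, ∀ n ≥ n0,
    (∀ k < r, ¬ (win W (x, k) n = true ∧ DD W hg (x, k) n = false)) →
      FF W hg r n ≤ tt W hg x n := by
  have h1 : ∀ r', ∃ n0, ∀ n ≥ n0, ∀ e < r', frst W hg e n = false := by
    intro r'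
    induction r' with
    | zero => exact ⟨0, fun n _ e he => absurd he (Nat.not_lt_zero e)⟩
    | succ r' ih =>
      obtain ⟨n0, h0⟩ := ih
      by_cases hex : ∃ n, frst W hg r' n = true
      · obtain ⟨n1, hn1⟩ := hex
        refine ⟨max n0 (n1 + 1), fun n hn e he => ?_⟩
        rcases Nat.lt_succ_iff_lt_or_eq.1 he with h2 | rfl
        · exact h0 n (le_trans (le_max_left _ _) hn) e h2
        · rw [Bool.eq_false_iff]
          intro h3
          have h4 := frst_unique W hg h3 hn1
          have h5 : n1 + 1 ≤ n := le_trans (le_max_right _ _) hn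
          omega
      · refine ⟨n0, fun n hn e he => ?_⟩
        rcases Nat.lt_succ_iff_lt_or_eq.1 he with h2 | rfl
        · exact h0 n hn e h2
        · rw [Bool.eq_false_iff]
          exact fun h3 => hex ⟨n, h3⟩
  obtain ⟨n0, h0⟩ := h1 r
  refine ⟨max n0 r, fun n hn hk => ?_⟩
  have hn0 : n0 ≤ n := le_trans (le_max_left _ _) hn
  have hnr : r ≤ n := le_trans (le_max_right _ _) hn
  refine FF_mono W hg ?_ n
  by_contra hlt
  push Not at hlt
  rcases sel_spec W hg x n with h2 | h2
  · omega
  · rcases (stop_iff W hg).1 h2 with h3 | h3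
    · rw [h0 n hn0 _ hlt] at h3
      exact absurd h3 (by simp)
    · exact hk _ hlt h3

end Pool.Agent.H83.NT
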