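import Mathlib

/-!
A universal computable function for the primitive recursive functions (taken from
`Pool/Agent/H80/IndexEnum.lean`).
-/

namespace Pool.Agent.H83.NT

open Encodable Denumerable
open Nat.Partrec (Code)

/-- evaluation of a code as a primitive recursive function (unbounded search is switched off) -/
def prEval : Code → ℕ → ℕ
  | .zero, _ => 0
  | .succ, n => n + 1
  | .left, n => n.unpair.1
  | .right, n => n.unpair.2
  | .pair cf cg, n => Nat.pair (prEval cf n) (prEval cg n)
  | .comp cf cg, n => prEval cf (prEval cg n)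
  | .prec cf cg, n =>
    Nat.rec (prEval cf n.unpair.1)
      (fun y IH => prEval cg (Nat.pair n.unpair.1 (Nat.pair y IH))) n.unpair.2
  | .rfind' _, _ => 0

/-- removal of unbounded search -/
def tr : Code → Code
  | .zero => .zero
  | .succ => .succ
  | .left => .left
  | .right => .right
  | .pair cf cg => .pair (tr cf) (tr cg)
  | .comp cf cg => .comp (tr cf) (tr cg)
  | .prec cf cg => .prec (tr cf) (tr cg)
  | .rfind' _ => .zero

theorem eval_tr : ∀ (c : Code) (n : ℕ), Code.eval (tr c) n = Part.some (prEval c n)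
  | .zero, n => rfl
  | .succ, n => rfl
  | .left, n => rfl
  | .right, n => rfl
  | .pair cf cg, n => by
    have h1 := eval_tr cf n
    have h2 := eval_tr cg n
    simp [tr, Code.eval, prEval, h1, h2, Seq.seq]
  | .comp cf cg, n => by
    have h2 := eval_tr cg n
    have h1 := eval_tr cf (prEval cg n)
    have h3 : Code.eval (tr (.comp cf cg)) n =
        Part.bind (Code.eval (tr cg) n) (fun m => Code.eval (tr cf) m) := rfl
    rw [h3, h2, Part.bind_some, h1]
    rfl
  | .prec cf cg, n => by
    obtain ⟨a, m, rfl⟩ : ∃ a m, n = Nat.pair a m := ⟨n.unpair.1, n.unpair.2, by simp⟩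
    simp only [tr, prEval, Nat.unpair_pair]
    induction m with
    | zero =>
      rw [Code.eval_prec_zero, eval_tr cf a]
      rfl
    | succ m ih =>
      rw [Code.eval_prec_succ, ih]
      simp [eval_tr cg]
  | .rfind' _, n => rfl

theorem primrec_tr : Primrec tr := by
  have h := Code.primrec_recOn (α := Code) (σ := Code) (c := fun c => c) Primrec.id
    (z := fun _ => Code.zero) (Primrec.const _) (s := fun _ => Code.succ) (Primrec.const _)
    (l := fun _ => Code.left) (Primrec.const _) (r := fun _ => Code.right) (Primrec.const _)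
    (pr := fun _ _ _ a b => Code.pair a b)
    (Code.primrec₂_pair.comp (Primrec.fst.comp (Primrec.snd.comp (Primrec.snd.comp Primrec.snd)))
      (Primrec.snd.comp (Primrec.snd.comp (Primrec.snd.comp Primrec.snd))))
    (co := fun _ _ _ a b => Code.comp a b)
    (Code.primrec₂_comp.comp (Primrec.fst.comp (Primrec.snd.comp (Primrec.snd.comp Primrec.snd)))
      (Primrec.snd.comp (Primrec.snd.comp (Primrec.snd.comp Primrec.snd))))
    (pc := fun _ _ _ a b => Code.prec a b)
    (Code.primrec₂_prec.comp (Primrec.fst.comp (Primrec.snd.comp (Primrec.snd.comp Primrec.snd)))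
      (Primrec.snd.comp (Primrec.snd.comp (Primrec.snd.comp Primrec.snd))))
    (rf := fun _ _ _ => Code.zero) (Primrec.const _)
  refine Primrec.of_eq h (fun c => ?_)
  induction c with
  | zero => rfl
  | succ => rfl
  | left => rfl
  | right => rfl
  | pair cf cg h1 h2 => simp only [tr]; rw [← h1, ← h2]
  | comp cf cg h1 h2 => simp only [tr]; rw [← h1, ← h2]
  | prec cf cg h1 h2 => simp only [tr]; rw [← h1, ← h2]
  | rfind' cf _ => rfl

theorem computable_prEval : Computable₂ prEval := by
  have h : Partrec (fun p : Code × ℕ => Code.eval (tr p.1) p.2) :=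
    Code.eval_part.comp (primrec_tr.to_comp.comp Computable.fst) Computable.snd
  exact h.of_eq_tot (fun p => by rw [eval_tr]; exact Part.mem_some _)

theorem primrec_prEval (c : Code) : Nat.Primrec (prEval c) := by
  induction c with
  | zero => exact Nat.Primrec.zero
  | succ => exact Nat.Primrec.succ
  | left => exact Nat.Primrec.left
  | right => exact Nat.Primrec.right
  | pair cf cg h1 h2 => exact h1.pair h2
  | comp cf cg h1 h2 => exact h1.comp h2
  | prec cf cg h1 h2 => exact (h1.prec h2)
  | rfind' cf _ => exact Nat.Primrec.const 0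

theorem exists_prEval {f : ℕ → ℕ} (hf : Nat.Primrec f) : ∃ c, prEval c = f := by
  induction hf with
  | zero => exact ⟨.zero, rfl⟩
  | succ => exact ⟨.succ, rfl⟩
  | left => exact ⟨.left, rfl⟩
  | right => exact ⟨.right, rfl⟩
  | pair _ _ h1 h2 =>
    obtain ⟨c1, rfl⟩ := h1
    obtain ⟨c2, rfl⟩ := h2
    exact ⟨.pair c1 c2, rfl⟩
  | comp _ _ h1 h2 =>
    obtain ⟨c1, rfl⟩ := h1
    obtain ⟨c2, rfl⟩ := h2
    exact ⟨.comp c1 c2, rfl⟩
  | prec _ _ h1 h2 =>
    obtain ⟨c1, rfl⟩ := h1
    obtain ⟨c2, rfl⟩ := h2
    exact ⟨.prec c1 c2, rfl⟩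

end Pool.Agent.H83.NT
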