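import Pool.Agent.Lead.NTM
import Pool.Agent.H83.NT.PrEval

/-!
For a fixed nondeterministic Turing machine, the relation `AcceptsIn M w s` is
primitive recursive.
-/

namespace Pool.Agent.H83.NT

open Function Pool.Agent.Lead.NTM

/-- Codes of tapes: cells left of the head, scanned cell, cells right of the head. -/
abbrev TC : Type := List ℕ × ℕ × List ℕ

/-- Codes of configurations. -/
abbrev CC (k : ℕ) : Type := ℕ × (Fin (k + 1) → TC)

/-- Moving the head on a tape code; `0` is the blank. -/
def moveT : Move → TC → TC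
  | .left, t => (t.1.tail, t.1.headI, t.2.1 :: t.2.2)
  | .stay, t => t
  | .right, t => (t.2.1 :: t.1, t.2.2.headI, t.2.2.tail)

theorem primrec_moveT (m : Move) : Primrec (moveT m) := by
  have h1 : Primrec fun t : TC => t.1 := Primrec.fst
  have h2 : Primrec fun t : TC => t.2.1 := Primrec.fst.comp Primrec.snd
  have h3 : Primrec fun t : TC => t.2.2 := Primrec.snd.comp Primrec.snd
  cases m with
  | left =>
    exact (Primrec.list_tail.comp h1).pair
      ((Primrec.list_headI.comp h1).pair (Primrec.list_cons.comp h2 h3))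
  | stay => exact Primrec.id
  | right =>
    exact (Primrec.list_cons.comp h2 h1).pair
      ((Primrec.list_headI.comp h3).pair (Primrec.list_tail.comp h3))

/-- Rules: state, scanned letters, new state, written letters, moves. -/
structure Rule (k : ℕ) : Type where
  q : ℕ
  x : Fin (k + 1) → ℕ
  q' : ℕ
  y : Fin (k + 1) → ℕ
  m : Fin (k + 1) → Move

/-- Does a rule apply? -/
def Rule.Match {k : ℕ} (r : Rule k) (c : CC k) : Prop :=
  c.1 = r.q ∧ (fun i => (c.2 i).2.1) = r.x

instance {k : ℕ} (r : Rule k) (c : CC k) : Decidable (r.Match c) := by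
  unfold Rule.Match; infer_instance

/-- Application of a rule. -/
def Rule.app {k : ℕ} (r : Rule k) (c : CC k) : CC k :=
  (r.q', fun i => moveT (r.m i) ((c.2 i).1, r.y i, (c.2 i).2.2))

/-- Successors of a configuration code. -/
def succs {k : ℕ} : List (Rule k) → CC k → List (CC k)
  | [], _ => []
  | r :: rs, c => (if r.Match c then [r.app c] else []) ++ succs rs c

theorem mem_succs {k : ℕ} {rs : List (Rule k)} {c c' : CC k} :
    c' ∈ succs rs c ↔ ∃ r ∈ rs, r.Match c ∧ c' = r.app c := by
  induction rs with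
  | nil => simp [succs]
  | cons r rs ih =>
    rw [succs, List.mem_append, ih]
    by_cases h : r.Match c
    · simp [h]
    · simp [h]

theorem primrec_app {k : ℕ} (r : Rule k) : Primrec r.app := by
  refine (Primrec.const _).pair ?_
  rw [Primrec.fin_curry]
  have h : Primrec₂ fun (i : Fin (k + 1)) (c : CC k) =>
      moveT (r.m i) ((c.2 i).1, r.y i, (c.2 i).2.2) := by
    rw [Primrec.fin_curry₁]
    intro i
    have hc : Primrec fun c : CC k => c.2 i := Primrec.fin_app.comp Primrec.snd (Primrec.const i)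
    exact (primrec_moveT (r.m i)).comp ((Primrec.fst.comp hc).pair
      ((Primrec.const _).pair (Primrec.snd.comp (Primrec.snd.comp hc))))
  exact h.swap

theorem primrecPred_match {k : ℕ} (r : Rule k) : PrimrecPred r.Match := by
  refine (Primrec.eq.comp Primrec.fst (Primrec.const _)).and ?_
  refine Primrec.eq.comp ?_ (Primrec.const _)
  rw [Primrec.fin_curry]
  exact Primrec.fst.comp (Primrec.snd.comp (Primrec.fin_app.comp (Primrec.snd.comp Primrec.fst)
    Primrec.snd))

theorem primrec_succs {k : ℕ} (rs : List (Rule k)) : Primrec (succs rs) := by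
  induction rs with
  | nil => exact Primrec.const _
  | cons r rs ih =>
    exact Primrec.list_append.comp (Primrec.ite (primrecPred_match r)
      (Primrec.list_cons.comp (primrec_app r) (Primrec.const [])) (Primrec.const [])) ih

/-- The configuration codes reached in `s` steps. -/
def confs {k : ℕ} (rs : List (Rule k)) (c : CC k) (s : ℕ) : List (CC k) :=
  (fun L : List (CC k) => L.flatMap (succs rs))^[s] [c]

theorem confs_succ {k : ℕ} (rs : List (Rule k)) (c : CC k) (s : ℕ) :
    confs rs c (s + 1) = (confs rs c s).flatMap (succs rs) := by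
  unfold confs
  rw [iterate_succ_apply']

/-- The start configuration. -/
def startC (k q : ℕ) (u : List ℕ) : CC k :=
  (q, fun i => if i = 0 then ([], (u.map Nat.succ).headI, (u.map Nat.succ).tail) else ([], 0, []))

theorem primrec_startC (k q : ℕ) : Primrec (startC k q) := by
  refine (Primrec.const _).pair ?_
  rw [Primrec.fin_curry]
  have hm : Primrec fun u : List ℕ => u.map Nat.succ :=
    Primrec.list_map Primrec.id (Primrec.succ.comp Primrec.snd).to₂
  exact Primrec.ite (Primrec.eq.comp Primrec.snd (Primrec.const _))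
    ((Primrec.const _).pair ((Primrec.list_headI.comp (hm.comp Primrec.fst)).pair
      (Primrec.list_tail.comp (hm.comp Primrec.fst)))) (Primrec.const _)

theorem primrec_confs {k : ℕ} (rs : List (Rule k)) (q : ℕ) :
    Primrec fun p : List ℕ × ℕ => confs rs (startC k q p.1) p.2 := by
  refine Primrec.nat_iterate Primrec.snd (Primrec.list_cons.comp
    ((primrec_startC k q).comp Primrec.fst) (Primrec.const [])) ?_
  exact (Primrec.list_flatMap Primrec.snd ((primrec_succs rs).comp Primrec.snd).to₂).to₂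

/-- Acceptance test. -/
def accC {k : ℕ} (rs : List (Rule k)) (q : ℕ) (F : List ℕ) (u : List ℕ) (s : ℕ) : Prop :=
  ∃ c ∈ confs rs (startC k q u) s, c.1 ∈ F

theorem primrecPred_accC {k : ℕ} (rs : List (Rule k)) (q : ℕ) (F : List ℕ) :
    PrimrecPred fun p : List ℕ × ℕ => accC rs q F p.1 p.2 := by
  have h1 : PrimrecPred fun c : CC k => c.1 ∈ F := by
    have h : PrimrecPred fun c : CC k => ∃ a ∈ F, a = c.1 :=
      (PrimrecRel.exists_mem_list (R := fun (a b : ℕ) => a = b) Primrec.eq).comp
        (Primrec.const F) Primrec.fst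
    exact h.of_eq fun c => by simp
  exact h1.exists_mem_list.comp (primrec_confs rs q)

section

variable {A : Type} (M : Machine A)

/-- The configurations reached in `s` steps. -/
def Rch (w : List A) : ℕ → Config M → Prop
  | 0, c => c = startConfig M w
  | s + 1, c' => ∃ c, Rch w s c ∧ Step M c c'

theorem rch_iff (w : List A) (s : ℕ) (c' : Config M) :
    Rch M w s c' ↔ ∃ c : ℕ → Config M, c 0 = startConfig M w ∧
      (∀ i < s, Step M (c i) (c (i + 1))) ∧ c s = c' := by
  induction s generalizing c' with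
  | zero =>
    constructor
    · intro h
      exact ⟨fun _ => c', h, fun i hi => absurd hi (Nat.not_lt_zero i), rfl⟩
    · rintro ⟨c, h1, -, rfl⟩
      exact h1
  | succ s ih =>
    constructor
    · rintro ⟨d, h1, h2⟩
      obtain ⟨c, h3, h4, rfl⟩ := (ih d).1 h1
      refine ⟨fun i => if i ≤ s then c i else c', by simp [h3], ?_, by simp⟩
      intro i hi
      by_cases his : i < s
      · simp only [if_pos his.le, if_pos (show i + 1 ≤ s by omega)]
        exact h4 i his
      · obtain rfl : i = s := by omega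
        simp only [le_refl, if_true, if_neg (show ¬ i + 1 ≤ i by omega)]
        exact h2
    · rintro ⟨c, h1, h2, rfl⟩
      exact ⟨c s, (ih _).2 ⟨c, h1, fun i hi => h2 i (by omega), rfl⟩, h2 s (by omega)⟩

theorem acceptsIn_iff_rch (w : List A) (s : ℕ) :
    AcceptsIn M w s ↔ ∃ c, Rch M w s c ∧ c.state ∈ M.accepting := by
  constructor
  · rintro ⟨c, h1, h2, h3⟩
    exact ⟨c s, (rch_iff M w s _).2 ⟨c, h1, h2, rfl⟩, h3⟩
  · rintro ⟨c', h1, h2⟩
    obtain ⟨c, h3, h4, rfl⟩ := (rch_iff M w s _).1 h1
    exact ⟨c, h3, h4, h2⟩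

/-- `t` codes the tape content `T` with the head at `p`, letters coded by `el`. -/
def TRep {L : Type} (el : L → ℕ) (T : ℤ → L) (p : ℤ) (t : TC) : Prop :=
  t.2.1 = el (T p) ∧ (∀ j : ℕ, t.1.getD j 0 = el (T (p - 1 - j))) ∧
    ∀ j : ℕ, t.2.2.getD j 0 = el (T (p + 1 + j))

theorem headI_eq_getD (l : List ℕ) : l.headI = l.getD 0 0 := by
  cases l <;> rfl

theorem tail_getD (l : List ℕ) (j : ℕ) : l.tail.getD j 0 = l.getD (j + 1) 0 := by
  cases l <;> simp

theorem TRep.move {L : Type} {el : L → ℕ} {T : ℤ → L} {p : ℤ} {t : TC} (h : TRep el T p t)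
    (m : Move) : TRep el T (p + m.toInt) (moveT m t) := by
  obtain ⟨h1, h2, h3⟩ := h
  cases m with
  | left =>
    refine ⟨?_, fun j => ?_, fun j => ?_⟩
    · simp only [moveT, Move.toInt]
      rw [headI_eq_getD, h2]
      simp [sub_eq_add_neg]
    · simp only [moveT, Move.toInt]
      rw [tail_getD, h2]
      congr 2
      push_cast
      ring
    · simp only [moveT, Move.toInt]
      cases j with
      | zero => simp [h1]
      | succ j =>
        simp only [List.getD_cons_succ]
        rw [h3]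
        congr 2
        push_cast
        ring
  | stay => simpa [moveT, Move.toInt] using ⟨h1, h2, h3⟩
  | right =>
    refine ⟨?_, fun j => ?_, fun j => ?_⟩
    · simp only [moveT, Move.toInt]
      rw [headI_eq_getD, h3]
      simp
    · simp only [moveT, Move.toInt]
      cases j with
      | zero => simp [h1]
      | succ j =>
        simp only [List.getD_cons_succ]
        rw [h2]
        congr 2
        push_cast
        ring
    · simp only [moveT, Move.toInt]
      rw [tail_getD, h3]
      congr 2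
      push_cast
      ring

theorem TRep.write {L : Type} {el : L → ℕ} {T : ℤ → L} {p : ℤ} {t : TC} (h : TRep el T p t)
    (a : L) : TRep el (update T p a) p (t.1, el a, t.2.2) := by
  obtain ⟨h1, h2, h3⟩ := h
  refine ⟨by simp, fun j => ?_, fun j => ?_⟩
  · rw [update_of_ne (by omega)]
    exact h2 j
  · rw [update_of_ne (by omega)]
    exact h3 j

/-- `κ` codes the configuration `c`. -/
def CRep (eq : M.Q → ℕ) (el : Option (A ⊕ M.G) → ℕ) (c : Config M) (κ : CC M.k) : Prop :=
  κ.1 = eq c.state ∧ ∀ i, TRep el (c.tape i) (c.pos i) (κ.2 i)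

/-- The set of rules of `M`. -/
def IsRule (eq : M.Q → ℕ) (el : Option (A ⊕ M.G) → ℕ) (r : Rule M.k) : Prop :=
  ∃ (q : M.Q) (x : Fin (M.k + 1) → Option (A ⊕ M.G)) (ρ : _) (_ : ρ ∈ M.δ q x),
    r = ⟨eq q, fun i => el (x i), eq ρ.1, fun i => el (ρ.2.1 i), ρ.2.2⟩

variable {M}

theorem step_of_succ {eq : M.Q → ℕ} {el : Option (A ⊕ M.G) → ℕ} (heq : Injective eq)
    (hel : Injective el) {rs : List (Rule M.k)} (hrs : ∀ r, r ∈ rs ↔ IsRule M eq el r)
    {c : Config M} {κ κ' : CC M.k} (h : CRep M eq el c κ) (hκ : κ' ∈ succs rs κ) :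
    ∃ c', Step M c c' ∧ CRep M eq el c' κ' := by
  rw [mem_succs] at hκ
  obtain ⟨r, hr, hm, rfl⟩ := hκ
  obtain ⟨q, x, ρ, hρ, rfl⟩ := (hrs r).1 hr
  obtain ⟨hm1, hm2⟩ := hm
  obtain ⟨h1, h2⟩ := h
  have hq : q = c.state := heq (by rw [← h1, hm1])
  have hx : x = fun i => c.tape i (c.pos i) := by
    funext i
    apply hel
    have := congrFun hm2 i
    simp only at this
    rw [← this]
    exact (h2 i).1
  subst hq
  refine ⟨⟨ρ.1, fun i => update (c.tape i) (c.pos i) (ρ.2.1 i),
    fun i => c.pos i + (ρ.2.2 i).toInt⟩, ⟨ρ, by rw [← hx]; exact hρ, rfl, rfl, rfl⟩, rfl, ?_⟩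
  intro i
  exact ((h2 i).write (ρ.2.1 i)).move (ρ.2.2 i)

theorem succ_of_step {eq : M.Q → ℕ} {el : Option (A ⊕ M.G) → ℕ}
    {rs : List (Rule M.k)} (hrs : ∀ r, r ∈ rs ↔ IsRule M eq el r)
    {c c' : Config M} {κ : CC M.k} (h : CRep M eq el c κ) (hs : Step M c c') :
    ∃ κ' ∈ succs rs κ, CRep M eq el c' κ' := by
  obtain ⟨ρ, hρ, h3, h4, h5⟩ := hs
  obtain ⟨h1, h2⟩ := h
  refine ⟨Rule.app ⟨eq c.state, fun i => el (c.tape i (c.pos i)), eq ρ.1,
    fun i => el (ρ.2.1 i), ρ.2.2⟩ κ, ?_, ?_⟩
  · rw [mem_succs]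
    refine ⟨_, (hrs _).2 ⟨c.state, _, ρ, hρ, rfl⟩, ⟨h1, ?_⟩, rfl⟩
    funext i
    exact (h2 i).1
  · refine ⟨by rw [h3]; rfl, ?_⟩
    intro i
    rw [h4, h5]
    exact ((h2 i).write (ρ.2.1 i)).move (ρ.2.2 i)

theorem rep_start {eq : M.Q → ℕ} {el : Option (A ⊕ M.G) → ℕ} {e : A → ℕ}
    (hel0 : el none = 0) (hel1 : ∀ a, el (some (Sum.inl a)) = e a + 1) (w : List A) :
    CRep M eq el (startConfig M w) (startC M.k (eq M.start) (w.map e)) := by
  refine ⟨rfl, fun i => ?_⟩
  have hw : ∀ j : ℕ, (((w.map e).map Nat.succ).getD j 0) = el ((w[j]?).map Sum.inl) := by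
    intro j
    rw [List.getD_eq_getElem?_getD, List.map_map, List.getElem?_map]
    rcases w[j]? with _ | a
    · simp [hel0]
    · simp [hel1]
  by_cases hi : i = 0
  · subst hi
    simp only [startC, startConfig, if_true]
    refine ⟨?_, fun j => ?_, fun j => ?_⟩
    · simp only [wordTape]
      rw [headI_eq_getD, hw]
      simp
    · simp only [wordTape]
      rw [if_neg (by omega), hel0]
      simp
    · simp only [wordTape]
      rw [tail_getD, hw, if_pos (by omega)]
      have : ((0 : ℤ) + 1 + j).toNat = j + 1 := by omega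
      rw [this]
  · simp only [startC, startConfig, if_neg hi]
    exact ⟨by simp [hel0], fun j => by simp [hel0], fun j => by simp [hel0]⟩

theorem rch_iff_confs {eq : M.Q → ℕ} {el : Option (A ⊕ M.G) → ℕ} {e : A → ℕ}
    (heq : Injective eq) (hel : Injective el)
    (hel0 : el none = 0) (hel1 : ∀ a, el (some (Sum.inl a)) = e a + 1)
    {rs : List (Rule M.k)} (hrs : ∀ r, r ∈ rs ↔ IsRule M eq el r) (w : List A) (s : ℕ) :
    (∀ c, Rch M w s c → ∃ κ ∈ confs rs (startC M.k (eq M.start) (w.map e)) s,
      CRep M eq el c κ) ∧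
    ∀ κ ∈ confs rs (startC M.k (eq M.start) (w.map e)) s, ∃ c, Rch M w s c ∧ CRep M eq el c κ := by
  induction s with
  | zero =>
    constructor
    · rintro c rfl
      exact ⟨_, by simp [confs], rep_start hel0 hel1 w⟩
    · intro κ hκ
      have : κ = startC M.k (eq M.start) (w.map e) := by simpa [confs] using hκ
      subst this
      exact ⟨_, rfl, rep_start hel0 hel1 w⟩
  | succ s ih =>
    rw [confs_succ]
    constructor
    · rintro c ⟨d, h1, h2⟩
      obtain ⟨κ, h3, h4⟩ := ih.1 d h1
      obtain ⟨κ', h5, h6⟩ := succ_of_step hrs h4 h2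
      exact ⟨κ', List.mem_flatMap.2 ⟨κ, h3, h5⟩, h6⟩
    · intro κ' hκ'
      obtain ⟨κ, h3, h5⟩ := List.mem_flatMap.1 hκ'
      obtain ⟨d, h1, h4⟩ := ih.2 κ h3
      obtain ⟨c, h6, h7⟩ := step_of_succ heq hel hrs h4 h5
      exact ⟨c, ⟨d, h1, h6⟩, h7⟩

end

/-- For each machine, acceptance in exactly `s` steps is a primitive recursive relation of the
(coded) input and `s`. -/
theorem exists_prim {A : Type} [Finite A] (M : Machine A) (e : A → ℕ) (he : Injective e) :
    ∃ P : List ℕ × ℕ → Prop, PrimrecPred P ∧ ∀ w s, AcceptsIn M w s ↔ P (w.map e, s) := by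
  classical
  have := M.finQ
  have := M.finG
  obtain ⟨nq, ⟨fq⟩⟩ := Finite.exists_equiv_fin M.Q
  obtain ⟨ng, ⟨fg⟩⟩ := Finite.exists_equiv_fin M.G
  obtain ⟨m, hm⟩ : ∃ m, ∀ a, e a < m := by
    cases nonempty_fintype A
    exact ⟨Finset.univ.sup e + 1, fun a => Nat.lt_succ_of_le (Finset.le_sup (Finset.mem_univ a))⟩
  set eq : M.Q → ℕ := fun q => fq q with heq
  set el : Option (A ⊕ M.G) → ℕ := fun x => match x with
    | none => 0
    | some (Sum.inl a) => e a + 1
    | some (Sum.inr g) => m + 1 + fg g with hel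
  have ieq : Injective eq := fun a b h => fq.injective (Fin.ext h)
  have iel : Injective el := by
    intro x y h
    rcases x with _ | (a | g) <;> rcases y with _ | (b | g') <;> simp only [hel] at h
    · rfl
    · omega
    · omega
    · omega
    · rw [he (Nat.succ_injective h)]
    · have := hm a; omega
    · omega
    · have := hm b; omega
    · have h' : (fg g : ℕ) = fg g' := by omega
      rw [fg.injective (Fin.ext h')]
  -- the finite list of rules
  have hfin : Set.Finite {r : Rule M.k | IsRule M eq el r} := by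
    have : Finite Move := by
      refine Finite.of_injective (β := Fin 3) (fun m => match m with
        | .left => 0 | .stay => 1 | .right => 2) ?_
      intro a b h
      cases a <;> cases b <;> simp_all
    let g : (M.Q × (Fin (M.k + 1) → Option (A ⊕ M.G))) × (M.Q × (Fin (M.k + 1) →
        Option (A ⊕ M.G)) × (Fin (M.k + 1) → Move)) → Rule M.k :=
      fun p => ⟨eq p.1.1, fun i => el (p.1.2 i), eq p.2.1, fun i => el (p.2.2.1 i), p.2.2.2⟩
    refine (Set.finite_range g).subset ?_
    rintro r ⟨q, x, ρ, hρ, rfl⟩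
    exact ⟨((q, x), ρ), rfl⟩
  have hF : Set.Finite {q : ℕ | ∃ s ∈ M.accepting, q = eq s} := by
    refine (Set.finite_range eq).subset ?_
    rintro q ⟨s, -, rfl⟩
    exact ⟨s, rfl⟩
  refine ⟨fun p => accC hfin.toFinset.toList (eq M.start) hF.toFinset.toList p.1 p.2,
    primrecPred_accC _ _ _, fun w s => ?_⟩
  have hrs : ∀ r, r ∈ hfin.toFinset.toList ↔ IsRule M eq el r := by
    intro r
    simp
  have key := rch_iff_confs (e := e) ieq iel rfl (fun _ => rfl) hrs w s
  rw [acceptsIn_iff_rch]
  unfold accC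
  constructor
  · rintro ⟨c, h1, h2⟩
    obtain ⟨κ, h3, h4⟩ := key.1 c h1
    refine ⟨κ, h3, ?_⟩
    simp only [Finset.mem_toList, Set.Finite.mem_toFinset, Set.mem_ofPred_eq]
    exact ⟨c.state, h2, h4.1⟩
  · rintro ⟨κ, h3, h4⟩
    obtain ⟨c, h1, h2⟩ := key.2 κ h3
    simp only [Finset.mem_toList, Set.Finite.mem_toFinset, Set.mem_ofPred_eq] at h4
    obtain ⟨s', h5, h6⟩ := h4
    refine ⟨c, h1, ?_⟩
    have : c.state = s' := ieq (by rw [← h2.1, h6])
    rw [this]
    exact h5

/-- The same with the universal function for primitive recursive functions. -/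
theorem exists_code {A : Type} [Finite A] (M : Machine A) (e : A → ℕ) (he : Injective e) :
    ∃ c : Nat.Partrec.Code, ∀ w s, AcceptsIn M w s ↔
      prEval c (Nat.pair (Encodable.encode (w.map e)) s) = 1 := by
  classical
  obtain ⟨P, hP, h⟩ := exists_prim M e he
  have hf : Primrec fun n : ℕ => if P (Denumerable.ofNat (List ℕ) n.unpair.1, n.unpair.2)
      then 1 else 0 := by
    refine Primrec.ite ?_ (Primrec.const 1) (Primrec.const 0)
    exact hP.comp (((Primrec.ofNat (List ℕ)).comp (Primrec.fst.comp Primrec.unpair)).pair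
      (Primrec.snd.comp Primrec.unpair))
  obtain ⟨c, hc⟩ := exists_prEval (Primrec.nat_iff.1 hf)
  refine ⟨c, fun w s => ?_⟩
  rw [hc, h]
  simp

end Pool.Agent.H83.NT
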