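import Pool.Agent.H83.NT.Univ

/-!
Auxiliary computable functions: words of a given length, bounded search, bounded acceptance.
-/

namespace Pool.Agent.H83.NT

open Function Pool.Agent.Lead.NTM Encodable Denumerable
open Nat.Partrec (Code)

/-- The words of length `n` over the letters `< m`. -/
def words (m : ℕ) (n : ℕ) : List (List ℕ) :=
  Nat.rec [[]] (fun _ L => L.flatMap fun u => (List.range m).map fun a => a :: u) n

theorem mem_words {m n : ℕ} {u : List ℕ} : u ∈ words m n ↔ u.length = n ∧ ∀ a ∈ u, a < m := by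
  induction n generalizing u with
  | zero =>
    show u ∈ [[]] ↔ _
    simp only [List.mem_singleton, List.length_eq_zero_iff]
    constructor
    · rintro rfl; simp
    · exact fun h => h.1
  | succ n ih =>
    show u ∈ (words m n).flatMap (fun u => (List.range m).map fun a => a :: u) ↔ _
    simp only [List.mem_flatMap, List.mem_map, List.mem_range]
    constructor
    · rintro ⟨v, hv, a, ha, rfl⟩
      obtain ⟨h1, h2⟩ := ih.1 hv
      refine ⟨by simp [h1], ?_⟩
      simp only [List.mem_cons]
      rintro b (rfl | hb)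
      · exact ha
      · exact h2 b hb
    · rintro ⟨h1, h2⟩
      rcases u with _ | ⟨a, v⟩
      · simp at h1
      · simp only [List.length_cons, Nat.add_right_cancel_iff] at h1
        exact ⟨v, ih.2 ⟨h1, fun b hb => h2 b (List.mem_cons_of_mem _ hb)⟩, a,
          h2 a List.mem_cons_self, rfl⟩

theorem primrec_words : Primrec₂ words := by
  have h1 : Primrec₂ fun (q : ((ℕ × ℕ) × (ℕ × List (List ℕ))) × List ℕ) (a : ℕ) => a :: q.2 :=
    Primrec.list_cons.comp Primrec.snd (Primrec.snd.comp Primrec.fst)
  have h2 : Primrec₂ fun (p : (ℕ × ℕ) × (ℕ × List (List ℕ))) (u : List ℕ) =>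
      (List.range p.1.1).map fun a => a :: u :=
    Primrec.list_map (Primrec.list_range.comp (Primrec.fst.comp (Primrec.fst.comp
      Primrec.fst))) h1
  have h3 : Primrec₂ fun (p : ℕ × ℕ) (q : ℕ × List (List ℕ)) =>
      q.2.flatMap fun u => (List.range p.1).map fun a => a :: u :=
    Primrec.list_flatMap (Primrec.snd.comp Primrec.snd) h2
  exact Primrec.nat_rec' Primrec.snd (Primrec.const [[]]) h3

/-- Bounded search. -/
theorem computable_bex {α : Type} [Primcodable α] {p : α → ℕ → Bool} (hp : Computable₂ p)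
    {N : α → ℕ} (hN : Computable N) : Computable fun a => decide (∃ j < N a, p a j = true) := by
  have h : Computable fun a => Nat.rec (motive := fun _ => Bool) false
      (fun j ih => ih || p a j) (N a) := by
    have h3 : Computable₂ fun (a : α) (q : ℕ × Bool) => q.2 || p a q.1 :=
      (Primrec.or.to_comp).comp (Computable.snd.comp Computable.snd)
        (hp.comp Computable.fst (Computable.fst.comp Computable.snd))
    exact Computable.nat_rec hN (Computable.const false) h3
  refine h.of_eq fun a => ?_
  generalize N a = n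
  induction n with
  | zero => simp
  | succ n ih =>
    simp only [ih]
    rw [Bool.eq_iff_iff]
    simp only [Bool.or_eq_true, decide_eq_true_eq]
    constructor
    · rintro (⟨j, h1, h2⟩ | h1)
      · exact ⟨j, by omega, h2⟩
      · exact ⟨n, by omega, h1⟩
    · rintro ⟨j, h1, h2⟩
      rcases Nat.lt_succ_iff_lt_or_eq.1 h1 with h3 | rfl
      · exact Or.inl ⟨j, h3, h2⟩
      · exact Or.inr h2

/-- Acceptance within `N` steps, for the primitive recursive function with code `c`. -/
def accB (c : Code) (u : List ℕ) (N : ℕ) : Bool :=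
  decide (∃ s < N + 1, decide (prEval c (Nat.pair (encode u) s) = 1) = true)

theorem accB_iff {c : Code} {u : List ℕ} {N : ℕ} :
    accB c u N = true ↔ ∃ s ≤ N, prEval c (Nat.pair (encode u) s) = 1 := by
  unfold accB
  simp only [decide_eq_true_eq, Nat.lt_succ_iff]

theorem accB_mono {c : Code} {u : List ℕ} {N N' : ℕ} (h : N ≤ N') (hN : accB c u N = true) :
    accB c u N' = true := by
  rw [accB_iff] at hN ⊢
  obtain ⟨s, h1, h2⟩ := hN
  exact ⟨s, by omega, h2⟩

theorem computable_accB : Computable fun p : (Code × List ℕ) × ℕ => accB p.1.1 p.1.2 p.2 := by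
  refine computable_bex ?_ (Computable.succ.comp Computable.snd)
  have h : Computable fun q : ((Code × List ℕ) × ℕ) × ℕ =>
      prEval q.1.1.1 (Nat.pair (encode q.1.1.2) q.2) :=
    computable_prEval.comp (Computable.fst.comp (Computable.fst.comp Computable.fst))
      (Primrec₂.natPair.to_comp.comp (Computable.encode.comp
        (Computable.snd.comp (Computable.fst.comp Computable.fst))) Computable.snd)
  have h2 : Computable₂ fun (a b : ℕ) => decide (a = b) := (Primrec.eq (α := ℕ)).decide.to_comp
  exact h2.comp h (Computable.const 1)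

/-- The alphabet size of the requirement `e`. -/
def eM (e : ℕ) : ℕ := e.unpair.1

/-- The code of the requirement `e`. -/
def eC (e : ℕ) : Code := ofNat Code e.unpair.2.unpair.1

/-- The degree of the requirement `e`. -/
def eD (e : ℕ) : ℕ := e.unpair.2.unpair.2

theorem primrec_eM : Primrec eM := Primrec.fst.comp Primrec.unpair

theorem primrec_eC : Primrec eC :=
  (Primrec.ofNat Code).comp (Primrec.fst.comp (Primrec.unpair.comp
    (Primrec.snd.comp Primrec.unpair)))

theorem primrec_eD : Primrec eD :=
  Primrec.snd.comp (Primrec.unpair.comp (Primrec.snd.comp Primrec.unpair))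

/-- The polynomials `(x + d) ^ d`. -/
def Pl (d x : ℕ) : ℕ := (x + d) ^ d

theorem primrec_Pl : Primrec₂ Pl := by
  have hpow : Primrec₂ ((· ^ ·) : ℕ → ℕ → ℕ) := Primrec₂.unpaired'.1 Nat.Primrec.pow
  exact hpow.comp (Primrec.nat_add.comp Primrec.snd Primrec.fst) Primrec.fst

theorem Pl_mono {d x y : ℕ} (h : x ≤ y) : Pl d x ≤ Pl d y :=
  Nat.pow_le_pow_left (by omega) d

theorem exists_Pl (p : Polynomial ℕ) : ∃ d, ∀ x, p.eval x ≤ Pl d x := by
  refine ⟨p.natDegree + p.eval 1 + 1, fun x => ?_⟩
  unfold Pl
  set d := p.natDegree + p.eval 1 + 1 with hd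
  have h1 : p.eval x ≤ p.eval 1 * (x + d) ^ p.natDegree := by
    rw [Polynomial.eval_eq_sum_range, Polynomial.eval_eq_sum_range, Finset.sum_mul]
    refine Finset.sum_le_sum fun i hi => ?_
    rw [Finset.mem_range] at hi
    rw [one_pow, mul_one]
    refine Nat.mul_le_mul_left _ ?_
    calc x ^ i ≤ (x + d) ^ i := Nat.pow_le_pow_left (by omega) i
      _ ≤ (x + d) ^ p.natDegree := Nat.pow_le_pow_right (by omega) (by omega)
  calc p.eval x ≤ p.eval 1 * (x + d) ^ p.natDegree := h1
    _ ≤ (x + d) * (x + d) ^ p.natDegree := Nat.mul_le_mul_right _ (by omega)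
    _ = (x + d) ^ (p.natDegree + 1) := by ring
    _ ≤ (x + d) ^ d := Nat.pow_le_pow_right (by omega) (by omega)

/-- Acceptance within `P (v) + K` steps. -/
def bt (e K : ℕ) (u : List ℕ) (v : ℕ) : Bool := accB (eC e) u (Pl (eD e) v + K)

theorem computable_bt : Computable fun p : (ℕ × ℕ) × (List ℕ × ℕ) =>
    bt p.1.1 p.1.2 p.2.1 p.2.2 := by
  have he : Computable fun p : (ℕ × ℕ) × (List ℕ × ℕ) => p.1.1 :=
    Computable.fst.comp Computable.fst
  have hK : Computable fun p : (ℕ × ℕ) × (List ℕ × ℕ) => p.1.2 :=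
    Computable.snd.comp Computable.fst
  have hu : Computable fun p : (ℕ × ℕ) × (List ℕ × ℕ) => p.2.1 :=
    Computable.fst.comp Computable.snd
  have hv : Computable fun p : (ℕ × ℕ) × (List ℕ × ℕ) => p.2.2 :=
    Computable.snd.comp Computable.snd
  have hC : Computable fun p : (ℕ × ℕ) × (List ℕ × ℕ) => eC p.1.1 := primrec_eC.to_comp.comp he
  have hD : Computable fun p : (ℕ × ℕ) × (List ℕ × ℕ) => eD p.1.1 := primrec_eD.to_comp.comp he
  have hP : Computable fun p : (ℕ × ℕ) × (List ℕ × ℕ) => Pl (eD p.1.1) p.2.2 :=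
    primrec_Pl.to_comp.comp hD hv
  have hPK : Computable fun p : (ℕ × ℕ) × (List ℕ × ℕ) => Pl (eD p.1.1) p.2.2 + p.1.2 :=
    Primrec.nat_add.to_comp.comp hP hK
  have h := computable_accB.comp ((hC.pair hu).pair hPK)
  exact h


end Pool.Agent.H83.NT
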