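import Pool.Agent.H83.NT.TowerA

/-!
Codes of the languages `{u | V p u (F (ix p) |u|) = b}`, given a code `k` of the two-place
function `F`.
-/

namespace Pool.Agent.H83.NT

open Function Pool.Agent.Lead.NTM Encodable Denumerable
open Nat.Partrec (Code)

attribute [local irreducible] T words eM eC eD Pl accB

/-- The index of the bound used by the parameter `p`. -/
def ix (p : ℕ) : ℕ := p.unpair.1

/-- The alphabet size of the parameter `p`. -/
def am (p : ℕ) : ℕ := p.unpair.2.unpair.1

theorem ix_le (p : ℕ) : ix p ≤ p := Nat.unpair_left_le p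

theorem primrec_ix : Primrec ix := Primrec.fst.comp Primrec.unpair

theorem primrec_am : Primrec am :=
  Primrec.fst.comp (Primrec.unpair.comp (Primrec.snd.comp Primrec.unpair))

/-- Components of the input of the semidecision procedure. -/
def cK (n : ℕ) : Code := ofNat Code n.unpair.1.unpair.1.unpair.1

def cP (n : ℕ) : ℕ := n.unpair.1.unpair.1.unpair.2

def cB (n : ℕ) : ℕ := n.unpair.1.unpair.2

def cU (n : ℕ) : List ℕ := ofNat (List ℕ) n.unpair.2

theorem primrec_cK : Primrec cK :=
  (Primrec.ofNat Code).comp (Primrec.fst.comp (Primrec.unpair.comp (Primrec.fst.comp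
    (Primrec.unpair.comp (Primrec.fst.comp Primrec.unpair)))))

theorem primrec_cP : Primrec cP :=
  Primrec.snd.comp (Primrec.unpair.comp (Primrec.fst.comp
    (Primrec.unpair.comp (Primrec.fst.comp Primrec.unpair))))

theorem primrec_cB : Primrec cB :=
  Primrec.snd.comp (Primrec.unpair.comp (Primrec.fst.comp Primrec.unpair))

theorem primrec_cU : Primrec cU :=
  (Primrec.ofNat (List ℕ)).comp (Primrec.snd.comp Primrec.unpair)

/-- The first part. -/
def Hv (n : ℕ) : Part ℕ := (cK n).eval (Nat.pair (ix (cP n)) (cU n).length)

theorem partrec_Hv : Partrec Hv := by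
  have h1 : Computable fun n => (cU n).length := Primrec.list_length.to_comp.comp
    primrec_cU.to_comp
  have h0 : Computable fun n => ix (cP n) := primrec_ix.to_comp.comp primrec_cP.to_comp
  have h2 : Computable fun n => Nat.pair (ix (cP n)) (cU n).length :=
    Primrec₂.natPair.to_comp.comp h0 h1
  have h := Code.eval_part.comp primrec_cK.to_comp h2
  exact h

/-- A computable family of decision procedures. -/
structure VFam where
  V : ℕ → List ℕ → ℕ → Bool
  comp : Computable fun p : ℕ × (List ℕ × ℕ) => V p.1 p.2.1 p.2.2

variable (W : VFam)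

/-- The truth value, given the value `v` of `F`. -/
def hb (n v : ℕ) : Bool := decide (encode (W.V (cP n) (cU n) v) = cB n)

section

attribute [local irreducible] cK cP cB cU

theorem computable_hb : Computable₂ (hb W) := by
  have hP : Computable fun p : ℕ × ℕ => cP p.1 := primrec_cP.to_comp.comp Computable.fst
  have hU : Computable fun p : ℕ × ℕ => cU p.1 := primrec_cU.to_comp.comp Computable.fst
  have hB : Computable fun p : ℕ × ℕ => cB p.1 := primrec_cB.to_comp.comp Computable.fst
  have hbt := W.comp.comp (hP.pair (hU.pair Computable.snd))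
  have h2 : Computable₂ fun (a b : ℕ) => decide (a = b) := (Primrec.eq (α := ℕ)).decide.to_comp
  have h := h2.comp (Computable.encode.comp hbt) hB
  exact h

end

/-- Halts iff `b`. -/
def Hq (n v : ℕ) : Option ℕ := bif hb W n v then some 0 else none

theorem computable_Hq : Computable₂ (Hq W) :=
  Computable.cond (computable_hb W) (Computable.const _) (Computable.const _)

section

attribute [local irreducible] Hv Hq

/-- Semidecision procedure, given the code `k` of `F`: halts on (the code of) `u` iff the truth
value is `b`. -/
def Hp (n : ℕ) : Part ℕ := (Hv n).bind fun v => Part.ofOption (Hq W n v)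

theorem partrec_Hp : Partrec (Hp W) := by
  have h1 : Partrec fun p : ℕ × ℕ => (Part.ofOption (Hq W p.1 p.2) : Part ℕ) :=
    Computable.ofOption (computable_Hq W)
  exact Partrec.bind partrec_Hv h1.to₂

end

/-- Its code. -/
noncomputable def cH : Code := (Code.exists_code.1 (Partrec.nat_iff.1 (partrec_Hp W))).choose

theorem cH_spec (n : ℕ) : (cH W).eval n = Hp W n :=
  congrFun (Code.exists_code.1 (Partrec.nat_iff.1 (partrec_Hp W))).choose_spec n

/-- The code of the language `{u | V p u (F (ix p) |u|) = b}`. -/
noncomputable def hh (q : (Code × ℕ) × Bool) : Code :=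
  Code.curry (cH W) (Nat.pair (Nat.pair (encode q.1.1) q.1.2) (encode q.2))

theorem computable_hh : Computable (hh W) := by
  have h1 : Computable fun q : (Code × ℕ) × Bool => encode q.1.1 :=
    Computable.encode.comp (Computable.fst.comp Computable.fst)
  have h2 : Computable fun q : (Code × ℕ) × Bool => q.1.2 :=
    Computable.snd.comp Computable.fst
  have h3 : Computable fun q : (Code × ℕ) × Bool => encode q.2 :=
    Computable.encode.comp Computable.snd
  have h4 : Computable fun q : (Code × ℕ) × Bool =>
      Nat.pair (Nat.pair (encode q.1.1) q.1.2) (encode q.2) :=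
    Primrec₂.natPair.to_comp.comp (Primrec₂.natPair.to_comp.comp h1 h2) h3
  exact Code.primrec₂_curry.to_comp.comp (Computable.const (cH W)) h4

theorem hh_dom {k : Code} {p n v : ℕ} {b : Bool} {u : List ℕ} (hu : u.length = n)
    (hv : v ∈ k.eval (Nat.pair (ix p) n)) :
    ((hh W ((k, p), b)).eval (encode u)).Dom ↔ W.V p u v = b := by
  unfold hh
  rw [Code.eval_curry, cH_spec]
  unfold Hp
  have h1 : Hv (Nat.pair (Nat.pair (Nat.pair (encode k) p) (encode b))
      (encode u)) = Part.some v := by
    unfold Hv cK cP cU
    simp only [Nat.unpair_pair, ofNat_encode, hu]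
    exact Part.eq_some_iff.2 hv
  have h2 : hb W (Nat.pair (Nat.pair (Nat.pair (encode k) p) (encode b))
      (encode u)) v = decide (W.V p u v = b) := by
    unfold hb cP cU cB
    simp only [Nat.unpair_pair, ofNat_encode, encode_inj]
  rw [h1, Part.bind_some]
  unfold Hq
  rw [h2]
  by_cases h : W.V p u v = b
  · simp [h]
  · simp [h]

end Pool.Agent.H83.NT
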