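import Pool.Agent.H83.NT.TowerB

/-!
The functions `F 0 < F 1 < …`, from Kleene's recursion theorem: `F (r + 1) n` bounds the times
in which certain deterministic acceptors accept the words of length `n` of the languages
`{u | V p u (F (ix p) |u|) = b}`, `p ≤ r`; moreover `F (n + 1) n < F 0 (n + 1)`.
-/

namespace Pool.Agent.H83.NT

open Function Pool.Agent.Lead.NTM Encodable Denumerable
open Nat.Partrec (Code)

attribute [local irreducible] T words eM eC eD Pl accB hh

/-- Partial sums. -/
def psum (F : ℕ → Part ℕ) (N : ℕ) : Part ℕ :=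
  Nat.rec (Part.some 0) (fun j IH => IH.bind fun s => (F j).map fun t => s + t) N

theorem psum_spec (F : ℕ → Part ℕ) (N : ℕ) (h : ∀ j < N, (F j).Dom) :
    ∃ S, S ∈ psum F N ∧ ∀ j < N, ∀ t ∈ F j, t ≤ S := by
  induction N with
  | zero => exact ⟨0, Part.mem_some 0, fun j hj => absurd hj (Nat.not_lt_zero j)⟩
  | succ N ih =>
    obtain ⟨S, h1, h2⟩ := ih (fun j hj => h j (by omega))
    obtain ⟨t, ht⟩ := Part.dom_iff_mem.1 (h N (by omega))
    refine ⟨S + t, ?_, ?_⟩
    · show _ ∈ (psum F N).bind fun s => (F N).map fun t => s + t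
      rw [Part.mem_bind_iff]
      exact ⟨S, h1, (Part.mem_map_iff _).2 ⟨t, ht, rfl⟩⟩
    · intro j hj t' ht'
      rcases Nat.lt_succ_iff_lt_or_eq.1 hj with h3 | rfl
      · have := h2 j h3 t' ht'
        omega
      · have := Part.mem_unique ht ht'
        omega

/-- The tasks of the stage `r`, `n`. -/
def tasks (r n : ℕ) : List (ℕ × List ℕ) :=
  (List.range (r + 1)).flatMap fun p => (words (am p) n).map fun u => (p, u)

theorem mem_tasks {r n p : ℕ} {u : List ℕ} :
    (p, u) ∈ tasks r n ↔ p ≤ r ∧ u ∈ words (am p) n := by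
  unfold tasks
  simp only [List.mem_flatMap, List.mem_range, List.mem_map, Prod.mk.injEq]
  constructor
  · rintro ⟨e', h1, u', h3, rfl, rfl⟩
    exact ⟨by omega, h3⟩
  · rintro ⟨h1, h3⟩
    exact ⟨p, by omega, u, h3, rfl, rfl⟩

theorem primrec_tasks : Primrec₂ tasks := by
  have h1 : Primrec₂ fun (q : (ℕ × ℕ) × ℕ) (u : List ℕ) => (q.2, u) :=
    (Primrec.snd.comp Primrec.fst).pair Primrec.snd
  have h2 : Primrec fun q : (ℕ × ℕ) × ℕ => words (am q.2) q.1.2 :=
    primrec_words.comp (primrec_am.comp Primrec.snd)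
      (Primrec.snd.comp Primrec.fst)
  have h3 : Primrec₂ fun (q : ℕ × ℕ) (p : ℕ) =>
      (words (am p) q.2).map fun u => (p, u) := Primrec.list_map h2 h1
  have h6 : Primrec fun q : ℕ × ℕ => List.range (q.1 + 1) :=
    Primrec.list_range.comp (Primrec.succ.comp Primrec.fst)
  exact Primrec.list_flatMap h6 h3

attribute [local irreducible] tasks am

variable (W : VFam)

/-- Value of a task, given the code `k` of `F` and the value `v`. -/
noncomputable def taskW (k : Code) (z : ℕ × List ℕ) (v : ℕ) : Part ℕ :=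
    T ((am z.1, hh W ((k, z.1), W.V z.1 z.2 v)), z.2)

theorem partrec_taskW : Partrec fun p : (Code × (ℕ × List ℕ)) × ℕ =>
    taskW W p.1.1 p.1.2 p.2 := by
  have hk : Computable fun p : (Code × (ℕ × List ℕ)) × ℕ => p.1.1 :=
    Computable.fst.comp Computable.fst
  have hz : Computable fun p : (Code × (ℕ × List ℕ)) × ℕ => p.1.2.1 :=
    Computable.fst.comp (Computable.snd.comp Computable.fst)
  have hu : Computable fun p : (Code × (ℕ × List ℕ)) × ℕ => p.1.2.2 :=
    Computable.snd.comp (Computable.snd.comp Computable.fst)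
  have hbt' := W.comp.comp (hz.pair (hu.pair Computable.snd))
  have hbt : Computable fun p : (Code × (ℕ × List ℕ)) × ℕ =>
      W.V p.1.2.1 p.1.2.2 p.2 := hbt'
  have hM : Computable fun p : (Code × (ℕ × List ℕ)) × ℕ => am p.1.2.1 :=
    primrec_am.to_comp.comp hz
  have hhh : Computable fun p : (Code × (ℕ × List ℕ)) × ℕ =>
      hh W ((p.1.1, p.1.2.1), W.V p.1.2.1 p.1.2.2 p.2) :=
    (computable_hh W).comp ((hk.pair hz).pair hbt)
  have h := partrec_T.comp ((hM.pair hhh).pair hu)
  exact h

attribute [local irreducible] taskW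

/-- Value of a task, given the code `k` of `F`. -/
noncomputable def taskV (k : Code) (n : ℕ) (z : ℕ × List ℕ) : Part ℕ :=
  (k.eval (Nat.pair (ix z.1) n)).bind fun v => taskW W k z v

theorem partrec_taskV : Partrec fun p : (Code × ℕ) × (ℕ × List ℕ) =>
    taskV W p.1.1 p.1.2 p.2 := by
  have hk : Computable fun p : (Code × ℕ) × (ℕ × List ℕ) => p.1.1 :=
    Computable.fst.comp Computable.fst
  have hz : Computable fun p : (Code × ℕ) × (ℕ × List ℕ) => p.2 :=
    Computable.snd
  have hn : Computable fun p : (Code × ℕ) × (ℕ × List ℕ) => p.1.2 :=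
    Computable.snd.comp Computable.fst
  have he : Computable fun p : (Code × ℕ) × (ℕ × List ℕ) => ix p.2.1 :=
    primrec_ix.to_comp.comp (Computable.fst.comp Computable.snd)
  have h1 : Partrec fun p : (Code × ℕ) × (ℕ × List ℕ) =>
      p.1.1.eval (Nat.pair (ix p.2.1) p.1.2) :=
    Code.eval_part.comp hk (Primrec₂.natPair.to_comp.comp he hn)
  have h2 : Partrec fun q : ((Code × ℕ) × (ℕ × List ℕ)) × ℕ =>
      taskW W q.1.1.1 q.1.2 q.2 := by
    have h := (partrec_taskW W).comp (((hk.comp Computable.fst).pair (hz.comp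
      (Computable.fst (β := ℕ)))).pair Computable.snd)
    exact h
  exact Partrec.bind h1 h2.to₂

attribute [local irreducible] taskV

/-- The sum of the tasks. -/
noncomputable def sumV (k : Code) (r n : ℕ) : Part ℕ :=
  psum (fun j => taskV W k n ((tasks r n).getD j default)) (tasks r n).length

theorem partrec_sumV : Partrec fun p : Code × (ℕ × ℕ) => sumV W p.1 p.2.1 p.2.2 := by
  have hr : Computable fun p : Code × (ℕ × ℕ) => p.2.1 := Computable.fst.comp Computable.snd
  have hn : Computable fun p : Code × (ℕ × ℕ) => p.2.2 := Computable.snd.comp Computable.snd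
  have ht : Computable fun p : Code × (ℕ × ℕ) => tasks p.2.1 p.2.2 :=
    primrec_tasks.to_comp.comp hr hn
  have hl : Computable fun p : Code × (ℕ × ℕ) => (tasks p.2.1 p.2.2).length :=
    Primrec.list_length.to_comp.comp ht
  have hj : Computable fun q : (Code × (ℕ × ℕ)) × (ℕ × ℕ) => q.2.1 :=
    Computable.fst.comp Computable.snd
  have hs : Computable fun q : (Code × (ℕ × ℕ)) × (ℕ × ℕ) => q.2.2 :=
    Computable.snd.comp Computable.snd
  have hk : Computable fun q : (Code × (ℕ × ℕ)) × (ℕ × ℕ) => q.1.1 :=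
    Computable.fst.comp Computable.fst
  have hz : Computable fun q : (Code × (ℕ × ℕ)) × (ℕ × ℕ) =>
      (tasks q.1.2.1 q.1.2.2).getD q.2.1 default :=
    (Primrec.list_getD (default : ℕ × List ℕ)).to_comp.comp (ht.comp Computable.fst) hj
  have h1 : Partrec fun q : (Code × (ℕ × ℕ)) × (ℕ × ℕ) =>
      taskV W q.1.1 q.1.2.2 ((tasks q.1.2.1 q.1.2.2).getD q.2.1 default) := by
    have h := (partrec_taskV W).comp ((hk.pair (hn.comp (Computable.fst (β := ℕ × ℕ)))).pair hz)
    exact h
  have h2 : Computable₂ fun (q : (Code × (ℕ × ℕ)) × (ℕ × ℕ)) (t : ℕ) => q.2.2 + t :=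
    Primrec.nat_add.to_comp.comp (hs.comp Computable.fst) Computable.snd
  have h3 : Partrec₂ fun (p : Code × (ℕ × ℕ)) (q : ℕ × ℕ) =>
      (taskV W p.1 p.2.2 ((tasks p.2.1 p.2.2).getD q.1 default)).map fun t => q.2 + t :=
    Partrec.map h1 h2
  have h0 : Partrec fun _ : Code × (ℕ × ℕ) => (Part.some 0 : Part ℕ) :=
    (Computable.const 0 : Computable fun _ : Code × (ℕ × ℕ) => (0 : ℕ)).partrec
  exact Partrec.nat_rec hl h0 h3

attribute [local irreducible] sumV

/-- The successor case of the recursion for `F`. -/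
noncomputable def Fs (k : Code) (r n : ℕ) : Part ℕ :=
  (k.eval (Nat.pair r n)).bind fun v => (sumV W k r n).map fun s => v + s

theorem partrec_Fs : Partrec fun p : Code × (ℕ × ℕ) => Fs W p.1 p.2.1 p.2.2 := by
  have hr : Computable fun p : Code × (ℕ × ℕ) => p.2.1 := Computable.fst.comp Computable.snd
  have hn : Computable fun p : Code × (ℕ × ℕ) => p.2.2 := Computable.snd.comp Computable.snd
  have h1 : Partrec fun p : Code × (ℕ × ℕ) => p.1.eval (Nat.pair p.2.1 p.2.2) :=
    Code.eval_part.comp Computable.fst (Primrec₂.natPair.to_comp.comp hr hn)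
  have h2 : Partrec fun q : (Code × (ℕ × ℕ)) × ℕ => sumV W q.1.1 q.1.2.1 q.1.2.2 := by
    have h := (partrec_sumV W).comp
      (Computable.fst : Computable fun q : (Code × (ℕ × ℕ)) × ℕ => q.1)
    exact h
  have h3 : Computable₂ fun (q : (Code × (ℕ × ℕ)) × ℕ) (s : ℕ) => q.2 + s :=
    Primrec.nat_add.to_comp.comp (Computable.snd.comp Computable.fst) Computable.snd
  exact Partrec.bind h1 (Partrec.map h2 h3)

/-- The base case of the recursion for `F`. -/
noncomputable def Fb (g : ℕ → ℕ) (k : Code) (n : ℕ) : Part ℕ :=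
  Nat.casesOn (motive := fun _ => Part ℕ) n (Part.some (g 0))
    fun n => (k.eval (Nat.pair (n + 1) n)).map fun v => v + (g (n + 1) + 1)

theorem partrec_Fb {g : ℕ → ℕ} (hg : Computable g) : Partrec₂ (Fb g) := by
  have h1 : Partrec fun q : (Code × ℕ) × ℕ => q.1.1.eval (Nat.pair (q.2 + 1) q.2) :=
    Code.eval_part.comp (Computable.fst.comp Computable.fst)
      (Primrec₂.natPair.to_comp.comp (Computable.succ.comp Computable.snd) Computable.snd)
  have h2 : Computable fun q : ((Code × ℕ) × ℕ) × ℕ => g (q.1.2 + 1) + 1 :=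
    Computable.succ.comp (hg.comp (Computable.succ.comp (Computable.snd.comp Computable.fst)))
  have h3 : Computable₂ fun (q : (Code × ℕ) × ℕ) (v : ℕ) => v + (g (q.2 + 1) + 1) :=
    Primrec.nat_add.to_comp.comp Computable.snd h2
  have h4 : Partrec₂ fun (q : Code × ℕ) (n : ℕ) =>
      (q.1.eval (Nat.pair (n + 1) n)).map fun v => v + (g (n + 1) + 1) := Partrec.map h1 h3
  exact Partrec.nat_casesOn_right (α := Code × ℕ) Computable.snd (Computable.const _) h4

attribute [local irreducible] Fs Fb

/-- The recursion for `F`. -/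
noncomputable def Fstep (g : ℕ → ℕ) (k : Code) (x : ℕ) : Part ℕ :=
  bif decide (x.unpair.1 = 0) then Fb g k x.unpair.2 else Fs W k x.unpair.1.pred x.unpair.2

theorem partrec_Fstep {g : ℕ → ℕ} (hg : Computable g) : Partrec₂ (Fstep W g) := by
  have hn : Computable fun p : Code × ℕ => p.2.unpair.2 :=
    Computable.snd.comp (Computable.unpair.comp Computable.snd)
  have hr : Computable fun p : Code × ℕ => p.2.unpair.1 :=
    Computable.fst.comp (Computable.unpair.comp Computable.snd)
  have h2 : Computable₂ fun (a b : ℕ) => decide (a = b) := (Primrec.eq (α := ℕ)).decide.to_comp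
  have hc : Computable fun p : Code × ℕ => decide (p.2.unpair.1 = 0) :=
    h2.comp hr (Computable.const 0)
  have h0 : Partrec fun p : Code × ℕ => Fb g p.1 p.2.unpair.2 :=
    (partrec_Fb hg).comp Computable.fst hn
  have h1 : Partrec fun p : Code × ℕ => Fs W p.1 p.2.unpair.1.pred p.2.unpair.2 := by
    have h := (partrec_Fs W).comp ((Computable.fst : Computable fun p : Code × ℕ => p.1).pair
      ((Primrec.pred.to_comp.comp hr).pair hn))
    exact h
  exact Partrec.cond hc h0 h1

/-- The code of `F`. -/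
noncomputable def kF {g : ℕ → ℕ} (hg : Computable g) : Code :=
  (Code.fixed_point₂ (partrec_Fstep W hg)).choose

theorem kF_spec {g : ℕ → ℕ} (hg : Computable g) : (kF W hg).eval = Fstep W g (kF W hg) :=
  (Code.fixed_point₂ (partrec_Fstep W hg)).choose_spec

theorem eval_zero_zero {g : ℕ → ℕ} (hg : Computable g) :
    (kF W hg).eval (Nat.pair 0 0) = Part.some (g 0) := by
  rw [kF_spec]
  unfold Fstep
  simp only [Nat.unpair_pair, decide_true, cond_true]
  unfold Fb
  rfl

theorem eval_zero_succ {g : ℕ → ℕ} (hg : Computable g) (n : ℕ) :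
    (kF W hg).eval (Nat.pair 0 (n + 1)) =
      ((kF W hg).eval (Nat.pair (n + 1) n)).map fun v => v + (g (n + 1) + 1) := by
  conv_lhs => rw [kF_spec]
  unfold Fstep
  simp only [Nat.unpair_pair, decide_true, cond_true]
  unfold Fb
  rfl

theorem eval_succ {g : ℕ → ℕ} (hg : Computable g) (r n : ℕ) :
    (kF W hg).eval (Nat.pair (r + 1) n) = ((kF W hg).eval (Nat.pair r n)).bind fun v =>
      (psum (fun j => taskV W (kF W hg) n ((tasks r n).getD j default))
        (tasks r n).length).map fun s => v + s := by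
  conv_lhs => rw [kF_spec]
  unfold Fstep
  simp only [Nat.unpair_pair, Nat.succ_ne_zero, decide_false, cond_false, Nat.pred_succ]
  unfold Fs sumV
  rfl

theorem taskV_dom {k : Code} {p n v : ℕ} {u : List ℕ} (hu : u ∈ words (am p) n)
    (hv : v ∈ k.eval (Nat.pair (ix p) n)) : (taskV W k n (p, u)).Dom := by
  unfold taskV taskW
  rw [Part.eq_some_iff.2 hv, Part.bind_some]
  rw [mem_words] at hu
  rw [T_dom hu.2]
  exact (hh_dom W hu.1 hv).2 rfl

theorem eval_dom {g : ℕ → ℕ} (hg : Computable g) (n : ℕ) :
    ∀ r, ((kF W hg).eval (Nat.pair r n)).Dom := by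
  induction n with
  | zero =>
    intro r
    induction r using Nat.strong_induction_on with
    | _ r ih =>
      cases r with
      | zero => rw [eval_zero_zero]; trivial
      | succ r =>
        rw [eval_succ]
        obtain ⟨v, hv⟩ := Part.dom_iff_mem.1 (ih r (by omega))
        rw [Part.eq_some_iff.2 hv, Part.bind_some]
        obtain ⟨S, hS, -⟩ := psum_spec
          (fun j => taskV W (kF W hg) 0 ((tasks r 0).getD j default)) (tasks r 0).length (by
            intro j hj
            have h1 : (tasks r 0).getD j default ∈ tasks r 0 := by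
              rw [List.getD_eq_getElem _ _ hj]
              exact List.getElem_mem hj
            show (taskV W (kF W hg) 0 ((tasks r 0).getD j default)).Dom
            generalize (tasks r 0).getD j default = z at h1 ⊢
            obtain ⟨p, u⟩ := z
            obtain ⟨h2, h4⟩ := mem_tasks.1 h1
            have h5 := ix_le p
            obtain ⟨v', hv'⟩ := Part.dom_iff_mem.1 (ih (ix p) (by omega))
            exact taskV_dom W h4 hv')
        exact Part.dom_iff_mem.2 ⟨_, (Part.mem_map_iff _).2 ⟨S, hS, rfl⟩⟩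
  | succ n ihn =>
    intro r
    induction r using Nat.strong_induction_on with
    | _ r ih =>
      cases r with
      | zero =>
        rw [eval_zero_succ]
        exact ihn (n + 1)
      | succ r =>
        rw [eval_succ]
        obtain ⟨v, hv⟩ := Part.dom_iff_mem.1 (ih r (by omega))
        rw [Part.eq_some_iff.2 hv, Part.bind_some]
        obtain ⟨S, hS, -⟩ := psum_spec
          (fun j => taskV W (kF W hg) (n + 1) ((tasks r (n + 1)).getD j default))
          (tasks r (n + 1)).length (by
            intro j hj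
            have h1 : (tasks r (n + 1)).getD j default ∈ tasks r (n + 1) := by
              rw [List.getD_eq_getElem _ _ hj]
              exact List.getElem_mem hj
            show (taskV W (kF W hg) (n + 1) ((tasks r (n + 1)).getD j default)).Dom
            generalize (tasks r (n + 1)).getD j default = z at h1 ⊢
            obtain ⟨p, u⟩ := z
            obtain ⟨h2, h4⟩ := mem_tasks.1 h1
            have h5 := ix_le p
            obtain ⟨v', hv'⟩ := Part.dom_iff_mem.1 (ih (ix p) (by omega))
            exact taskV_dom W h4 hv')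
        exact Part.dom_iff_mem.2 ⟨_, (Part.mem_map_iff _).2 ⟨S, hS, rfl⟩⟩

/-- The bounds. -/
noncomputable def F {g : ℕ → ℕ} (hg : Computable g) (r n : ℕ) : ℕ :=
  ((kF W hg).eval (Nat.pair r n)).get (eval_dom W hg n r)

theorem F_mem {g : ℕ → ℕ} (hg : Computable g) (r n : ℕ) :
    F W hg r n ∈ (kF W hg).eval (Nat.pair r n) := Part.get_mem _

theorem computable_F {g : ℕ → ℕ} (hg : Computable g) : Computable₂ (F W hg) := by
  have h : Partrec fun p : ℕ × ℕ => (kF W hg).eval (Nat.pair p.1 p.2) :=
    Code.eval_part.comp (Computable.const _) (Primrec₂.natPair.to_comp.comp Computable.fst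
      Computable.snd)
  exact h.of_eq_tot fun p => F_mem W hg p.1 p.2

theorem F_zero_zero {g : ℕ → ℕ} (hg : Computable g) : F W hg 0 0 = g 0 := by
  have h := F_mem W hg 0 0
  rw [eval_zero_zero] at h
  exact Part.mem_some_iff.1 h

theorem F_zero_succ {g : ℕ → ℕ} (hg : Computable g) (n : ℕ) :
    F W hg 0 (n + 1) = F W hg (n + 1) n + (g (n + 1) + 1) := by
  have h := F_mem W hg 0 (n + 1)
  rw [eval_zero_succ, Part.eq_some_iff.2 (F_mem W hg (n + 1) n), Part.map_some] at h
  exact Part.mem_some_iff.1 h

theorem g_le_F_zero {g : ℕ → ℕ} (hg : Computable g) (n : ℕ) : g n ≤ F W hg 0 n := by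
  cases n with
  | zero => rw [F_zero_zero]
  | succ n => rw [F_zero_succ]; omega

theorem F_succ {g : ℕ → ℕ} (hg : Computable g) (r n : ℕ) :
    F W hg r n ≤ F W hg (r + 1) n ∧ ∀ p u, p ≤ r → u ∈ words (am p) n →
      ∀ t ∈ T ((am p, hh W ((kF W hg, p), W.V p u (F W hg (ix p) n))), u),
        t ≤ F W hg (r + 1) n := by
  have h := F_mem W hg (r + 1) n
  rw [eval_succ, Part.eq_some_iff.2 (F_mem W hg r n), Part.bind_some, Part.mem_map_iff] at h
  obtain ⟨S, hS, h1⟩ := h
  obtain ⟨S', hS', h2⟩ := psum_spec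
    (fun j => taskV W (kF W hg) n ((tasks r n).getD j default)) (tasks r n).length (by
      intro j hj
      have h1 : (tasks r n).getD j default ∈ tasks r n := by
        rw [List.getD_eq_getElem _ _ hj]
        exact List.getElem_mem hj
      show (taskV W (kF W hg) n ((tasks r n).getD j default)).Dom
      generalize (tasks r n).getD j default = z at h1 ⊢
      obtain ⟨p, u⟩ := z
      obtain ⟨h2, h4⟩ := mem_tasks.1 h1
      exact taskV_dom W h4 (F_mem W hg (ix p) n))
  have hSS : S = S' := Part.mem_unique hS hS'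
  subst hSS
  refine ⟨by omega, ?_⟩
  intro p u hp hu t ht
  obtain ⟨j, hj, hje⟩ := List.mem_iff_getElem.1 (mem_tasks.2 ⟨hp, hu⟩)
  have h3 := h2 j hj t (by
    rw [List.getD_eq_getElem _ _ hj, hje]
    unfold taskV taskW
    rw [Part.eq_some_iff.2 (F_mem W hg (ix p) n), Part.bind_some]
    exact ht)
  omega

theorem F_mono {g : ℕ → ℕ} (hg : Computable g) {r r' : ℕ} (h : r ≤ r') (n : ℕ) :
    F W hg r n ≤ F W hg r' n := by
  induction r', h using Nat.le_induction with
  | base => exact le_rfl
  | succ r' _ ih => exact ih.trans (F_succ W hg r' n).1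

/-- The main property of the sequence `F`: the languages
`{w | V p (w.map e) (F (ix p) |w|) = b}` have deterministic acceptors whose acceptance times are
at most `F (p + 1) |w|`. -/
theorem exists_machine {g : ℕ → ℕ} (hg : Computable g) {A : Type} [Finite A] {e : A → ℕ} {p : ℕ}
    (he : ∀ a, e a < am p) (b : Bool) :
    ∃ M : Machine A, Deterministic M ∧ (∀ w : List A, Accepts M w ↔
      W.V p (w.map e) (F W hg (ix p) w.length) = b) ∧
      ∀ w s, AcceptsIn M w s → ∀ r, p < r → s ≤ F W hg r w.length := by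
  refine ⟨macc e (am p) (hh W ((kF W hg, p), b)), macc_deterministic _ _ _, fun w => ?_, ?_⟩
  · rw [accepts_macc he, hh_dom W (n := w.length) (by simp) (F_mem W hg (ix p) w.length)]
  · intro w s hs r hr
    have h1 : Accepts (macc e (am p) (hh W ((kF W hg, p), b))) w := ⟨s, hs⟩
    rw [accepts_macc he, hh_dom W (n := w.length) (by simp) (F_mem W hg (ix p) w.length)] at h1
    rw [acceptsIn_macc he] at hs
    rw [← h1] at hs
    refine le_trans ((F_succ W hg p w.length).2 p (w.map e) le_rfl ?_ s hs) (F_mono W hg hr _)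
    rw [mem_words]
    exact ⟨by simp, by simpa using fun a _ => he a⟩

end Pool.Agent.H83.NT
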