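import Pool.Agent.H83.NT.Sim

/-!
An effective enumeration of the nondeterministic Turing machines: the relation `the machine with
description D accepts in s steps` is primitive recursive in `D`, the input and `s`.
-/

namespace Pool.Agent.H83.NT

open Function Pool.Agent.Lead.NTM

/-- Codes of moves. -/
def mvc (n : ℕ) : Move := if n = 0 then .left else if n = 1 then .stay else .right

/-- The code of a move. -/
def mvn : Move → ℕ
  | .left => 0
  | .stay => 1
  | .right => 2

theorem mvc_mvn (m : Move) : mvc (mvn m) = m := by cases m <;> rfl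

theorem primrec_moveC : Primrec₂ fun (n : ℕ) (t : TC) => moveT (mvc n) t := by
  have h0 : PrimrecPred fun p : ℕ × TC => p.1 = 0 := Primrec.eq.comp Primrec.fst (Primrec.const 0)
  have h1 : PrimrecPred fun p : ℕ × TC => p.1 = 1 := Primrec.eq.comp Primrec.fst (Primrec.const 1)
  have h : Primrec fun p : ℕ × TC => if p.1 = 0 then moveT .left p.2 else
      if p.1 = 1 then moveT .stay p.2 else moveT .right p.2 :=
    Primrec.ite h0 ((primrec_moveT .left).comp Primrec.snd)
      (Primrec.ite h1 ((primrec_moveT .stay).comp Primrec.snd)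
        ((primrec_moveT .right).comp Primrec.snd))
  refine h.of_eq fun p => ?_
  show _ = moveT (mvc p.1) p.2
  unfold mvc
  split_ifs <;> rfl

/-- Codes of rules: old state, scanned letters, new state, written letters, moves. -/
abbrev LR : Type := (ℕ × List ℕ) × (ℕ × (List ℕ × List ℕ))

/-- Codes of configurations. -/
abbrev CL : Type := ℕ × List TC

/-- The rule with a given code. -/
def toRule (k : ℕ) (r : LR) : Rule k :=
  ⟨r.1.1, fun i => r.1.2.getD i 0, r.2.1, fun i => r.2.2.1.getD i 0,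
    fun i => mvc (r.2.2.2.getD i 0)⟩

/-- The empty tape. -/
def dT : TC := ([], 0, [])

/-- Conversion of configuration codes. -/
def toCC (k : ℕ) (c : CL) : CC k := (c.1, fun i => c.2.getD i dT)

/-- Does the rule apply? -/
def MatchL (k : ℕ) (r : LR) (c : CL) : Prop :=
  c.1 = r.1.1 ∧ (List.range (k + 1)).map (fun i => (c.2.getD i dT).2.1) =
    (List.range (k + 1)).map fun i => r.1.2.getD i 0

instance (k : ℕ) (r : LR) (c : CL) : Decidable (MatchL k r c) := by
  unfold MatchL; infer_instance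

theorem map_range_eq {α : Type} {n : ℕ} {f g : ℕ → α} :
    (List.range n).map f = (List.range n).map g ↔ ∀ i < n, f i = g i := by
  rw [List.map_inj_left]
  simp

theorem matchL_iff {k : ℕ} {r : LR} {c : CL} : MatchL k r c ↔ (toRule k r).Match (toCC k c) := by
  unfold MatchL Rule.Match toRule toCC
  rw [map_range_eq]
  refine and_congr Iff.rfl ?_
  constructor
  · intro h
    funext i
    exact h i i.2
  · intro h i hi
    exact congrFun h ⟨i, hi⟩

/-- Application of a rule. -/
def appL (k : ℕ) (r : LR) (c : CL) : CL :=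
  (r.2.1, (List.range (k + 1)).map fun i => moveT (mvc (r.2.2.2.getD i 0))
    ((c.2.getD i dT).1, r.2.2.1.getD i 0, (c.2.getD i dT).2.2))

theorem getD_map_range {α : Type} {n i : ℕ} (hi : i < n) (f : ℕ → α) (d : α) :
    ((List.range n).map f).getD i d = f i := by
  rw [List.getD_eq_getElem _ _ (by simpa using hi)]
  simp

theorem toCC_appL {k : ℕ} {r : LR} {c : CL} :
    toCC k (appL k r c) = (toRule k r).app (toCC k c) := by
  unfold toCC appL Rule.app toRule
  simp only [Prod.mk.injEq, true_and]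
  funext i
  rw [getD_map_range i.2]

/-- Successors. -/
def succsL (k : ℕ) (rs : List LR) (c : CL) : List CL :=
  rs.flatMap fun r => if MatchL k r c then [appL k r c] else []

theorem map_succsL (k : ℕ) (rs : List LR) (c : CL) :
    (succsL k rs c).map (toCC k) = succs (rs.map (toRule k)) (toCC k c) := by
  induction rs with
  | nil => rfl
  | cons r rs ih =>
    unfold succsL at ih ⊢
    rw [List.flatMap_cons, List.map_append, ih, List.map_cons]
    show _ = (if (toRule k r).Match (toCC k c) then [(toRule k r).app (toCC k c)] else []) ++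
      succs (rs.map (toRule k)) (toCC k c)
    congr 1
    by_cases h : MatchL k r c
    · rw [if_pos h, if_pos (matchL_iff.1 h), List.map_singleton, toCC_appL]
    · rw [if_neg h, if_neg (fun h' => h (matchL_iff.2 h')), List.map_nil]

/-- The configuration codes reached in `s` steps. -/
def confsL (k : ℕ) (rs : List LR) (c : CL) (s : ℕ) : List CL :=
  Nat.rec [c] (fun _ L => L.flatMap (succsL k rs)) s

theorem map_confsL (k : ℕ) (rs : List LR) (c : CL) (s : ℕ) :
    (confsL k rs c s).map (toCC k) = confs (rs.map (toRule k)) (toCC k c) s := by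
  induction s with
  | zero => rfl
  | succ s ih =>
    rw [confs_succ, ← ih]
    show ((confsL k rs c s).flatMap (succsL k rs)).map (toCC k) = _
    rw [List.map_flatMap, List.flatMap_map]
    simp only [map_succsL]

/-- The start configuration. -/
def startL (k q : ℕ) (u : List ℕ) : CL :=
  (q, (List.range (k + 1)).map fun i =>
    if i = 0 then ([], (u.map Nat.succ).headI, (u.map Nat.succ).tail) else dT)

theorem toCC_startL (k q : ℕ) (u : List ℕ) : toCC k (startL k q u) = startC k q u := by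
  unfold toCC startL startC
  simp only [Prod.mk.injEq, true_and]
  funext i
  rw [getD_map_range i.2]
  by_cases h : i = 0
  · subst h
    simp
  · have h0 : (i : ℕ) ≠ 0 := fun h' => h (Fin.ext h')
    rw [if_neg h, if_neg h0]
    rfl

/-- Descriptions of machines: number of additional tapes, start state, accepting states, rules. -/
abbrev Desc : Type := (ℕ × ℕ) × (List ℕ × List LR)

/-- Acceptance. -/
def AccL (D : Desc) (u : List ℕ) (s : ℕ) : Prop :=
  ∃ c ∈ confsL D.1.1 D.2.2 (startL D.1.1 D.1.2 u) s, ∃ a ∈ D.2.1, a = c.1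

theorem accL_iff {D : Desc} {u : List ℕ} {s : ℕ} :
    AccL D u s ↔ accC (D.2.2.map (toRule D.1.1)) D.1.2 D.2.1 u s := by
  unfold AccL accC
  rw [← toCC_startL, ← map_confsL]
  simp only [List.mem_map, exists_exists_and_eq_and, exists_eq_right]
  rfl

theorem primrecRel_matchL : PrimrecPred fun z : (ℕ × LR) × CL => MatchL z.1.1 z.1.2 z.2 := by
  have hk : Primrec fun z : (ℕ × LR) × CL => List.range (z.1.1 + 1) :=
    Primrec.list_range.comp (Primrec.succ.comp (Primrec.fst.comp Primrec.fst))
  have h1 : Primrec₂ fun (z : (ℕ × LR) × CL) (i : ℕ) => (z.2.2.getD i dT).2.1 :=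
    Primrec.fst.comp (Primrec.snd.comp ((Primrec.list_getD dT).comp
      (Primrec.snd.comp (Primrec.snd.comp Primrec.fst)) Primrec.snd))
  have h2 : Primrec₂ fun (z : (ℕ × LR) × CL) (i : ℕ) => z.1.2.1.2.getD i 0 :=
    (Primrec.list_getD 0).comp
      (Primrec.snd.comp (Primrec.fst.comp (Primrec.snd.comp (Primrec.fst.comp Primrec.fst))))
      Primrec.snd
  have h3 : PrimrecPred fun z : (ℕ × LR) × CL => z.2.1 = z.1.2.1.1 :=
    Primrec.eq.comp (Primrec.fst.comp Primrec.snd)
      (Primrec.fst.comp (Primrec.fst.comp (Primrec.snd.comp Primrec.fst)))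
  exact h3.and (Primrec.eq.comp (Primrec.list_map hk h1) (Primrec.list_map hk h2))

theorem primrec_appL : Primrec fun z : (ℕ × LR) × CL => appL z.1.1 z.1.2 z.2 := by
  have hk : Primrec fun z : (ℕ × LR) × CL => List.range (z.1.1 + 1) :=
    Primrec.list_range.comp (Primrec.succ.comp (Primrec.fst.comp Primrec.fst))
  have hr : Primrec fun z : ((ℕ × LR) × CL) × ℕ => z.1.1.2 :=
    Primrec.snd.comp (Primrec.fst.comp Primrec.fst)
  have hi : Primrec fun z : ((ℕ × LR) × CL) × ℕ => z.2 := Primrec.snd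
  have hm : Primrec fun z : ((ℕ × LR) × CL) × ℕ => z.1.1.2.2.2.2.getD z.2 0 :=
    (Primrec.list_getD 0).comp (Primrec.snd.comp (Primrec.snd.comp (Primrec.snd.comp hr))) hi
  have hy : Primrec fun z : ((ℕ × LR) × CL) × ℕ => z.1.1.2.2.2.1.getD z.2 0 :=
    (Primrec.list_getD 0).comp (Primrec.fst.comp (Primrec.snd.comp (Primrec.snd.comp hr))) hi
  have hc : Primrec fun z : ((ℕ × LR) × CL) × ℕ => z.1.2.2.getD z.2 dT :=
    (Primrec.list_getD dT).comp (Primrec.snd.comp (Primrec.snd.comp Primrec.fst)) hi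
  have ht : Primrec fun z : ((ℕ × LR) × CL) × ℕ =>
      ((z.1.2.2.getD z.2 dT).1, z.1.1.2.2.2.1.getD z.2 0, (z.1.2.2.getD z.2 dT).2.2) :=
    (Primrec.fst.comp hc).pair (hy.pair (Primrec.snd.comp (Primrec.snd.comp hc)))
  have h1 : Primrec₂ fun (z : (ℕ × LR) × CL) (i : ℕ) => moveT (mvc (z.1.2.2.2.2.getD i 0))
      ((z.2.2.getD i dT).1, z.1.2.2.2.1.getD i 0, (z.2.2.getD i dT).2.2) :=
    primrec_moveC.comp hm ht
  have hq : Primrec fun z : (ℕ × LR) × CL => z.1.2.2.1 :=
    Primrec.fst.comp (Primrec.snd.comp (Primrec.snd.comp Primrec.fst))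
  exact hq.pair (Primrec.list_map hk h1)

theorem primrec_succsL : Primrec fun z : (ℕ × List LR) × CL => succsL z.1.1 z.1.2 z.2 := by
  have hz : Primrec fun z : ((ℕ × List LR) × CL) × LR => (((z.1.1.1, z.2), z.1.2) :
      (ℕ × LR) × CL) :=
    ((Primrec.fst.comp (Primrec.fst.comp Primrec.fst)).pair Primrec.snd).pair
      (Primrec.snd.comp Primrec.fst)
  have h1' := primrecRel_matchL.comp hz
  have h1 : PrimrecPred fun z : ((ℕ × List LR) × CL) × LR => MatchL z.1.1.1 z.2 z.1.2 := h1'
  have h2' := primrec_appL.comp hz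
  have h2 : Primrec fun z : ((ℕ × List LR) × CL) × LR => appL z.1.1.1 z.2 z.1.2 := h2'
  have h3 : Primrec₂ fun (z : (ℕ × List LR) × CL) (r : LR) =>
      if MatchL z.1.1 r z.2 then [appL z.1.1 r z.2] else [] :=
    Primrec.ite h1 (Primrec.list_cons.comp h2 (Primrec.const [])) (Primrec.const [])
  exact Primrec.list_flatMap (Primrec.snd.comp Primrec.fst) h3

theorem primrec_confsL : Primrec fun z : ((ℕ × List LR) × CL) × ℕ =>
    confsL z.1.1.1 z.1.1.2 z.1.2 z.2 := by
  have h0 : Primrec fun z : ((((ℕ × List LR) × CL) × ℕ) × (ℕ × List CL)) × CL =>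
      (((z.1.1.1.1.1, z.1.1.1.1.2), z.2) : (ℕ × List LR) × CL) :=
    (Primrec.fst.comp (Primrec.fst.comp (Primrec.fst.comp Primrec.fst))).pair Primrec.snd
  have h1' := primrec_succsL.comp h0
  have h1 : Primrec₂ fun (z : (((ℕ × List LR) × CL) × ℕ) × (ℕ × List CL)) (c : CL) =>
      succsL z.1.1.1.1 z.1.1.1.2 c := h1'
  have h2 : Primrec₂ fun (z : ((ℕ × List LR) × CL) × ℕ) (p : ℕ × List CL) =>
      p.2.flatMap (succsL z.1.1.1 z.1.1.2) :=
    Primrec.list_flatMap (Primrec.snd.comp Primrec.snd) h1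
  have h3 : Primrec fun z : ((ℕ × List LR) × CL) × ℕ => [z.1.2] :=
    Primrec.list_cons.comp (Primrec.snd.comp Primrec.fst) (Primrec.const [])
  exact Primrec.nat_rec' Primrec.snd h3 h2

theorem primrec_startL : Primrec fun z : (ℕ × ℕ) × List ℕ => startL z.1.1 z.1.2 z.2 := by
  have hm : Primrec fun u : List ℕ => u.map Nat.succ :=
    Primrec.list_map Primrec.id (Primrec.succ.comp Primrec.snd).to₂
  have hu : Primrec fun z : ((ℕ × ℕ) × List ℕ) × ℕ => z.1.2.map Nat.succ :=
    hm.comp (Primrec.snd.comp Primrec.fst)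
  have h1 : Primrec₂ fun (z : (ℕ × ℕ) × List ℕ) (i : ℕ) =>
      if i = 0 then (([], (z.2.map Nat.succ).headI, (z.2.map Nat.succ).tail) : TC) else dT :=
    Primrec.ite (Primrec.eq.comp Primrec.snd (Primrec.const 0))
      ((Primrec.const []).pair ((Primrec.list_headI.comp hu).pair (Primrec.list_tail.comp hu)))
      (Primrec.const dT)
  have hk : Primrec fun z : (ℕ × ℕ) × List ℕ => List.range (z.1.1 + 1) :=
    Primrec.list_range.comp (Primrec.succ.comp (Primrec.fst.comp Primrec.fst))
  exact (Primrec.snd.comp Primrec.fst).pair (Primrec.list_map hk h1)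

theorem primrec_accL : PrimrecPred fun z : (Desc × List ℕ) × ℕ => AccL z.1.1 z.1.2 z.2 := by
  have hk : Primrec fun z : (Desc × List ℕ) × ℕ => z.1.1.1.1 :=
    Primrec.fst.comp (Primrec.fst.comp (Primrec.fst.comp Primrec.fst))
  have hq : Primrec fun z : (Desc × List ℕ) × ℕ => z.1.1.1.2 :=
    Primrec.snd.comp (Primrec.fst.comp (Primrec.fst.comp Primrec.fst))
  have hF : Primrec fun z : (Desc × List ℕ) × ℕ => z.1.1.2.1 :=
    Primrec.fst.comp (Primrec.snd.comp (Primrec.fst.comp Primrec.fst))
  have hR : Primrec fun z : (Desc × List ℕ) × ℕ => z.1.1.2.2 :=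
    Primrec.snd.comp (Primrec.snd.comp (Primrec.fst.comp Primrec.fst))
  have hs' := primrec_startL.comp ((hk.pair hq).pair (Primrec.snd.comp Primrec.fst))
  have hs : Primrec fun z : (Desc × List ℕ) × ℕ => startL z.1.1.1.1 z.1.1.1.2 z.1.2 := hs'
  have hc' := primrec_confsL.comp (((hk.pair hR).pair hs).pair Primrec.snd)
  have hc : Primrec fun z : (Desc × List ℕ) × ℕ =>
      confsL z.1.1.1.1 z.1.1.2.2 (startL z.1.1.1.1 z.1.1.1.2 z.1.2) z.2 := hc'
  have h1 : PrimrecRel fun (F : List ℕ) (a : ℕ) => ∃ b ∈ F, b = a :=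
    PrimrecRel.exists_mem_list (R := fun (a b : ℕ) => a = b) Primrec.eq
  have h2 : PrimrecRel fun (c : CL) (F : List ℕ) => ∃ b ∈ F, b = c.1 :=
    h1.comp Primrec.snd (Primrec.fst.comp Primrec.fst)
  have h3 : PrimrecRel fun (L : List CL) (F : List ℕ) => ∃ c ∈ L, ∃ b ∈ F, b = c.1 :=
    PrimrecRel.exists_mem_list h2
  exact h3.comp hc hF

theorem getD_ofFn {n : ℕ} (f : Fin n → ℕ) (i : Fin n) : (List.ofFn f).getD i 0 = f i := by
  rw [List.getD_eq_getElem _ _ (by simp)]
  simp

/-- The description of a list of rules. -/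
theorem exists_desc {k : ℕ} (rs : List (Rule k)) : ∃ rl : List LR, rl.map (toRule k) = rs := by
  induction rs with
  | nil => exact ⟨[], rfl⟩
  | cons r rs ih =>
    obtain ⟨rl, hrl⟩ := ih
    refine ⟨((r.q, List.ofFn r.x), (r.q', (List.ofFn r.y, List.ofFn fun i => mvn (r.m i)))) :: rl,
      ?_⟩
    rw [List.map_cons, hrl]
    congr 1
    unfold toRule
    obtain ⟨q, x, q', y, m⟩ := r
    simp only [Rule.mk.injEq, true_and]
    refine ⟨?_, ?_, ?_⟩
    · funext i
      exact getD_ofFn x i
    · funext i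
      exact getD_ofFn y i
    · funext i
      rw [getD_ofFn fun i => mvn (m i), mvc_mvn]

/-- Each machine has a description. -/
theorem exists_accL {A : Type} [Finite A] (M : Machine A) (e : A → ℕ) (he : Injective e) :
    ∃ D : Desc, ∀ w s, AcceptsIn M w s ↔ AccL D (w.map e) s := by
  classical
  have := M.finQ
  have := M.finG
  obtain ⟨nq, ⟨fq⟩⟩ := Finite.exists_equiv_fin M.Q
  obtain ⟨ng, ⟨fg⟩⟩ := Finite.exists_equiv_fin M.G
  obtain ⟨m, hm⟩ : ∃ m, ∀ a, e a < m := by
    cases nonempty_fintype A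
    exact ⟨Finset.univ.sup e + 1, fun a => Nat.lt_succ_of_le (Finset.le_sup (Finset.mem_univ a))⟩
  set eq : M.Q → ℕ := fun q => fq q with heq
  set el : Option (A ⊕ M.G) → ℕ := fun x => match x with
    | none => 0
    | some (Sum.inl a) => e a + 1
    | some (Sum.inr g) => m + 1 + fg g with hel
  have ieq : Injective eq := fun a b h => fq.injective (Fin.ext h)
  have iel : Injective el := by
    intro x y h
    rcases x with _ | (a | g) <;> rcases y with _ | (b | g') <;> simp only [hel] at h
    · rfl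
    · omega
    · omega
    · omega
    · rw [he (Nat.succ_injective h)]
    · have := hm a; omega
    · omega
    · have := hm b; omega
    · have h' : (fg g : ℕ) = fg g' := by omega
      rw [fg.injective (Fin.ext h')]
  have hfin : Set.Finite {r : Rule M.k | IsRule M eq el r} := by
    have : Finite Move := by
      refine Finite.of_injective (β := Fin 3) (fun m => match m with
        | .left => 0 | .stay => 1 | .right => 2) ?_
      intro a b h
      cases a <;> cases b <;> simp_all
    let g : (M.Q × (Fin (M.k + 1) → Option (A ⊕ M.G))) × (M.Q × (Fin (M.k + 1) →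
        Option (A ⊕ M.G)) × (Fin (M.k + 1) → Move)) → Rule M.k :=
      fun p => ⟨eq p.1.1, fun i => el (p.1.2 i), eq p.2.1, fun i => el (p.2.2.1 i), p.2.2.2⟩
    refine (Set.finite_range g).subset ?_
    rintro r ⟨q, x, ρ, hρ, rfl⟩
    exact ⟨((q, x), ρ), rfl⟩
  have hF : Set.Finite {q : ℕ | ∃ s ∈ M.accepting, q = eq s} := by
    refine (Set.finite_range eq).subset ?_
    rintro q ⟨s, -, rfl⟩
    exact ⟨s, rfl⟩
  obtain ⟨rl, hrl⟩ := exists_desc hfin.toFinset.toList
  refine ⟨((M.k, eq M.start), (hF.toFinset.toList, rl)), fun w s => ?_⟩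
  rw [accL_iff]
  simp only [hrl]
  have hrs : ∀ r, r ∈ hfin.toFinset.toList ↔ IsRule M eq el r := by
    intro r
    simp
  have key := rch_iff_confs (e := e) ieq iel rfl (fun _ => rfl) hrs w s
  rw [acceptsIn_iff_rch]
  unfold accC
  constructor
  · rintro ⟨c, h1, h2⟩
    obtain ⟨κ, h3, h4⟩ := key.1 c h1
    refine ⟨κ, h3, ?_⟩
    simp only [Finset.mem_toList, Set.Finite.mem_toFinset, Set.mem_ofPred_eq]
    exact ⟨c.state, h2, h4.1⟩
  · rintro ⟨κ, h3, h4⟩
    obtain ⟨c, h1, h2⟩ := key.2 κ h3
    simp only [Finset.mem_toList, Set.Finite.mem_toFinset, Set.mem_ofPred_eq] at h4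
    obtain ⟨s', h5, h6⟩ := h4
    refine ⟨c, h1, ?_⟩
    have : c.state = s' := ieq (by rw [← h2.1, h6])
    rw [this]
    exact h5

theorem exists_rule_bound {k : ℕ} (rs : List (Rule k)) (q0 : ℕ) : ∃ N, q0 < N ∧ ∀ r ∈ rs,
    r.q < N ∧ r.q' < N ∧ ∀ i, r.x i < N ∧ r.y i < N := by
  induction rs with
  | nil => exact ⟨q0 + 1, by omega, by simp⟩
  | cons r rs ih =>
    obtain ⟨N, h1, h2⟩ := ih
    refine ⟨N + (r.q + r.q' + ∑ i, r.x i + ∑ i, r.y i) + 1, by omega, ?_⟩
    intro r' hr'
    have hs : ∀ (f : Fin (k + 1) → ℕ) (i : Fin (k + 1)), f i ≤ ∑ i, f i := fun f i =>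
      Finset.single_le_sum (fun _ _ => Nat.zero_le _) (Finset.mem_univ i)
    rcases List.mem_cons.1 hr' with rfl | h3
    · refine ⟨by omega, by omega, fun i => ?_⟩
      have := hs r'.x i
      have := hs r'.y i
      constructor <;> omega
    · obtain ⟨h4, h5, h6⟩ := h2 r' h3
      refine ⟨by omega, by omega, fun i => ?_⟩
      have := h6 i
      constructor <;> omega

/-- Each description is the description of a machine. -/
theorem exists_machine_of_rules {A : Type} {m : ℕ} {e : A → ℕ} (he : Injective e)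
    (hm : ∀ a, e a < m) (hs : ∀ i < m, ∃ a, e a = i) {k : ℕ} (rs : List (Rule k)) (q0 : ℕ)
    (F : List ℕ) :
    ∃ M : Machine A, ∀ w s, AcceptsIn M w s ↔ accC rs q0 F (w.map e) s := by
  obtain ⟨N, hN, hrN⟩ := exists_rule_bound rs q0
  let el : Option (A ⊕ Fin N) → ℕ := fun x => match x with
    | none => 0
    | some (Sum.inl a) => e a + 1
    | some (Sum.inr g) => m + 1 + g
  have iel : Injective el := by
    intro x y h
    rcases x with _ | (a | g) <;> rcases y with _ | (b | g') <;> simp only [el] at h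
    · rfl
    · omega
    · omega
    · omega
    · rw [he (Nat.succ_injective h)]
    · have := hm a; omega
    · omega
    · have := hm b; omega
    · have h' : (g : ℕ) = g' := by omega
      rw [Fin.ext h']
  have sel : ∀ n < N, ∃ x, el x = n := by
    intro n hn
    rcases Nat.eq_zero_or_pos n with rfl | h0
    · exact ⟨none, rfl⟩
    · rcases Nat.lt_or_ge n (m + 1) with h1 | h1
      · obtain ⟨a, ha⟩ := hs (n - 1) (by omega)
        exact ⟨some (Sum.inl a), by simp only [el]; omega⟩
      · exact ⟨some (Sum.inr ⟨n - (m + 1), by omega⟩), by simp only [el]; omega⟩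
  let M : Machine A :=
    { k := k
      Q := Fin N
      finQ := inferInstance
      G := Fin N
      finG := inferInstance
      start := ⟨q0, hN⟩
      accepting := {q | (q : ℕ) ∈ F}
      δ := fun q x => {ρ | (⟨q, fun i => el (x i), ρ.1, fun i => el (ρ.2.1 i), ρ.2.2⟩ : Rule k) ∈
        rs} }
  have hrs : ∀ r : Rule M.k, r ∈ rs ↔ IsRule M (fun q : Fin N => (q : ℕ)) el r := by
    intro r
    constructor
    · intro hr
      obtain ⟨h1, h2, h3⟩ := hrN r hr
      choose x hx using fun i => sel (r.x i) (h3 i).1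
      choose y hy using fun i => sel (r.y i) (h3 i).2
      have heq : (⟨r.q, fun i => el (x i), r.q', fun i => el (y i), r.m⟩ : Rule k) = r := by
        simp only [hx, hy]
        rfl
      exact ⟨⟨r.q, h1⟩, x, (⟨r.q', h2⟩, y, r.m), by
        show (⟨r.q, fun i => el (x i), r.q', fun i => el (y i), r.m⟩ : Rule k) ∈ rs
        rw [heq]
        exact hr, heq.symm⟩
    · rintro ⟨q, x, ρ, hρ, rfl⟩
      exact hρ
  refine ⟨M, fun w s => ?_⟩
  have key := rch_iff_confs (M := M) (eq := fun q : Fin N => (q : ℕ)) (el := el) (e := e)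
    (fun a b h => Fin.ext h) iel rfl (fun _ => rfl) hrs w s
  rw [acceptsIn_iff_rch]
  unfold accC
  constructor
  · rintro ⟨c, h1, h2⟩
    obtain ⟨κ, h3, h4⟩ := key.1 c h1
    refine ⟨κ, h3, ?_⟩
    rw [h4.1]
    exact h2
  · rintro ⟨κ, h3, h4⟩
    obtain ⟨c, h1, h2⟩ := key.2 κ h3
    refine ⟨c, h1, ?_⟩
    rw [h2.1] at h4
    exact h4

/-- Each description is the description of a machine. -/
theorem exists_machine_of_desc {A : Type} {m : ℕ} {e : A → ℕ} (he : Injective e)
    (hm : ∀ a, e a < m) (hs : ∀ i < m, ∃ a, e a = i) (D : Desc) :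
    ∃ M : Machine A, ∀ w s, AcceptsIn M w s ↔ AccL D (w.map e) s := by
  obtain ⟨M, hM⟩ := exists_machine_of_rules he hm hs (D.2.2.map (toRule D.1.1)) D.1.2 D.2.1
  exact ⟨M, fun w s => by rw [hM, accL_iff]⟩

end Pool.Agent.H83.NT
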