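import Pool.Agent.H83.NT.Defs
import Pool.Agent.H83.NT.Acceptor
import Pool.Agent.H83.NT.Sim

/-!
A uniform family of deterministic acceptors for the r.e. languages, with partial recursive
acceptance time.
-/

namespace Pool.Agent.H83.NT

open Function Pool.Agent.Lead.NTM Encodable Denumerable
open Nat.Partrec (Code)

/-- Number of steps from the accumulator `x`. -/
theorem foldl_ph_fst (B : ℕ) (u : List ℕ) (s : ℕ × ℕ) :
    (u.foldl (ph B) s).1 = u.foldl (fun x a => x * B + (a + 1)) s.1 := by
  induction u generalizing s with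
  | nil => rfl
  | cons a u ih => rw [List.foldl_cons, List.foldl_cons, ih]; rfl

theorem phase_injective {B : ℕ} {u v : List ℕ} (hu : ∀ a ∈ u, a + 1 < B) (hv : ∀ a ∈ v, a + 1 < B)
    (h : (phase B u).1 = (phase B v).1) : u = v := by
  unfold phase at h
  rw [foldl_ph_fst, foldl_ph_fst] at h
  simp only at h
  induction u using List.reverseRecOn generalizing v with
  | nil =>
    induction v using List.reverseRecOn with
    | nil => rfl
    | append_singleton v b _ =>
      rw [List.foldl_append] at h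
      simp at h
  | append_singleton u a ih =>
    induction v using List.reverseRecOn with
    | nil =>
      rw [List.foldl_append] at h
      simp at h
    | append_singleton v b _ =>
      rw [List.foldl_append, List.foldl_append] at h
      simp only [List.foldl_cons, List.foldl_nil] at h
      have ha : a + 1 < B := hu a (by simp)
      have hb : b + 1 < B := hv b (by simp)
      generalize hx : List.foldl (fun x a => x * B + (a + 1)) 0 u = x at h ih
      generalize hy : List.foldl (fun x a => x * B + (a + 1)) 0 v = y at h ih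
      have h1 : (x * B + (a + 1)) % B = (y * B + (b + 1)) % B := by rw [h]
      rw [Nat.mul_add_mod', Nat.mul_add_mod', Nat.mod_eq_of_lt ha, Nat.mod_eq_of_lt hb] at h1
      have h2 : x = y := by
        have h3 : x * B = y * B := by omega
        exact Nat.eq_of_mul_eq_mul_right (by omega) h3
      have h4 : a = b := by omega
      rw [ih (v := v) (fun c hc => hu c (by simp [hc])) (fun c hc => hv c (by simp [hc]))
        (by rw [hy, h2]), h4]

theorem primrec_phase : Primrec₂ phase := by
  have hph : Primrec₂ fun (B : ℕ × List ℕ) (p : (ℕ × ℕ) × ℕ) => ph B.1 p.1 p.2 := by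
    have hB : Primrec fun q : (ℕ × List ℕ) × ((ℕ × ℕ) × ℕ) => q.1.1 :=
      Primrec.fst.comp Primrec.fst
    have hx : Primrec fun q : (ℕ × List ℕ) × ((ℕ × ℕ) × ℕ) => q.2.1.1 :=
      Primrec.fst.comp (Primrec.fst.comp Primrec.snd)
    have hk : Primrec fun q : (ℕ × List ℕ) × ((ℕ × ℕ) × ℕ) => q.2.1.2 :=
      Primrec.snd.comp (Primrec.fst.comp Primrec.snd)
    have ha : Primrec fun q : (ℕ × List ℕ) × ((ℕ × ℕ) × ℕ) => q.2.2 :=
      Primrec.snd.comp Primrec.snd
    have hc : ∀ n : ℕ, Primrec fun _ : (ℕ × List ℕ) × ((ℕ × ℕ) × ℕ) => n :=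
      fun n => Primrec.const n
    refine (Primrec.nat_add.comp (Primrec.nat_mul.comp hx hB)
      (Primrec.nat_add.comp ha (hc 1))).pair ?_
    exact Primrec.nat_add.comp hk (Primrec.nat_add.comp (Primrec.nat_add.comp
      (Primrec.nat_mul.comp (Primrec.nat_add.comp (Primrec.nat_mul.comp (hc 3) hB) (hc 2)) hx)
      ha) (hc 5))
  exact Primrec.list_foldl Primrec.snd (Primrec.const (0, 0)) hph

/-- The universal relation: `x` codes in base `B` a word on which the code `c` halts, where `y`
codes `(B, c)`. -/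
def Urel (x y : ℕ) : Prop :=
  ∃ u : List ℕ, (∀ a ∈ u, a + 1 < y.unpair.1) ∧ (phase y.unpair.1 u).1 = x ∧
    ((ofNat Code y.unpair.2).eval (encode u)).Dom

theorem repred_urel : REPred fun n : ℕ => Urel n.unpair.1 n.unpair.2 := by
  classical
  -- the matrix
  let P : ℕ → ℕ → Prop := fun n k =>
    (∀ a ∈ ofNat (List ℕ) k.unpair.1, a + 1 < n.unpair.2.unpair.1) ∧
      (phase n.unpair.2.unpair.1 (ofNat (List ℕ) k.unpair.1)).1 = n.unpair.1 ∧
      ((Code.evaln k.unpair.2 (ofNat Code n.unpair.2.unpair.2) k.unpair.1).isSome = true)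
  have hP : PrimrecRel P := by
    have hn : Primrec fun p : ℕ × ℕ => p.1 := Primrec.fst
    have hk1 : Primrec fun p : ℕ × ℕ => p.2.unpair.1 :=
      Primrec.fst.comp (Primrec.unpair.comp Primrec.snd)
    have hk2 : Primrec fun p : ℕ × ℕ => p.2.unpair.2 :=
      Primrec.snd.comp (Primrec.unpair.comp Primrec.snd)
    have hu : Primrec fun p : ℕ × ℕ => ofNat (List ℕ) p.2.unpair.1 :=
      (Primrec.ofNat (List ℕ)).comp hk1
    have hx : Primrec fun p : ℕ × ℕ => p.1.unpair.1 :=
      Primrec.fst.comp (Primrec.unpair.comp hn)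
    have hy : Primrec fun p : ℕ × ℕ => p.1.unpair.2 :=
      Primrec.snd.comp (Primrec.unpair.comp hn)
    have hB : Primrec fun p : ℕ × ℕ => p.1.unpair.2.unpair.1 :=
      Primrec.fst.comp (Primrec.unpair.comp hy)
    have hc : Primrec fun p : ℕ × ℕ => ofNat Code p.1.unpair.2.unpair.2 :=
      (Primrec.ofNat Code).comp (Primrec.snd.comp (Primrec.unpair.comp hy))
    have h1 : PrimrecPred fun p : ℕ × ℕ =>
        ∀ a ∈ ofNat (List ℕ) p.2.unpair.1, a + 1 < p.1.unpair.2.unpair.1 :=
      (PrimrecRel.forall_mem_list (R := fun (a b : ℕ) => a + 1 < b)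
        (Primrec.nat_lt.comp (Primrec.succ.comp Primrec.fst) Primrec.snd)).comp hu hB
    have h2 : PrimrecPred fun p : ℕ × ℕ =>
        (phase p.1.unpair.2.unpair.1 (ofNat (List ℕ) p.2.unpair.1)).1 = p.1.unpair.1 :=
      Primrec.eq.comp (Primrec.fst.comp (primrec_phase.comp hB hu)) hx
    have h3 : PrimrecPred fun p : ℕ × ℕ =>
        ((Code.evaln p.2.unpair.2 (ofNat Code p.1.unpair.2.unpair.2) p.2.unpair.1).isSome
          = true) :=
      Primrec.eq.comp (Primrec.option_isSome.comp
        (Code.primrec_evaln.comp ((hk2.pair hc).pair hk1))) (Primrec.const true)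
    exact h1.and (h2.and h3)
  have hf : Partrec fun n : ℕ => Nat.rfind fun k => Part.some (decide (P n k)) := by
    have h : Computable₂ fun n k : ℕ => decide (P n k) := hP.decide.to_comp
    exact Partrec.rfind h.partrec₂
  refine hf.dom_re.of_eq fun n => ?_
  rw [Part.dom_iff_mem]
  constructor
  · rintro ⟨k, hk⟩
    have h1 := Nat.rfind_spec hk
    have h2 : P n k := by simpa using h1
    obtain ⟨h3, h4, h5⟩ := h2
    refine ⟨_, h3, h4, ?_⟩
    obtain ⟨z, hz⟩ := Option.isSome_iff_exists.1 h5
    rw [Part.dom_iff_mem]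
    exact ⟨z, by
      have := Code.evaln_sound (Option.mem_def.2 hz)
      simpa using this⟩
  · rintro ⟨u, h3, h4, h5⟩
    obtain ⟨z, hz⟩ := Part.dom_iff_mem.1 h5
    obtain ⟨t, ht⟩ := Code.evaln_complete.1 hz
    have h6 : decide (P n (Nat.pair (encode u) t)) = true := by
      simp only [decide_eq_true_eq]
      refine ⟨by simpa using h3, by simpa using h4, ?_⟩
      rw [Nat.unpair_pair]
      exact Option.isSome_iff_exists.2 ⟨z, ht⟩
    obtain ⟨k, hk, -⟩ := Nat.rfind_min' (p := fun k => decide (P n k)) h6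
    exact ⟨k, hk⟩

/-- The universal counter machine. -/
noncomputable def UC : CM := (exists_cm repred_urel).choose

theorem uc_spec (x y : ℕ) : Urel x y ↔ (UC.time (x, y)).Dom :=
  (exists_cm repred_urel).choose_spec x y

/-- The parameter of the acceptor for the code `c` and alphabets with letters `< m`. -/
def yOf (m : ℕ) (c : Code) : ℕ := Nat.pair (m + 1) (encode c)

/-- Acceptance time. -/
noncomputable def T (p : (ℕ × Code) × List ℕ) : Part ℕ :=
  (UC.time ((phase (p.1.1 + 1) p.2).1, yOf p.1.1 p.1.2)).map fun i =>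
    i + (phase (p.1.1 + 1) p.2).2 + yOf p.1.1 p.1.2 + 3

theorem partrec_T : Partrec T := by
  have hm : Primrec fun p : (ℕ × Code) × List ℕ => p.1.1 + 1 :=
    Primrec.succ.comp (Primrec.fst.comp Primrec.fst)
  have hy : Primrec fun p : (ℕ × Code) × List ℕ => yOf p.1.1 p.1.2 :=
    Primrec₂.natPair.comp hm (Primrec.encode.comp (Primrec.snd.comp Primrec.fst))
  have hp : Primrec fun p : (ℕ × Code) × List ℕ => phase (p.1.1 + 1) p.2 :=
    primrec_phase.comp hm Primrec.snd
  refine Partrec.map (UC.partrec_time.comp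
    (((Primrec.fst.comp hp).pair hy).to_comp)) ?_
  exact (Primrec.nat_add.comp (Primrec.nat_add.comp (Primrec.nat_add.comp Primrec.snd
    (Primrec.snd.comp (hp.comp Primrec.fst))) (hy.comp Primrec.fst)) (Primrec.const 3)).to_comp

theorem T_dom {m : ℕ} {c : Code} {u : List ℕ} (hu : ∀ a ∈ u, a < m) :
    (T ((m, c), u)).Dom ↔ (c.eval (encode u)).Dom := by
  show (UC.time _).Dom ↔ _
  rw [← uc_spec]
  unfold Urel yOf
  simp only [Nat.unpair_pair, ofNat_encode]
  constructor
  · rintro ⟨v, h1, h2, h3⟩
    have : v = u := phase_injective h1 (fun a ha => by have := hu a ha; omega) h2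
    rw [← this]
    exact h3
  · intro h
    exact ⟨u, fun a ha => by have := hu a ha; omega, rfl, h⟩

/-- The acceptor. -/
noncomputable def macc {A : Type} [Finite A] (e : A → ℕ) (m : ℕ) (c : Code) : Machine A :=
  acceptor UC e (yOf m c) (m + 1)

theorem acceptsIn_macc {A : Type} [Finite A] {e : A → ℕ} {m : ℕ} (he : ∀ a, e a < m) {c : Code}
    {w : List A} {s : ℕ} : AcceptsIn (macc e m c) w s ↔ s ∈ T ((m, c), w.map e) := by
  unfold macc
  rw [acceptsIn_acceptor (fun a => by have := he a; omega)]
  unfold T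
  simp only [Part.mem_map_iff]
  constructor
  · rintro ⟨i, h1, h2⟩
    exact ⟨i, h1, h2.symm⟩
  · rintro ⟨i, h1, h2⟩
    exact ⟨i, h1, h2.symm⟩

theorem accepts_macc {A : Type} [Finite A] {e : A → ℕ} {m : ℕ} (he : ∀ a, e a < m) {c : Code}
    {w : List A} : Accepts (macc e m c) w ↔ (c.eval (encode (w.map e))).Dom := by
  rw [← T_dom (m := m) (by simpa using fun a _ => he a), Part.dom_iff_mem]
  exact exists_congr fun s => acceptsIn_macc he

theorem macc_deterministic {A : Type} [Finite A] (e : A → ℕ) (m : ℕ) (c : Code) :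
    Deterministic (macc e m c) := fun q x => rδ_subsingleton _ _ q x

end Pool.Agent.H83.NT
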