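import Pool.Agent.H83.NT.Pi3C
import Pool.Agent.H83.NT.Uni

/-!
Index sets of time bounds and the upper bound `Π⁰₃`.
-/

namespace Pool.Agent.H83.NT

open Function Pool.Agent.Lead.NTM Encodable Denumerable
open Nat.Partrec (Code)

attribute [local irreducible] T words accB hh F gs ev bad win rq V0 V1 mkp
  FF kw elig frst DD stop selB sel mke eM eC eD Pl

theorem IsPi3.inter {S S' : Set ℕ} (h : IsPi3 S) (h' : IsPi3 S') : IsPi3 (S ∩ S') := by
  obtain ⟨R, hR, hS⟩ := h
  obtain ⟨R', hR', hS'⟩ := h'
  refine ⟨fun x a b c => R x a b.unpair.1 c && R' x a b.unpair.2 c, ?_, fun x => ?_⟩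
  · have hz : Computable fun q : (ℕ × ℕ) × (ℕ × ℕ) => (q.1, (q.2.1.unpair.1, q.2.2)) :=
      Computable.fst.pair ((Computable.fst.comp (Computable.unpair.comp
        (Computable.fst.comp Computable.snd))).pair (Computable.snd.comp Computable.snd))
    have hz' : Computable fun q : (ℕ × ℕ) × (ℕ × ℕ) => (q.1, (q.2.1.unpair.2, q.2.2)) :=
      Computable.fst.pair ((Computable.snd.comp (Computable.unpair.comp
        (Computable.fst.comp Computable.snd))).pair (Computable.snd.comp Computable.snd))
    have h1 := hR.comp hz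
    have h2 := hR'.comp hz'
    exact computable_and.comp h1 h2
  · simp only [Set.mem_inter_iff, hS, hS', Bool.and_eq_true]
    constructor
    · rintro ⟨h1, h2⟩ a
      obtain ⟨b, hb⟩ := h1 a
      obtain ⟨b', hb'⟩ := h2 a
      exact ⟨Nat.pair b b', fun c => by simpa using ⟨hb c, hb' c⟩⟩
    · intro h
      constructor
      · intro a
        obtain ⟨b, hb⟩ := h a
        exact ⟨b.unpair.1, fun c => (hb c).1⟩
      · intro a
        obtain ⟨b, hb⟩ := h a
        exact ⟨b.unpair.2, fun c => (hb c).2⟩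

/-- Bounded evaluation. -/
def ex (z : ℕ × ℕ) (n : ℕ) : Option ℕ := Code.evaln z.1 (ofNat Code z.2) n

theorem computable_ex : Computable₂ ex := by
  have h : Primrec fun z : (ℕ × ℕ) × ℕ => (((z.1.1, ofNat Code z.1.2), z.2) :
      (ℕ × Code) × ℕ) :=
    ((Primrec.fst.comp Primrec.fst).pair ((Primrec.ofNat Code).comp
      (Primrec.snd.comp Primrec.fst))).pair Primrec.snd
  have h1 := (Code.primrec_evaln.comp h).to_comp
  exact h1

theorem ex_some {k x n v t : ℕ} (h : ex (k, x) n = some v) (ht : t ∈ (ofNat Code x).eval n) :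
    v = t :=
  Part.mem_unique (Code.evaln_sound (Option.mem_def.2 h)) ht

theorem exists_ex {x n t : ℕ} (ht : t ∈ (ofNat Code x).eval n) : ∃ k, ex (k, x) n = some t := by
  obtain ⟨k, hk⟩ := Code.evaln_complete.1 ht
  exact ⟨k, hk⟩

attribute [local irreducible] ex

theorem computable_exS : Computable₂ fun (z : ℕ × ℕ) (n : ℕ) => (ex z n).isSome :=
  Primrec.option_isSome.to_comp.comp computable_ex

theorem computable_exV : Computable₂ fun (z : ℕ × ℕ) (n : ℕ) => (ex z n).getD 0 :=
  Primrec.option_getD.to_comp.comp computable_ex (Computable.const 0)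

theorem computable_ltn : Computable₂ fun a b : ℕ => decide (a < b) :=
  Primrec.nat_lt.decide.to_comp

/-- The index set of the total functions is `Π⁰₃`. -/
theorem isPi3_total : IsPi3 (IndexSet fun _ => True) := by
  refine ⟨fun x a b _ => (ex (b, x) a).isSome, ?_, fun x => ?_⟩
  · have hz : Computable fun q : (ℕ × ℕ) × (ℕ × ℕ) => ((q.2.1, q.1.1) : ℕ × ℕ) :=
      (Computable.fst.comp Computable.snd).pair (Computable.fst.comp Computable.fst)
    exact computable_exS.comp hz (Computable.snd.comp Computable.fst)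
  · constructor
    · rintro ⟨t, ht, -⟩ a
      obtain ⟨k, hk⟩ := exists_ex (ht a)
      exact ⟨k, fun _ => by
        show (ex (k, x) a).isSome = true
        rw [hk]
        rfl⟩
    · intro h
      choose k hk using h
      choose t ht using fun n => Option.isSome_iff_exists.1 (hk n 0)
      refine ⟨t, fun n => ?_, trivial⟩
      have := ht n
      unfold ex at this
      exact Code.evaln_sound (Option.mem_def.2 this)

/-- The index set of the strictly increasing total functions `≥ g` is `Π⁰₃`. -/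
theorem isPi3_strictMono {g : ℕ → ℕ} (hg : Computable g) :
    IsPi3 (IndexSet fun t => StrictMono t ∧ ∀ n, g n ≤ t n) := by
  refine ⟨fun x a b _ => ((ex (b, x) a).isSome && (ex (b, x) (a + 1)).isSome) &&
    (decide ((ex (b, x) a).getD 0 < (ex (b, x) (a + 1)).getD 0) &&
      decide (g a ≤ (ex (b, x) a).getD 0)), ?_, fun x => ?_⟩
  · have hz : Computable fun q : (ℕ × ℕ) × (ℕ × ℕ) => ((q.2.1, q.1.1) : ℕ × ℕ) :=
      (Computable.fst.comp Computable.snd).pair (Computable.fst.comp Computable.fst)
    have ha : Computable fun q : (ℕ × ℕ) × (ℕ × ℕ) => q.1.2 := Computable.snd.comp Computable.fst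
    have ha' : Computable fun q : (ℕ × ℕ) × (ℕ × ℕ) => q.1.2 + 1 := Computable.succ.comp ha
    have h1 := computable_exS.comp hz ha
    have h2 := computable_exS.comp hz ha'
    have h3 := computable_exV.comp hz ha
    have h4 := computable_exV.comp hz ha'
    exact computable_and.comp (computable_and.comp h1 h2)
      (computable_and.comp (computable_ltn.comp h3 h4) (computable_len.comp (hg.comp ha) h3))
  · simp only [Bool.and_eq_true, decide_eq_true_eq]
    constructor
    · rintro ⟨t, ht, h1, h2⟩ a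
      obtain ⟨k, hk⟩ := exists_ex (ht a)
      obtain ⟨k', hk'⟩ := exists_ex (ht (a + 1))
      have h3 : ∀ {k k' n v : ℕ}, k ≤ k' → ex (k, x) n = some v → ex (k', x) n = some v := by
        intro k k' n v hkk h
        unfold ex at h ⊢
        exact Option.mem_def.1 (Code.evaln_mono hkk (Option.mem_def.2 h))
      have h4 := h3 (le_max_left k k') hk
      have h5 := h3 (le_max_right k k') hk'
      refine ⟨max k k', fun _ => ?_⟩
      rw [h4, h5]
      exact ⟨⟨rfl, rfl⟩, h1 (Nat.lt_succ_self a), h2 a⟩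
    · intro h
      choose k hk using h
      choose t ht using fun n => Option.isSome_iff_exists.1 (hk n 0).1.1
      choose t' ht' using fun n => Option.isSome_iff_exists.1 (hk n 0).1.2
      have hmem : ∀ n, t n ∈ (ofNat Code x).eval n := by
        intro n
        have := ht n
        unfold ex at this
        exact Code.evaln_sound (Option.mem_def.2 this)
      refine ⟨t, hmem, ?_, ?_⟩
      · refine strictMono_nat_of_lt_succ fun n => ?_
        have h1 := (hk n 0).2.1
        rw [ht n, ht' n] at h1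
        have h2 := ex_some (ht' n) (hmem (n + 1))
        rw [← h2]
        exact h1
      · intro n
        have h1 := (hk n 0).2.2
        rw [ht n] at h1
        exact h1

/-- The machine with code `i` accepts `u` in `s` steps. -/
noncomputable def AL (i : ℕ) (u : List ℕ) (s : ℕ) : Bool :=
  @decide (AccL (ofNat Desc i) u s) (Classical.dec _)

theorem computable_AL : Computable fun z : (ℕ × List ℕ) × ℕ => AL z.1.1 z.1.2 z.2 := by
  classical
  have hz : Primrec fun z : (ℕ × List ℕ) × ℕ => (((ofNat Desc z.1.1, z.1.2), z.2) :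
      (Desc × List ℕ) × ℕ) :=
    (((Primrec.ofNat Desc).comp (Primrec.fst.comp Primrec.fst)).pair
      (Primrec.snd.comp Primrec.fst)).pair Primrec.snd
  have h := (primrec_accL.comp hz).decide.to_comp
  refine h.of_eq fun z => ?_
  unfold AL
  congr

theorem AL_iff {i : ℕ} {u : List ℕ} {s : ℕ} : AL i u s = true ↔ AccL (ofNat Desc i) u s := by
  unfold AL
  simp

attribute [local irreducible] AL

/-- Acceptance within `P_d(v)` steps. -/
noncomputable def accv (z : ℕ × ℕ) (u : List ℕ) (v : ℕ) : Bool :=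
  decide (∃ s < Pl z.2 v + 1, AL z.1 u s = true)

theorem accv_iff {i d : ℕ} {u : List ℕ} {v : ℕ} : accv (i, d) u v = true ↔
    ∃ s ≤ Pl d v, AccL (ofNat Desc i) u s := by
  unfold accv
  simp only [decide_eq_true_eq, Nat.lt_succ_iff, AL_iff]

theorem computable_accv : Computable fun z : (ℕ × ℕ) × (List ℕ × ℕ) =>
    accv z.1 z.2.1 z.2.2 := by
  have h1' := computable_AL.comp (((Computable.fst.comp (Computable.fst.comp Computable.fst) :
    Computable fun z : ((ℕ × ℕ) × (List ℕ × ℕ)) × ℕ => z.1.1.1).pair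
      (Computable.fst.comp (Computable.snd.comp Computable.fst))).pair Computable.snd)
  have h1 : Computable₂ fun (z : (ℕ × ℕ) × (List ℕ × ℕ)) (s : ℕ) => AL z.1.1 z.2.1 s := h1'
  have h2 : Computable fun z : (ℕ × ℕ) × (List ℕ × ℕ) => Pl z.1.2 z.2.2 + 1 :=
    Computable.succ.comp (primrec_Pl.to_comp.comp (Computable.snd.comp Computable.fst)
      (Computable.snd.comp Computable.snd))
  exact computable_bex h1 h2

attribute [local irreducible] accv

/-- The letters are `< m`. -/
def okw (m : ℕ) (u : List ℕ) : Bool := decide (∀ a ∈ u, a < m)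

theorem computable_okw (m : ℕ) : Computable (okw m) := by
  have h : PrimrecRel fun (L : List ℕ) (b : ℕ) => ∀ a ∈ L, a < b :=
    PrimrecRel.forall_mem_list (R := fun (a b : ℕ) => a < b) Primrec.nat_lt
  have h1 := (h.comp Primrec.id (Primrec.const m)).decide.to_comp
  refine h1.of_eq fun u => ?_
  unfold okw
  congr

theorem okw_iff {m : ℕ} {u : List ℕ} : okw m u = true ↔ ∀ a ∈ u, a < m := by
  unfold okw
  simp only [decide_eq_true_eq]

attribute [local irreducible] okw

/-- A list given by its code. -/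
def lc (n : ℕ) : List ℕ := ofNat (List ℕ) n

theorem computable_lc : Computable lc := Computable.ofNat (List ℕ)

theorem lc_encode (u : List ℕ) : lc (encode u) = u := ofNat_encode u

attribute [local irreducible] lc

/-- `k, x, u` -/
def vv (k x : ℕ) (u : List ℕ) : ℕ := (ex (k, x) u.length).getD 0

/-- First alternative: `a = (i, d)`, `y = (u, (s, k))`. -/
noncomputable def R0 (m x a y : ℕ) : Bool :=
  (okw m (lc y.unpair.1) && AL a.unpair.1 (lc y.unpair.1) y.unpair.2.unpair.1) &&
    ((ex (y.unpair.2.unpair.2, x) (lc y.unpair.1).length).isSome &&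
      !(accv a.unpair (lc y.unpair.1) ((ex (y.unpair.2.unpair.2, x)
        (lc y.unpair.1).length).getD 0)))

/-- Second alternative: `a = (i, d)`, `b = (i', d')`, `y = (u, (s, k))`. -/
noncomputable def R1 (m x a b y : ℕ) : Bool :=
  !(okw m (lc y.unpair.1)) || (!((ex (y.unpair.2.unpair.2, x) (lc y.unpair.1).length).isSome) ||
    (decide (accv a.unpair (lc y.unpair.1) ((ex (y.unpair.2.unpair.2, x)
        (lc y.unpair.1).length).getD 0) =
      !(accv b.unpair (lc y.unpair.1) ((ex (y.unpair.2.unpair.2, x)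
        (lc y.unpair.1).length).getD 0))) &&
      (!(AL b.unpair.1 (lc y.unpair.1) y.unpair.2.unpair.1) ||
        accv b.unpair (lc y.unpair.1) ((ex (y.unpair.2.unpair.2, x)
          (lc y.unpair.1).length).getD 0))))

/-- Projections. -/
theorem cu1 {α : Type} [Primcodable α] {f : α → ℕ} (hf : Computable f) :
    Computable fun a => (f a).unpair.1 := Computable.fst.comp (Computable.unpair.comp hf)

theorem cu2 {α : Type} [Primcodable α] {f : α → ℕ} (hf : Computable f) :
    Computable fun a => (f a).unpair.2 := Computable.snd.comp (Computable.unpair.comp hf)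

theorem computable_R0 (m : ℕ) : Computable fun q : ℕ × (ℕ × ℕ) => R0 m q.1 q.2.1 q.2.2 := by
  have hx : Computable fun q : ℕ × (ℕ × ℕ) => q.1 := Computable.fst
  have ha : Computable fun q : ℕ × (ℕ × ℕ) => q.2.1 := Computable.fst.comp Computable.snd
  have hy : Computable fun q : ℕ × (ℕ × ℕ) => q.2.2 := Computable.snd.comp Computable.snd
  have hu : Computable fun q : ℕ × (ℕ × ℕ) => lc q.2.2.unpair.1 := computable_lc.comp (cu1 hy)
  have hl : Computable fun q : ℕ × (ℕ × ℕ) => (lc q.2.2.unpair.1).length :=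
    Primrec.list_length.to_comp.comp hu
  have hkx : Computable fun q : ℕ × (ℕ × ℕ) => (q.2.2.unpair.2.unpair.2, q.1) :=
    (cu2 (cu2 hy)).pair hx
  have h1 := computable_exS.comp hkx hl
  have h2 := computable_exV.comp hkx hl
  have h3 := computable_AL.comp (((cu1 ha).pair hu).pair (cu1 (cu2 hy)))
  have h4 := computable_accv.comp ((Computable.unpair.comp ha).pair (hu.pair h2))
  have h5 := (computable_okw m).comp hu
  exact computable_and.comp (computable_and.comp h5 h3)
    (computable_and.comp h1 (computable_not.comp h4))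

theorem computable_R1 (m : ℕ) : Computable fun q : (ℕ × ℕ) × (ℕ × ℕ) =>
    R1 m q.1.1 q.1.2 q.2.1 q.2.2 := by
  have hx : Computable fun q : (ℕ × ℕ) × (ℕ × ℕ) => q.1.1 := Computable.fst.comp Computable.fst
  have ha : Computable fun q : (ℕ × ℕ) × (ℕ × ℕ) => q.1.2 := Computable.snd.comp Computable.fst
  have hb : Computable fun q : (ℕ × ℕ) × (ℕ × ℕ) => q.2.1 := Computable.fst.comp Computable.snd
  have hy : Computable fun q : (ℕ × ℕ) × (ℕ × ℕ) => q.2.2 := Computable.snd.comp Computable.snd
  have hu : Computable fun q : (ℕ × ℕ) × (ℕ × ℕ) => lc q.2.2.unpair.1 :=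
    computable_lc.comp (cu1 hy)
  have hl : Computable fun q : (ℕ × ℕ) × (ℕ × ℕ) => (lc q.2.2.unpair.1).length :=
    Primrec.list_length.to_comp.comp hu
  have hkx : Computable fun q : (ℕ × ℕ) × (ℕ × ℕ) => (q.2.2.unpair.2.unpair.2, q.1.1) :=
    (cu2 (cu2 hy)).pair hx
  have h1 := computable_exS.comp hkx hl
  have h2 := computable_exV.comp hkx hl
  have h3 := computable_AL.comp (((cu1 hb).pair hu).pair (cu1 (cu2 hy)))
  have h4 := computable_accv.comp ((Computable.unpair.comp ha).pair (hu.pair h2))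
  have h6 := computable_accv.comp ((Computable.unpair.comp hb).pair (hu.pair h2))
  have h5 := (computable_okw m).comp hu
  have heq : Computable₂ fun a b : Bool => decide (a = b) :=
    (Primrec.eq (α := Bool)).decide.to_comp
  exact computable_or.comp (computable_not.comp h5) (computable_or.comp (computable_not.comp h1)
    (computable_and.comp (heq.comp h4 (computable_not.comp h6))
      (computable_or.comp (computable_not.comp h3) h6)))

theorem R0_iff {m x i d : ℕ} {u : List ℕ} {s k : ℕ} {t : ℕ → ℕ}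
    (ht : ∀ n, t n ∈ (ofNat Code x).eval n) :
    R0 m x (Nat.pair i d) (Nat.pair (encode u) (Nat.pair s k)) = true ↔
      (∀ a ∈ u, a < m) ∧ AL i u s = true ∧ ex (k, x) u.length = some (t u.length) ∧
        accv (i, d) u (t u.length) = false := by
  unfold R0
  simp only [Nat.unpair_pair, lc_encode, Bool.and_eq_true, okw_iff, Bool.not_eq_true']
  constructor
  · rintro ⟨⟨h1, h2⟩, h3, h4⟩
    obtain ⟨v, hv⟩ := Option.isSome_iff_exists.1 h3
    have h5 := ex_some hv (ht _)
    subst h5
    rw [hv] at h4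
    exact ⟨h1, h2, hv, h4⟩
  · rintro ⟨h1, h2, h3, h4⟩
    rw [h3]
    exact ⟨⟨h1, h2⟩, rfl, h4⟩

theorem R1_iff {m x i d i' d' : ℕ} {u : List ℕ} {s k : ℕ} {t : ℕ → ℕ}
    (ht : ∀ n, t n ∈ (ofNat Code x).eval n) :
    R1 m x (Nat.pair i d) (Nat.pair i' d') (Nat.pair (encode u) (Nat.pair s k)) = true ↔
      ((∀ a ∈ u, a < m) → ex (k, x) u.length = some (t u.length) →
        (accv (i, d) u (t u.length) = !(accv (i', d') u (t u.length))) ∧
        (AL i' u s = true → accv (i', d') u (t u.length) = true)) := by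
  unfold R1
  simp only [Nat.unpair_pair, lc_encode, Bool.and_eq_true, Bool.or_eq_true,
    Bool.not_eq_true', decide_eq_true_eq]
  rw [← Bool.not_eq_true, okw_iff, ← Bool.not_eq_true, ← Bool.not_eq_true (AL i' u s)]
  constructor
  · rintro h h1 h2
    rcases h with h | h | h
    · exact absurd h1 h
    · rw [h2] at h
      exact absurd rfl h
    · rw [h2] at h
      exact ⟨h.1, fun h3 => h.2.resolve_left (not_not.2 h3)⟩
  · intro h
    by_cases h1 : ∀ a ∈ u, a < m
    · right
      by_cases h2 : (ex (k, x) u.length).isSome = true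
      · right
        obtain ⟨v, hv⟩ := Option.isSome_iff_exists.1 h2
        have h5 := ex_some hv (ht _)
        subst h5
        obtain ⟨h3, h4⟩ := h h1 hv
        rw [hv]
        refine ⟨h3, ?_⟩
        by_cases h6 : AL i' u s = true
        · exact Or.inr (h4 h6)
        · exact Or.inl h6
      · exact Or.inl h2
    · exact Or.inl h1

/-- `NTIME(Pol t)` in terms of codes. -/
theorem mem_NTIMEPol_iff {A : Type} [Finite A] {m : ℕ} (E : Coding A m) {t : ℕ → ℕ}
    {L : Set (List A)} : L ∈ NTIMEPol A t ↔ ∃ i d,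
      (∀ w : List A, w ∈ L ↔ accv (i, d) (w.map E.e) (t w.length) = true) ∧
        ∀ (w : List A) (s : ℕ), AL i (w.map E.e) s = true →
          accv (i, d) (w.map E.e) (t w.length) = true := by
  constructor
  · rintro ⟨M, p, hM, hp⟩
    obtain ⟨D, hD⟩ := exists_accL M E.e E.inj
    obtain ⟨d, hd⟩ := exists_Pl p
    have h1 : ∀ w, Accepts M w → accv (encode D, d) (w.map E.e) (t w.length) = true := by
      intro w hw
      rw [accv_iff, ofNat_encode]
      obtain ⟨s, h2, h3⟩ := hp w ((hM w).2 hw)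
      exact ⟨s, h2.trans (hd _), (hD w s).1 h3⟩
    refine ⟨encode D, d, fun w => ⟨fun hw => h1 w ((hM w).1 hw), fun hw => ?_⟩, fun w s hs => ?_⟩
    · rw [accv_iff, ofNat_encode] at hw
      obtain ⟨s, -, hs⟩ := hw
      exact (hM w).2 ⟨s, (hD w s).2 hs⟩
    · rw [AL_iff, ofNat_encode] at hs
      exact h1 w ⟨s, (hD w s).2 hs⟩
  · rintro ⟨i, d, h1, h2⟩
    obtain ⟨M, hM⟩ := exists_machine_of_desc E.inj E.lt E.surj (ofNat Desc i)
    have hpl : ∀ v, ((Polynomial.X + Polynomial.C d) ^ d : Polynomial ℕ).eval v = Pl d v := by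
      intro v
      unfold Pl
      simp
    refine ⟨M, (Polynomial.X + Polynomial.C d) ^ d, fun w => ⟨fun hw => ?_, ?_⟩, fun w hw => ?_⟩
    · have h3 := (h1 w).1 hw
      rw [accv_iff] at h3
      obtain ⟨s, -, hs⟩ := h3
      exact ⟨s, (hM w s).2 hs⟩
    · rintro ⟨s, hs⟩
      exact (h1 w).2 (h2 w s ((AL_iff).2 ((hM w s).1 hs)))
    · have h3 := (h1 w).1 hw
      rw [accv_iff] at h3
      obtain ⟨s, h4, hs⟩ := h3
      refine ⟨s, ?_, (hM w s).2 hs⟩
      rw [hpl]
      exact h4

theorem closed_iff {A : Type} {t : ℕ → ℕ} : NTIMEPol A t = coNTIMEPol A t ↔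
    ∀ L ∈ NTIMEPol A t, Lᶜ ∈ NTIMEPol A t := by
  constructor
  · intro h L hL
    rw [h] at hL
    exact hL
  · intro h
    ext L
    constructor
    · exact fun hL => h L hL
    · intro hL
      have := h _ hL
      rwa [compl_compl] at this

/-- The matrix. -/
noncomputable def RR (m x a b y : ℕ) : Bool :=
  bif decide (b.unpair.1 = 0) then R0 m x a b.unpair.2 else R1 m x a b.unpair.2 y

theorem computable_RR (m : ℕ) : Computable fun q : (ℕ × ℕ) × (ℕ × ℕ) =>
    RR m q.1.1 q.1.2 q.2.1 q.2.2 := by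
  have hx : Computable fun q : (ℕ × ℕ) × (ℕ × ℕ) => q.1.1 := Computable.fst.comp Computable.fst
  have ha : Computable fun q : (ℕ × ℕ) × (ℕ × ℕ) => q.1.2 := Computable.snd.comp Computable.fst
  have hb : Computable fun q : (ℕ × ℕ) × (ℕ × ℕ) => q.2.1 := Computable.fst.comp Computable.snd
  have hy : Computable fun q : (ℕ × ℕ) × (ℕ × ℕ) => q.2.2 := Computable.snd.comp Computable.snd
  have h1 := (computable_R0 m).comp (hx.pair (ha.pair (cu2 hb)))
  have h2 := (computable_R1 m).comp ((hx.pair ha).pair ((cu2 hb).pair hy))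
  exact Computable.cond (computable_eqn.comp (cu1 hb) (Computable.const 0)) h1 h2

theorem RR_zero (m x a b y : ℕ) : RR m x a (Nat.pair 0 b) y = R0 m x a b := by
  unfold RR
  simp

theorem RR_one (m x a b y : ℕ) : RR m x a (Nat.pair 1 b) y = R1 m x a b y := by
  unfold RR
  simp

theorem RR_succ (m x a j b y : ℕ) : RR m x a (Nat.pair (j + 1) b) y = R1 m x a b y := by
  unfold RR
  simp

theorem closed_iff_RR {A : Type} [Finite A] {m : ℕ} (E : Coding A m) {x : ℕ} {t : ℕ → ℕ}
    (ht : ∀ n, t n ∈ (ofNat Code x).eval n) :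
    NTIMEPol A t = coNTIMEPol A t ↔ ∀ a, ∃ b, ∀ y, RR m x a b y = true := by
  rw [closed_iff]
  constructor
  · intro h a
    obtain ⟨i, d, rfl⟩ : ∃ i d, a = Nat.pair i d := ⟨a.unpair.1, a.unpair.2, by simp⟩
    by_cases hc : ∃ w : List A, ∃ s, AL i (w.map E.e) s = true ∧
        accv (i, d) (w.map E.e) (t w.length) = false
    · obtain ⟨w, s, h1, h2⟩ := hc
      obtain ⟨k, hk⟩ := exists_ex (ht w.length)
      refine ⟨Nat.pair 0 (Nat.pair (encode (w.map E.e)) (Nat.pair s k)), fun y => ?_⟩
      rw [RR_zero, R0_iff ht, List.length_map]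
      exact ⟨by simpa using fun a _ => E.lt a, h1, hk, h2⟩
    · push Not at hc
      have h1 : {w : List A | accv (i, d) (w.map E.e) (t w.length) = true} ∈ NTIMEPol A t :=
        (mem_NTIMEPol_iff E).2 ⟨i, d, fun w => Iff.rfl, fun w s hs => by simpa using hc w s hs⟩
      obtain ⟨i', d', h2, h3⟩ := (mem_NTIMEPol_iff E).1 (h _ h1)
      refine ⟨Nat.pair 1 (Nat.pair i' d'), fun y => ?_⟩
      obtain ⟨u, s, k, rfl⟩ : ∃ u s k, y = Nat.pair (encode (u : List ℕ)) (Nat.pair s k) :=
        ⟨ofNat (List ℕ) y.unpair.1, y.unpair.2.unpair.1, y.unpair.2.unpair.2, by simp⟩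
      rw [RR_one, R1_iff ht]
      intro hu hk
      obtain ⟨w, hw, rfl⟩ := E.exists_word (n := u.length) (mem_words.2 ⟨rfl, hu⟩)
      rw [List.length_map]
      refine ⟨?_, h3 w s⟩
      have h4 := h2 w
      rw [Set.mem_compl_iff, Set.mem_ofPred_eq, Bool.not_eq_true] at h4
      rw [Bool.eq_iff_iff, Bool.not_eq_true', ← Bool.not_eq_false, not_iff_not.2 h4,
        Bool.not_eq_true]
  · intro h L hL
    obtain ⟨i, d, h1, h2⟩ := (mem_NTIMEPol_iff E).1 hL
    obtain ⟨b, hb⟩ := h (Nat.pair i d)
    obtain ⟨j, b, rfl⟩ : ∃ j b', b = Nat.pair j b' := ⟨b.unpair.1, b.unpair.2, by simp⟩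
    cases j with
    | zero =>
      exfalso
      have h3 := hb 0
      obtain ⟨u, s, k, rfl⟩ : ∃ u s k, b = Nat.pair (encode (u : List ℕ)) (Nat.pair s k) :=
        ⟨ofNat (List ℕ) b.unpair.1, b.unpair.2.unpair.1, b.unpair.2.unpair.2, by simp⟩
      rw [RR_zero, R0_iff ht] at h3
      obtain ⟨h4, h5, h6, h7⟩ := h3
      obtain ⟨w, hw, rfl⟩ := E.exists_word (n := u.length) (mem_words.2 ⟨rfl, h4⟩)
      rw [List.length_map] at h7
      rw [h2 w s h5] at h7
      exact absurd h7 (by simp)
    | succ j =>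
      obtain ⟨i', d', rfl⟩ : ∃ i d, b = Nat.pair i d := ⟨b.unpair.1, b.unpair.2, by simp⟩
      have h3 : ∀ (w : List A) (s : ℕ),
          (accv (i, d) (w.map E.e) (t w.length) = !(accv (i', d') (w.map E.e) (t w.length))) ∧
          (AL i' (w.map E.e) s = true → accv (i', d') (w.map E.e) (t w.length) = true) := by
        intro w s
        obtain ⟨k, hk⟩ := exists_ex (ht w.length)
        have h4 := hb (Nat.pair (encode (w.map E.e)) (Nat.pair s k))
        rw [RR_succ, R1_iff ht, List.length_map] at h4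
        exact h4 (by simpa using fun a _ => E.lt a) hk
      refine (mem_NTIMEPol_iff E).2 ⟨i', d', fun w => ?_, fun w s => (h3 w s).2⟩
      rw [Set.mem_compl_iff, h1, (h3 w 0).1]
      simp

theorem isPi3_RR (m : ℕ) : IsPi3 {x | ∀ a, ∃ b, ∀ y, RR m x a b y = true} :=
  ⟨RR m, computable_RR m, fun _ => Iff.rfl⟩

/-- The index set of the time bounds `t` for which `NTIME(Pol t)` is closed under complementation
is `Π⁰₃`. -/
theorem isPi3_closed (A : Type) [Finite A] :
    IsPi3 (IndexSet fun t => NTIMEPol A t = coNTIMEPol A t) := by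
  obtain ⟨m, ⟨E⟩⟩ := exists_coding A
  have h := isPi3_total.inter (isPi3_RR m)
  have heq : (IndexSet fun t => NTIMEPol A t = coNTIMEPol A t) =
      (IndexSet fun _ => True) ∩ {x | ∀ a, ∃ b, ∀ y, RR m x a b y = true} := by
    ext x
    constructor
    · rintro ⟨t, h1, h2⟩
      exact ⟨⟨t, h1, trivial⟩, (closed_iff_RR E h1).1 h2⟩
    · rintro ⟨⟨t, h1, -⟩, h2⟩
      exact ⟨t, h1, (closed_iff_RR E h1).2 h2⟩
  rw [heq]
  exact h

theorem isPi3_closed_strictMono (A : Type) [Finite A] {g : ℕ → ℕ} (hg : Computable g) :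
    IsPi3 (IndexSet fun t => (StrictMono t ∧ ∀ n, g n ≤ t n) ∧
      NTIMEPol A t = coNTIMEPol A t) := by
  have h := (isPi3_strictMono hg).inter (isPi3_closed A)
  have heq : (IndexSet fun t => (StrictMono t ∧ ∀ n, g n ≤ t n) ∧
      NTIMEPol A t = coNTIMEPol A t) = (IndexSet fun t => StrictMono t ∧ ∀ n, g n ≤ t n) ∩
        (IndexSet fun t => NTIMEPol A t = coNTIMEPol A t) := by
    ext x
    constructor
    · rintro ⟨t, h1, h2, h3⟩
      exact ⟨⟨t, h1, h2⟩, ⟨t, h1, h3⟩⟩
    · rintro ⟨⟨t, h1, h2⟩, ⟨t', h1', h3⟩⟩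
      have : t' = t := funext fun n => Part.mem_unique (h1' n) (h1 n)
      subst this
      exact ⟨t', h1, h2, h3⟩
  rw [heq]
  exact h

end Pool.Agent.H83.NT
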